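import Pool.Agent.Per.Stmts

/-!
# A cyclic sum is a trace
-/

namespace Pool.Agent.Per

/-- The sum over all paths of a given length. -/
theorem cyc_path {B S : Type} [CommRing B] [Fintype S] [DecidableEq S]
    (A : ℕ → Matrix S S B) (n : ℕ) : ∀ g : S → S → B,
    ∑ p : Fin (n + 1) → S, g (p 0) (p (Fin.last n)) *
      ∏ i : Fin n, A i (p i.castSucc) (p i.succ) =
    ∑ a, ∑ b, g a b * ((List.range n).map A).prod a b := by
  induction n with
  | zero =>
    intro g
    simp only [List.range_zero, List.map_nil, List.prod_nil, Finset.univ_eq_empty,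
      Finset.prod_empty, mul_one, Matrix.one_apply, mul_ite, mul_zero, Finset.sum_ite_eq,
      Finset.mem_univ, if_true]
    rw [← Equiv.sum_comp (Equiv.funUnique (Fin 1) S).symm]
    rfl
  | succ n ih =>
    intro g
    rw [← Equiv.sum_comp (Fin.snocEquiv fun _ : Fin (n + 2) => S)]
    rw [Fintype.sum_prod_type]
    have h1 : ∀ (c : S) (p : Fin (n + 1) → S),
        g ((Fin.snocEquiv fun _ : Fin (n + 2) => S) (c, p) 0)
          ((Fin.snocEquiv fun _ : Fin (n + 2) => S) (c, p) (Fin.last (n + 1))) *
        ∏ i : Fin (n + 1), A i ((Fin.snocEquiv fun _ : Fin (n + 2) => S) (c, p) i.castSucc)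
          ((Fin.snocEquiv fun _ : Fin (n + 2) => S) (c, p) i.succ) =
        (g (p 0) c * A n (p (Fin.last n)) c) *
          ∏ i : Fin n, A i (p i.castSucc) (p i.succ) := by
      intro c p
      rw [Fin.prod_univ_castSucc]
      have e0 : (Fin.snocEquiv fun _ : Fin (n + 2) => S) (c, p) 0 = p 0 := by
        change Fin.snoc (α := fun _ => S) p c 0 = p 0
        exact Fin.snoc_castSucc (α := fun _ => S) c p 0
      have e1 : (Fin.snocEquiv fun _ : Fin (n + 2) => S) (c, p) (Fin.last (n + 1)) = c :=
        Fin.snoc_last (α := fun _ => S) c p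
      have e2 : ∀ i : Fin (n + 1),
          (Fin.snocEquiv fun _ : Fin (n + 2) => S) (c, p) i.castSucc = p i := fun i =>
        Fin.snoc_castSucc (α := fun _ => S) c p i
      have e3 : ∀ i : Fin n,
          (Fin.snocEquiv fun _ : Fin (n + 2) => S) (c, p) i.castSucc.succ = p i.succ := by
        intro i
        rw [← Fin.castSucc_succ]
        exact e2 _
      have e4 : (Fin.snocEquiv fun _ : Fin (n + 2) => S) (c, p) (Fin.last n).succ = c := by
        rw [Fin.succ_last]
        exact e1
      rw [e0, e1, e4, e2]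
      simp only [e2, e3, Fin.val_castSucc, Fin.val_last]
      ring
    simp only [h1]
    rw [Finset.sum_comm]
    have h2 : ∀ p : Fin (n + 1) → S,
        ∑ c, (g (p 0) c * A n (p (Fin.last n)) c) *
          ∏ i : Fin n, A i (p i.castSucc) (p i.succ) =
        (fun a b => ∑ c, g a c * A n b c) (p 0) (p (Fin.last n)) *
          ∏ i : Fin n, A i (p i.castSucc) (p i.succ) := by
      intro p
      rw [Finset.sum_mul]
    simp only [h2]
    rw [ih (fun a b => ∑ c, g a c * A n b c)]
    refine Finset.sum_congr rfl fun a _ => ?_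
    rw [List.range_succ, List.map_append, List.prod_append]
    simp only [List.map_cons, List.map_nil, List.prod_cons, List.prod_nil, mul_one,
      Matrix.mul_apply, Finset.mul_sum, Finset.sum_mul]
    rw [Finset.sum_comm]
    refine Finset.sum_congr rfl fun c _ => Finset.sum_congr rfl fun b _ => ?_
    ring

/-- A cyclic product over `Fin (n + 1)`. -/
theorem cyc_fin {B : Type} [CommRing B] (n : ℕ) (F : Fin (n + 1) → Fin (n + 1) → B) :
    (∏ t : Fin (n + 1), F t (t + 1)) =
      (∏ i : Fin n, F i.castSucc i.succ) * F (Fin.last n) 0 := by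
  rw [Fin.prod_univ_castSucc, Fin.last_add_one]
  congr 1
  refine Finset.prod_congr rfl fun i _ => ?_
  rw [show (i.castSucc + 1 : Fin (n + 1)) = i.succ from Fin.coeSucc_eq_succ]

theorem cyc_cast (n : ℕ) (i : Fin (n + 1)) :
    @Eq (Fin (n + 1)) (((i : ℕ) : ZMod (n + 1))) i :=
  Fin.cast_val_eq_self i

/-- A cyclic sum is a trace. -/
theorem cyc : Stmt_Cyc := by
  intro B _ S _ _ N _ M f
  obtain ⟨n, rfl⟩ : ∃ n, N = n + 1 := ⟨N - 1, (Nat.succ_pred_eq_of_ne_zero (NeZero.ne N)).symm⟩
  have key := cyc_path (fun i => M ((i : ℕ) : ZMod (n + 1))) n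
    (fun a b => f a * M ((n : ℕ) : ZMod (n + 1)) b a)
  have hl : ∀ o : ZMod (n + 1) → S, f (o 0) * ∏ t, M t (o t) (o (t + 1)) =
      (f (o 0) * M ((n : ℕ) : ZMod (n + 1)) (o (Fin.last n)) (o 0)) *
        ∏ i : Fin n, M ((i : ℕ) : ZMod (n + 1)) (o (Fin.castSucc i)) (o (Fin.succ i)) := by
    intro o
    have h1 : (∏ t : ZMod (n + 1), M t (o t) (o (t + 1))) =
        (∏ i : Fin n, M (Fin.castSucc i) (o (Fin.castSucc i)) (o (Fin.succ i))) *
          M (Fin.last n) (o (Fin.last n)) (o 0) :=
      cyc_fin n (fun s t => M s (o s) (o t))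
    have h3 : M (Fin.last n) = M ((n : ℕ) : ZMod (n + 1)) := by
      congr 1
      exact (cyc_cast n (Fin.last n)).symm
    have h4 : ∀ i : Fin n, M (Fin.castSucc i) = M ((i : ℕ) : ZMod (n + 1)) := by
      intro i
      congr 1
      exact (cyc_cast n (Fin.castSucc i)).symm
    rw [h1, h3, Finset.prod_congr rfl fun i _ => by rw [h4 i]]
    ring
  rw [Finset.sum_congr rfl fun o _ => hl o]
  refine Eq.trans key ?_
  have hL : (List.map (fun i => M i) (do
      let a ← List.range (n + 1)
      pure (a : ZMod (n + 1)))) =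
      (List.range n).map (fun i => M ((i : ℕ) : ZMod (n + 1))) ++
        [M ((n : ℕ) : ZMod (n + 1))] := by
    have hf : ∀ l : List ℕ, List.flatMap (fun a : ℕ => [(a : ZMod (n + 1))]) l =
        List.map (fun a : ℕ => (a : ZMod (n + 1))) l := by
      intro l
      induction l with
      | nil => rfl
      | cons a l ih => rw [List.flatMap_cons, ih]; rfl
    simp only [List.bind_eq_flatMap, List.pure_def]
    rw [hf, List.map_map, List.range_succ, List.map_append]
    rfl
  rw [hL, List.prod_append, List.prod_singleton, Matrix.trace]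
  refine Finset.sum_congr rfl fun a _ => ?_
  rw [Matrix.diag_apply, Matrix.diagonal_mul, Matrix.mul_apply, Finset.mul_sum]
  refine Finset.sum_congr rfl fun b _ => ?_
  ring

end Pool.Agent.Per
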