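import Pool.Agent.Per.Stmts

/-!
# The traces of the powers of a matrix
-/

namespace Pool.Agent.Per

open Polynomial

private theorem eigen_det {F : Type*} [Field F] [IsAlgClosed F] {S : Type*} [Fintype S]
    [DecidableEq S] (N : Matrix S S F) (l : S → F) (hl : N.charpoly = ∏ s, (X - C (l s)))
    (p : F[X]) : (aeval N p).det = ∏ s, p.eval (l s) := by
  have hsub : ∀ a : F, (aeval N (X - C a)).det = ∏ s, (X - C a : F[X]).eval (l s) := by
    intro a
    have h1 : (Matrix.scalar S a - N).det = ∏ s, (a - l s) := by
      rw [← Matrix.eval_charpoly, hl, eval_prod]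
      simp
    have h2 : aeval N (X - C a) = -(Matrix.scalar S a - N) := by
      rw [map_sub, aeval_X, aeval_C, neg_sub]
      rfl
    rw [h2, Matrix.det_neg, h1]
    simp only [eval_sub, eval_X, eval_C]
    rw [← Finset.card_univ, ← Finset.prod_const, ← Finset.prod_mul_distrib]
    exact Finset.prod_congr rfl fun s _ => by ring
  have hms : ∀ t : Multiset F, (aeval N (t.map fun a => X - C a).prod).det =
      ∏ s, (t.map fun a => X - C a).prod.eval (l s) := by
    intro t
    induction t using Multiset.induction_on with
    | empty => simp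
    | cons a t ih =>
      rw [Multiset.map_cons, Multiset.prod_cons, map_mul, Matrix.det_mul, ih, hsub a,
        ← Finset.prod_mul_distrib]
      exact Finset.prod_congr rfl fun s _ => by rw [eval_mul]
  rw [(IsAlgClosed.splits p).eq_prod_roots, map_mul, Matrix.det_mul, hms, aeval_C]
  have h3 : (algebraMap F (Matrix S S F) p.leadingCoeff).det = ∏ _s : S, p.leadingCoeff := by
    rw [Matrix.algebraMap_eq_diagonal, Matrix.det_diagonal]
    simp
  rw [h3, ← Finset.prod_mul_distrib]
  exact Finset.prod_congr rfl fun s _ => by rw [eval_mul, eval_C]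

theorem eigen : Stmt_Eigen := by
  intro K _ S _ _ M hM
  obtain ⟨l, hl⟩ : ∃ l : S → K, M.charpoly = ∏ s, (X - C (l s)) := by
    have hcard : M.charpoly.roots.toList.length = Fintype.card S := by
      rw [Multiset.length_toList, ← hM.natDegree_eq_card_roots, Matrix.charpoly_natDegree_eq_dim]
    refine ⟨fun s => M.charpoly.roots.toList.get (Fin.cast hcard.symm (Fintype.equivFin S s)), ?_⟩
    have h1 : ∏ s : S, (X - C (M.charpoly.roots.toList.get
        (Fin.cast hcard.symm (Fintype.equivFin S s)))) =
        (M.charpoly.roots.toList.map fun a => X - C a).prod := by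
      rw [← Equiv.prod_comp (Fintype.equivFin S).symm]
      simp only [Equiv.apply_symm_apply]
      rw [← Equiv.prod_comp (finCongr hcard)]
      rw [← List.prod_ofFn]
      congr 1
      apply List.ext_getElem <;> simp
    rw [h1, ← Multiset.prod_coe, ← Multiset.map_coe, Multiset.coe_toList]
    exact hM.eq_prod_roots_of_monic M.charpoly_monic
  refine ⟨l, fun m => ?_⟩
  have key : (M ^ m).charpoly = ∏ s, (X - C (l s ^ m)) := by
    let φ : K[X] →+* AlgebraicClosure (FractionRing K[X]) :=
      (algebraMap (FractionRing K[X]) (AlgebraicClosure (FractionRing K[X]))).comp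
        (algebraMap K[X] (FractionRing K[X]))
    have hφ : Function.Injective φ :=
      (algebraMap (FractionRing K[X]) (AlgebraicClosure (FractionRing K[X]))).injective.comp
        (IsFractionRing.injective K[X] (FractionRing K[X]))
    apply hφ
    have hN : (M.map (φ.comp C)).charpoly = ∏ s, (X - C (φ (C (l s)))) := by
      rw [Matrix.charpoly_map, hl, Polynomial.map_prod]
      simp
    have h1 := eigen_det (M.map (φ.comp C)) (fun s => φ (C (l s))) hN (C (φ X) - X ^ m)
    have h2 : φ (M ^ m).charpoly =
        (aeval (M.map (φ.comp C)) (C (φ X) - X ^ m)).det := by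
      rw [Matrix.charpoly, RingHom.map_det]
      congr 1
      rw [map_sub, aeval_C, map_pow, aeval_X]
      ext i j
      simp only [RingHom.mapMatrix_apply, Matrix.map_apply, Matrix.sub_apply,
        Matrix.charmatrix_apply, map_sub]
      congr 1
      · by_cases h : i = j
        · subst h; simp [Matrix.algebraMap_eq_diagonal]
        · simp [Matrix.algebraMap_eq_diagonal, h]
      · have h3 : (M.map (φ.comp C)) ^ m = (M ^ m).map (φ.comp C) :=
          ((φ.comp C).mapMatrix.map_pow M m).symm
        rw [h3]
        rfl
    rw [h2, h1, map_prod]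
    exact Finset.prod_congr rfl fun s _ => by simp
  have hr : (M ^ m).charpoly.roots = Finset.univ.val.map fun s => l s ^ m := by
    rw [key, ← roots_multiset_prod_X_sub_C (Finset.univ.val.map fun s => l s ^ m),
      Multiset.map_map]
    rfl
  have hs : (M ^ m).charpoly.Splits := by
    rw [key]
    exact Splits.prod fun s _ => Splits.X_sub_C _
  rw [Matrix.trace_eq_sum_roots_charpoly_of_splits hs, hr]
  rfl

end Pool.Agent.Per
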