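import Pool.Agent.Per.Stmts

/-!
# A differential field containing the Laurent polynomials
-/

namespace Pool.Agent.Per

open LaurentPolynomial

namespace Fld

instance charZeroL : CharZero ℤ[T;T⁻¹] := by
  refine ⟨fun a b h => ?_⟩
  have h1 : (C (a : ℤ) : ℤ[T;T⁻¹]) = C (b : ℤ) := by
    simpa using h
  have h2 := congrArg (fun f : ℤ[T;T⁻¹] => eval₂ (RingHom.id ℤ) 1 f) h1
  simp only [eval₂_C, RingHom.id_apply] at h2
  exact_mod_cast h2

section
variable (F : Type) [Field F] [Algebra ℤ[T;T⁻¹] F] [IsFractionRing ℤ[T;T⁻¹] F]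

theorem alg_inj : Function.Injective (algebraMap ℤ[T;T⁻¹] F) := IsFractionRing.injective _ _

/-- the variable -/
noncomputable def x0 : F := algebraMap ℤ[T;T⁻¹] F (T 1)

theorem x0_ne : x0 F ≠ 0 := by
  intro h
  have h1 : (T 1 : ℤ[T;T⁻¹]) = 0 := alg_inj F (by rw [map_zero]; exact h)
  have h2 : (T 1 : ℤ[T;T⁻¹]) * T (-1) = 1 := by rw [← T_add]; simp
  rw [h1, zero_mul] at h2
  exact zero_ne_one h2

/-- the image of the variable in the dual numbers -/
noncomputable def a0 : DualNumber F :=
  TrivSqZeroExt.inl (x0 F) + TrivSqZeroExt.inr ((4 * x0 F ^ 3)⁻¹)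

omit [IsFractionRing ℤ[T;T⁻¹] F] in
theorem a0_fst : (a0 F).fst = x0 F := by simp [a0]

omit [IsFractionRing ℤ[T;T⁻¹] F] in
theorem a0_snd : (a0 F).snd = (4 * x0 F ^ 3)⁻¹ := by simp [a0]

theorem a0_unit : IsUnit (a0 F) := by
  rw [TrivSqZeroExt.isUnit_iff_isUnit_fst, a0_fst]
  exact isUnit_iff_ne_zero.mpr (x0_ne F)

/-- the ring homomorphism encoding the derivation on Laurent polynomials -/
noncomputable def psi : ℤ[T;T⁻¹] →+* DualNumber F :=
  eval₂ (Int.castRingHom (DualNumber F)) (a0_unit F).unit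

/-- the first component -/
def fst0 : DualNumber F →+* F where
  toFun x := x.fst
  map_one' := TrivSqZeroExt.fst_one
  map_mul' := TrivSqZeroExt.fst_mul
  map_zero' := TrivSqZeroExt.fst_zero
  map_add' := TrivSqZeroExt.fst_add

theorem psi_T1 : psi F (T 1) = a0 F := by
  have := eval₂_T_n (Int.castRingHom (DualNumber F)) (a0_unit F).unit 1
  rw [pow_one] at this
  exact this

theorem fst_psi (f : ℤ[T;T⁻¹]) : (psi F f).fst = algebraMap ℤ[T;T⁻¹] F f := by
  have h : (fst0 F).comp (psi F) = algebraMap ℤ[T;T⁻¹] F := by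
    apply IsLocalization.ringHom_ext (Submonoid.powers (Polynomial.X : Polynomial ℤ))
    apply Polynomial.ringHom_ext
    · intro a
      simp
    · have h1 : algebraMap (Polynomial ℤ) ℤ[T;T⁻¹] Polynomial.X = T 1 := by
        rw [algebraMap_eq_toLaurent, Polynomial.toLaurent_X]
      rw [RingHom.comp_apply, RingHom.comp_apply, RingHom.comp_apply, h1, psi_T1]
      exact a0_fst F
  rw [← h]
  rfl

theorem psi_unit (y : nonZeroDivisors ℤ[T;T⁻¹]) : IsUnit (psi F y) := by
  rw [TrivSqZeroExt.isUnit_iff_isUnit_fst, fst_psi, isUnit_iff_ne_zero]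
  intro h
  have h1 : (y : ℤ[T;T⁻¹]) = 0 := alg_inj F (by rw [map_zero]; exact h)
  exact nonZeroDivisors.ne_zero y.2 h1

/-- the extension to the fraction field -/
noncomputable def psiF : F →+* DualNumber F := IsLocalization.lift (psi_unit F)

theorem psiF_alg (f : ℤ[T;T⁻¹]) : psiF F (algebraMap ℤ[T;T⁻¹] F f) = psi F f :=
  IsLocalization.lift_eq _ _

theorem fst_psiF (y : F) : (psiF F y).fst = y := by
  have h : (fst0 F).comp (psiF F) = RingHom.id F := by
    apply IsLocalization.ringHom_ext (nonZeroDivisors ℤ[T;T⁻¹])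
    apply RingHom.ext
    intro f
    rw [RingHom.comp_apply, RingHom.comp_apply, psiF_alg]
    exact fst_psi F f
  have := congrArg (fun g : F →+* F => g y) h
  exact this

/-- the derivation -/
noncomputable def D0 : Derivation ℤ F F :=
  Derivation.mk' (AddMonoidHom.toIntLinearMap
    { toFun := fun y => (psiF F y).snd
      map_zero' := by rw [map_zero]; rfl
      map_add' := fun a b => by rw [map_add]; rfl }) (by
    intro a b
    show (psiF F (a * b)).snd = a • (psiF F b).snd + b • (psiF F a).snd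
    rw [map_mul, TrivSqZeroExt.snd_mul, fst_psiF, fst_psiF, op_smul_eq_smul])

theorem D0_apply (y : F) : D0 F y = (psiF F y).snd := rfl

theorem D0_T4 : D0 F (algebraMap ℤ[T;T⁻¹] F (T 4)) = 1 := by
  have hch : CharZero F := charZero_of_injective_algebraMap (alg_inj F)
  have h4 : (T 4 : ℤ[T;T⁻¹]) = T 1 ^ 4 := by rw [T_pow]; rfl
  have hx : D0 F (x0 F) = (4 * x0 F ^ 3)⁻¹ := by
    rw [D0_apply, x0, psiF_alg, psi_T1, a0_snd]
    rfl
  rw [h4, map_pow, Derivation.leibniz_pow]
  change 4 • x0 F ^ (4 - 1) • D0 F (x0 F) = 1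
  rw [hx]
  have := x0_ne F
  simp only [smul_eq_mul, nsmul_eq_mul]
  norm_num
  field_simp

include F in
theorem main (P : Polynomial ℤ[T;T⁻¹]) :
    ∃ (K : Type) (_ : Field K) (_ : CharZero K) (_ : Differential K) (φ : ℤ[T;T⁻¹] →+* K),
    Function.Injective φ ∧ Differential.deriv (φ (T 4)) = 1 ∧ (P.map φ).Splits := by
  have hch : CharZero F := charZero_of_injective_algebraMap (alg_inj F)
  let _ : Differential F := ⟨D0 F⟩
  let Q : Polynomial F := P.map (algebraMap ℤ[T;T⁻¹] F)
  let K := Q.SplittingField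
  have : CharZero K := charZero_of_injective_algebraMap (algebraMap F K).injective
  let dK : Differential K := Differential.differentialFiniteDimensional F K
  have hdK : DifferentialAlgebra F K := Differential.differentialAlgebraFiniteDimensional
  refine ⟨K, inferInstance, inferInstance, dK,
    (algebraMap F K).comp (algebraMap ℤ[T;T⁻¹] F), ?_, ?_, ?_⟩
  · exact (algebraMap F K).injective.comp (alg_inj F)
  · rw [RingHom.comp_apply, deriv_algebraMap]
    have h1 : Differential.deriv (algebraMap ℤ[T;T⁻¹] F (T 4)) = (1 : F) := D0_T4 F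
    rw [h1, map_one]
  · rw [← Polynomial.map_map]
    exact Polynomial.SplittingField.splits Q

end

end Fld

theorem field : Stmt_Field := fun P _ => Fld.main (FractionRing ℤ[T;T⁻¹]) P

end Pool.Agent.Per
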