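import Pool.Agent.Per.Stmts

/-!
# Grouping the terms with the same logarithmic derivative
-/

namespace Pool.Agent.Per

theorem deriv_pow_zero {K : Type} [Field K] [Differential K] {x : K}
    (h : Differential.deriv x = 0) (m : ℕ) : Differential.deriv (x ^ m) = 0 := by
  rw [Derivation.leibniz_pow, h]
  simp

theorem group (h : Stmt_Wronski) : Stmt_Group := by
  classical
  intro K _ _ _ t ht ι _ s d x c e hx hc hs
  set I : Finset K := Finset.univ.image fun i => Differential.logDeriv (x i) with hI
  have hmem : ∀ i, Differential.logDeriv (x i) ∈ I := fun i =>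
    Finset.mem_image_of_mem _ (Finset.mem_univ i)
  have hrep : ∀ a : I, ∃ i, Differential.logDeriv (x i) = a := by
    rintro ⟨a, ha⟩
    obtain ⟨i, _, hi⟩ := Finset.mem_image.mp ha
    exact ⟨i, hi⟩
  choose rep hrep using hrep
  let f : Fin I.card ≃ I := I.equivFin.symm
  let X : Fin I.card → K := fun a => x (rep (f a))
  have hX0 : ∀ a, X a ≠ 0 := fun a => hx _
  have hXl : ∀ a, Differential.logDeriv (X a) = f a := fun a => hrep _
  have hXi : Function.Injective fun a => Differential.logDeriv (X a) := by
    intro a b hab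
    simp only [hXl] at hab
    exact f.injective (Subtype.ext hab)
  obtain ⟨E, hE, hm⟩ := h K t ht I.card d X hX0 hXi
  refine ⟨E, hE.trans (Nat.pow_le_pow_left (Nat.mul_le_mul_right d hs) 2), ?_⟩
  intro m h1 hmE hsum j
  let al : ι → Fin I.card := fun i => f.symm ⟨Differential.logDeriv (x i), hmem i⟩
  let κ : ι → K := fun i => x i / X (al i)
  have hκ : ∀ i, Differential.deriv (κ i) = 0 := by
    intro i
    rw [← Differential.logDeriv_eq_zero, Differential.logDeriv_div _ _ (hx i) (hX0 _), hXl]
    simp [al]
  have hκx : ∀ i, κ i ^ m * X (al i) ^ m = x i ^ m := by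
    intro i
    rw [← mul_pow, div_mul_cancel₀ _ (hX0 _)]
  let γ : Fin I.card → Fin d → K := fun a j => ∑ i, if al i = a ∧ e i = j then c i * κ i ^ m else 0
  have hγ : ∀ a j, Differential.deriv (γ a j) = 0 := by
    intro a j
    simp only [γ, map_sum]
    refine Finset.sum_eq_zero fun i _ => ?_
    split_ifs
    · rw [Derivation.leibniz, hc, deriv_pow_zero (hκ i)]
      simp
    · exact map_zero _
  have hz : ∑ a, ∑ j, γ a j * t ^ (j : ℕ) * X a ^ m = 0 := by
    rw [← hsum]
    have h2 : ∀ a (j : Fin d), γ a j * t ^ (j : ℕ) * X a ^ m =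
        ∑ i, if al i = a ∧ e i = j then c i * t ^ (e i : ℕ) * x i ^ m else 0 := by
      intro a j
      simp only [γ, Finset.sum_mul]
      refine Finset.sum_congr rfl fun i _ => ?_
      split_ifs with h3
      · obtain ⟨h4, h5⟩ := h3
        rw [← hκx i, h4, h5]
        ring
      · simp
    rw [Finset.sum_congr rfl fun a _ => Finset.sum_congr rfl fun j _ => h2 a j]
    rw [Finset.sum_congr rfl fun a _ => Finset.sum_comm, Finset.sum_comm]
    refine Finset.sum_congr rfl fun i _ => ?_
    rw [Finset.sum_eq_single (al i), Finset.sum_eq_single (e i)]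
    · simp
    · intro j _ hj
      rw [if_neg]
      rintro ⟨_, h3⟩
      exact hj h3.symm
    · intro h3
      exact absurd (Finset.mem_univ _) h3
    · intro a _ ha
      refine Finset.sum_eq_zero fun j _ => ?_
      rw [if_neg]
      rintro ⟨h3, _⟩
      exact ha h3.symm
    · intro h3
      exact absurd (Finset.mem_univ _) h3
  have hγ0 := hm m h1 hmE γ hγ hz
  rw [Finset.sum_filter]
  have h6 : ∀ i, (if e i = j then c i * x i ^ m else 0) =
      ∑ a, (if al i = a ∧ e i = j then c i * κ i ^ m else 0) * X a ^ m := by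
    intro i
    rw [Finset.sum_eq_single (al i)]
    · by_cases h7 : e i = j
      · rw [if_pos h7, if_pos ⟨rfl, h7⟩, ← hκx i]
        ring
      · rw [if_neg h7, if_neg (fun h8 => h7 h8.2)]
        simp
    · intro a _ ha
      rw [if_neg (fun h8 => ha h8.1.symm)]
      simp
    · intro h3
      exact absurd (Finset.mem_univ _) h3
  rw [Finset.sum_congr rfl fun i _ => h6 i, Finset.sum_comm]
  refine Finset.sum_eq_zero fun a _ => ?_
  rw [← Finset.sum_mul]
  have : (∑ i, if al i = a ∧ e i = j then c i * κ i ^ m else 0) = γ a j := rfl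
  rw [this, hγ0 a j, zero_mul]

end Pool.Agent.Per
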