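import Pool.Agent.Per.Stmts

/-!
# The trace over the last strand
-/

namespace Pool.Agent.Per

open LaurentPolynomial Pool.Agent.Helper1.PK

section Markov

variable {B : Type*} [CommRing B] {n : ℕ}

/-- sums over the two signs -/
lemma mk_sum_units {M : Type*} [AddCommMonoid M] (f : ℤˣ → M) : ∑ s : ℤˣ, f s = f 1 + f (-1) := by
  rw [UnitsInt.univ]
  rw [Finset.sum_insert (by decide), Finset.sum_singleton]

/-- add a last strand -/
def mkj (σ : Spin n) (s : ℤˣ) : Spin (n + 1) := Fin.snoc (α := fun _ => ℤˣ) σ s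

lemma mkj_castSucc (σ : Spin n) (s : ℤˣ) (j : Fin (n + 1)) : mkj σ s j.castSucc = σ j := by
  simp [mkj]

lemma mkj_last (σ : Spin n) (s : ℤˣ) : mkj σ s (Fin.last (n + 1)) = s := by
  simp [mkj]

lemma mkj_inj (σ τ : Spin n) (s t : ℤˣ) : mkj σ s = mkj τ t ↔ σ = τ ∧ s = t := by
  constructor
  · intro h
    refine ⟨funext fun j => ?_, ?_⟩
    · rw [← mkj_castSucc σ s j, h, mkj_castSucc]
    · rw [← mkj_last σ s, h, mkj_last]
  · rintro ⟨rfl, rfl⟩
    rfl

lemma mk_sum {M : Type*} [AddCommMonoid M] (f : Spin (n + 1) → M) :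
    ∑ ρ, f ρ = ∑ σ : Spin n, ∑ s : ℤˣ, f (mkj σ s) := by
  rw [← (Fin.snocEquiv (fun _ : Fin (n + 1 + 1) => ℤˣ)).sum_comp, Fintype.sum_prod_type,
    Finset.sum_comm]
  rfl

omit [CommRing B] in
lemma mk_ext {M N : Matrix (Spin (n + 1)) (Spin (n + 1)) B}
    (h : ∀ σ s τ t, M (mkj σ s) (mkj τ t) = N (mkj σ s) (mkj τ t)) : M = N := by
  ext ρ ρ'
  have e : ∀ ρ : Spin (n + 1), ρ = mkj (fun j => ρ j.castSucc) (ρ (Fin.last (n + 1))) := by
    intro ρ
    funext j
    refine Fin.lastCases ?_ (fun j => ?_) j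
    · rw [mkj_last]
    · rw [mkj_castSucc]
  rw [e ρ, e ρ']
  exact h _ _ _ _

/-- the embedding of matrices -/
def mkE (M : Matrix (Spin n) (Spin n) B) : Matrix (Spin (n + 1)) (Spin (n + 1)) B := fun σ τ =>
  if σ (Fin.last (n + 1)) = τ (Fin.last (n + 1)) then
    M (fun j => σ j.castSucc) (fun j => τ j.castSucc) else 0

lemma mkE_apply (M : Matrix (Spin n) (Spin n) B) (σ τ : Spin n) (s t : ℤˣ) :
    mkE M (mkj σ s) (mkj τ t) = if s = t then M σ τ else 0 := by
  unfold mkE
  simp only [mkj_last, mkj_castSucc]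

lemma mkE_one : mkE (1 : Matrix (Spin n) (Spin n) B) = 1 := by
  apply mk_ext
  intro σ s τ t
  rw [mkE_apply, Matrix.one_apply, Matrix.one_apply]
  by_cases h1 : s = t <;> by_cases h2 : σ = τ <;> simp [h1, h2, mkj_inj]

lemma mkE_mul (M N : Matrix (Spin n) (Spin n) B) : mkE (M * N) = mkE M * mkE N := by
  apply mk_ext
  intro σ s τ t
  rw [mkE_apply, Matrix.mul_apply, Matrix.mul_apply, mk_sum]
  simp_rw [mkE_apply]
  by_cases h : s = t
  · subst h
    rw [if_pos rfl]
    apply Finset.sum_congr rfl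
    intro ρ _
    rw [Finset.sum_eq_single s]
    · simp
    · intro r _ hr
      rw [if_neg (Ne.symm hr), zero_mul]
    · intro h'
      exact absurd (Finset.mem_univ s) h'
  · rw [if_neg h]
    symm
    apply Finset.sum_eq_zero
    intro ρ _
    apply Finset.sum_eq_zero
    intro r _
    by_cases h1 : s = r
    · have h2 : r ≠ t := fun h2 => h (h1.trans h2)
      rw [if_neg h2, mul_zero]
    · rw [if_neg h1, zero_mul]

lemma mk_at (a : Fin n) (j : Fin (n + 1)) : At a.castSucc j.castSucc ↔ At a j := by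
  unfold At
  rw [Fin.succ_castSucc, Fin.castSucc_inj, Fin.castSucc_inj]

lemma mk_at_last (a : Fin n) : ¬ At a.castSucc (Fin.last (n + 1)) := by
  unfold At
  rw [Fin.succ_castSucc]
  rintro (h | h)
  · exact (Fin.castSucc_lt_last _).ne' h
  · exact (Fin.castSucc_lt_last _).ne' h

lemma mkE_turnM (A : Bˣ) (a : Fin n) : mkE (turnM A a) = turnM A a.castSucc := by
  apply mk_ext
  intro σ s τ t
  rw [mkE_apply]
  unfold turnM
  have h1 : (∀ j : Fin (n + 1 + 1), ¬ At a.castSucc j → mkj τ t j = mkj σ s j)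
      ↔ (∀ j : Fin (n + 1), ¬ At a j → τ j = σ j) ∧ s = t := by
    rw [Fin.forall_fin_succ']
    constructor
    · rintro ⟨h1, h2⟩
      refine ⟨fun j hj => ?_, ?_⟩
      · have := h1 j (by rw [mk_at]; exact hj)
        rw [mkj_castSucc, mkj_castSucc] at this
        exact this
      · have := h2 (mk_at_last a)
        rw [mkj_last, mkj_last] at this
        exact this.symm
    · rintro ⟨h1, h2⟩
      refine ⟨fun j hj => ?_, fun _ => ?_⟩
      · rw [mk_at] at hj
        rw [mkj_castSucc, mkj_castSucc]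
        exact h1 j hj
      · rw [mkj_last, mkj_last]
        exact h2.symm
  have h2 : ∀ (σ : Spin n) (s : ℤˣ), mkj σ s a.castSucc.castSucc = σ a.castSucc :=
    fun σ s => mkj_castSucc σ s _
  have h3 : ∀ (σ : Spin n) (s : ℤˣ), mkj σ s a.castSucc.succ = σ a.succ := by
    intro σ s
    rw [Fin.succ_castSucc, mkj_castSucc]
  simp only [h1, h2, h3]
  by_cases h : s = t
  · simp [h]
  · simp [h]

lemma mkE_prodM (A : Bˣ) (u : List (Fin n)) : prodM A (u.map Fin.castSucc) = mkE (prodM A u) := by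
  induction u with
  | nil => simp [prodM, mkE_one]
  | cons a u ih =>
    unfold prodM at ih ⊢
    rw [List.map_cons, List.map_cons, List.prod_cons, ih, List.map_cons, List.prod_cons, mkE_mul,
      mkE_turnM]

lemma mk_spin (σ : Spin n) (s : ℤˣ) : spin (mkj σ s) = spin σ + s := by
  unfold spin
  rw [Fin.sum_univ_castSucc]
  simp_rw [mkj_castSucc, mkj_last]

lemma mk_twist (z : Bˣ) (σ : Spin n) (s : ℤˣ) :
    ((z ^ spin (mkj σ s) : Bˣ) : B) = ((z ^ spin σ : Bˣ) : B) * ((z ^ (s : ℤ) : Bˣ) : B) := by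
  rw [mk_spin, zpow_add, Units.val_mul]

/-- the trace over the last strand only -/
def mkT (z : Bˣ) (M : Matrix (Spin (n + 1)) (Spin (n + 1)) B) : Matrix (Spin n) (Spin n) B :=
  fun σ τ => ∑ s : ℤˣ, ((z ^ (s : ℤ) : Bˣ) : B) * M (mkj σ s) (mkj τ s)

lemma mk_trace (z : Bˣ) (M : Matrix (Spin (n + 1)) (Spin (n + 1)) B) :
    Matrix.trace (twist z (n + 1) * M) = Matrix.trace (twist z n * mkT z M) := by
  unfold Matrix.trace
  simp only [Matrix.diag_apply]
  unfold twist
  simp_rw [Matrix.diagonal_mul]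
  rw [mk_sum]
  apply Finset.sum_congr rfl
  intro σ _
  unfold mkT
  rw [Finset.mul_sum]
  apply Finset.sum_congr rfl
  intro s _
  rw [mk_twist, mul_assoc]

lemma mkT_mul (z : Bˣ) (P Q : Matrix (Spin n) (Spin n) B)
    (M : Matrix (Spin (n + 1)) (Spin (n + 1)) B) :
    mkT z (mkE P * M * mkE Q) = P * mkT z M * Q := by
  ext σ τ
  unfold mkT
  rw [Matrix.mul_apply]
  have h1 : ∀ s : ℤˣ, (mkE P * M * mkE Q) (mkj σ s) (mkj τ s)
      = ∑ ρ' : Spin n, (∑ ρ : Spin n, P σ ρ * M (mkj ρ s) (mkj ρ' s)) * Q ρ' τ := by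
    intro s
    rw [Matrix.mul_apply, mk_sum]
    apply Finset.sum_congr rfl
    intro ρ' _
    simp_rw [mkE_apply]
    rw [Finset.sum_eq_single s]
    · rw [if_pos rfl, Matrix.mul_apply, mk_sum]
      congr 1
      apply Finset.sum_congr rfl
      intro ρ _
      simp_rw [mkE_apply]
      rw [Finset.sum_eq_single s]
      · rw [if_pos rfl]
      · intro r _ hr
        rw [if_neg (Ne.symm hr), zero_mul]
      · intro h'
        exact absurd (Finset.mem_univ s) h'
    · intro r _ hr
      rw [if_neg hr, mul_zero]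
    · intro h'
      exact absurd (Finset.mem_univ s) h'
  simp_rw [h1]
  simp_rw [Finset.mul_sum]
  rw [Finset.sum_comm]
  apply Finset.sum_congr rfl
  intro ρ' _
  rw [Matrix.mul_apply, Finset.sum_mul]
  simp_rw [Finset.mul_sum, Finset.sum_mul, Finset.mul_sum]
  rw [Finset.sum_comm]
  apply Finset.sum_congr rfl
  intro ρ _
  apply Finset.sum_congr rfl
  intro s _
  ring

lemma mkT_E (z : Bˣ) (P : Matrix (Spin n) (Spin n) B) :
    mkT z (mkE P) = ((z : B) + ((z⁻¹ : Bˣ) : B)) • P := by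
  ext σ τ
  unfold mkT
  simp_rw [mkE_apply]
  rw [mk_sum_units, Matrix.smul_apply, smul_eq_mul]
  simp
  ring

lemma mkT_turn (A : Bˣ) : mkT (-A ^ 2) (turnM A (Fin.last n)) = 1 := by
  ext σ τ
  unfold mkT turnM
  have hl : ∀ (σ : Spin n) (s : ℤˣ), mkj σ s (Fin.last n).castSucc = σ (Fin.last n) :=
    fun σ s => mkj_castSucc σ s _
  have hs : ∀ (σ : Spin n) (s : ℤˣ), mkj σ s (Fin.last n).succ = s := by
    intro σ s
    rw [Fin.succ_last, mkj_last]
  simp only [hl, hs]
  rw [Matrix.one_apply]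
  by_cases h : σ = τ
  · subst h
    rw [if_pos rfl, Finset.sum_eq_single (-σ (Fin.last n))]
    · rw [if_pos ⟨fun _ _ => rfl, rfl, rfl⟩, Int.units_mul_self]
      rcases Int.units_eq_one_or (σ (Fin.last n)) with h | h
      · rw [h]
        have : (-A ^ 2 : Bˣ) ^ (((-1 : ℤˣ)) : ℤ) * (-(A ^ (((1 : ℤˣ) : ℤ) + ((1 : ℤˣ) : ℤ)))) = 1 := by
          simp only [Units.val_neg, Units.val_one, Int.reduceNeg, zpow_neg, zpow_one]
          rw [show ((1 : ℤ) + 1) = ((2 : ℕ) : ℤ) by norm_num, zpow_natCast]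
          exact inv_mul_cancel _
        have h2 := congrArg (fun x : Bˣ => (x : B)) this
        simp only [Units.val_mul, Units.val_neg, Units.val_one] at h2
        simp only [Units.val_neg, Units.val_one, Int.cast_neg, Int.cast_one]
        linear_combination h2
      · rw [h]
        have : (-A ^ 2 : Bˣ) ^ (((- -1 : ℤˣ)) : ℤ) * (-(A ^ (((-1 : ℤˣ) : ℤ) + ((-1 : ℤˣ) : ℤ)))) = 1 := by
          simp only [neg_neg, Units.val_neg, Units.val_one, Int.reduceNeg, zpow_one]
          rw [show ((-1 : ℤ) + -1) = -((2 : ℕ) : ℤ) by norm_num, zpow_neg, zpow_natCast, neg_mul_neg]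
          exact mul_inv_cancel _
        have h2 := congrArg (fun x : Bˣ => (x : B)) this
        simp only [Units.val_mul, Units.val_neg, Units.val_one] at h2
        simp only [Units.val_neg, Units.val_one, Int.cast_neg, Int.cast_one]
        linear_combination h2
    · intro s _ hs'
      rw [if_neg, mul_zero]
      rintro ⟨-, h1, -⟩
      exact hs' h1
    · intro h'
      exact absurd (Finset.mem_univ _) h'
  · rw [if_neg h]
    apply Finset.sum_eq_zero
    intro s _
    rw [if_neg, mul_zero]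
    rintro ⟨h1, h2, h3⟩
    apply h
    funext j
    refine Fin.lastCases ?_ (fun j => ?_) j
    · rw [h2] at h3
      exact neg_injective h3
    · have h4 := h1 j.castSucc.castSucc (by
        unfold At
        rw [Fin.succ_last]
        rintro (h | h)
        · rw [Fin.castSucc_inj] at h
          exact (Fin.castSucc_lt_last _).ne h
        · exact (Fin.castSucc_lt_last _).ne h)
      rw [mkj_castSucc, mkj_castSucc] at h4
      exact h4.symm

lemma mk_spin_turn (A : Bˣ) (a : Fin n) (σ τ : Spin n) (h : turnM A a σ τ ≠ 0) :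
    spin σ = spin τ := by
  unfold turnM at h
  have h' : (∀ j, ¬ At a j → τ j = σ j) ∧ σ a.succ = -σ a.castSucc ∧ τ a.succ = -τ a.castSucc := by
    by_contra hc
    exact h (if_neg hc)
  obtain ⟨h1, h2, h3⟩ := h'
  unfold spin
  rw [← sub_eq_zero, ← Finset.sum_sub_distrib,
    Fintype.sum_eq_add a.castSucc a.succ (Fin.castSucc_lt_succ).ne]
  · rw [h2, h3]
    push_cast
    ring
  · rintro x ⟨hx1, hx2⟩
    rw [h1 x (by
      unfold At
      rintro (h | h)
      · exact hx1 h
      · exact hx2 h)]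
    ring

lemma mk_comm_turn (A z : Bˣ) (a : Fin n) :
    twist z n * turnM A a = turnM A a * twist z n := by
  ext σ τ
  unfold twist
  rw [Matrix.diagonal_mul, Matrix.mul_diagonal]
  by_cases h : turnM A a σ τ = 0
  · rw [h, mul_zero, zero_mul]
  · rw [mk_spin_turn A a σ τ h, mul_comm]

lemma mk_comm (A z : Bˣ) (u : List (Fin n)) :
    twist z n * prodM A u = prodM A u * twist z n := by
  induction u with
  | nil => simp [prodM]
  | cons a u ih =>
    unfold prodM at ih ⊢
    rw [List.map_cons, List.prod_cons, ← mul_assoc, mk_comm_turn, mul_assoc, ih, mul_assoc]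

end Markov

theorem markov : Stmt_Markov := by
  intro B _ A z n
  refine ⟨fun u => ?_, fun hz u v => ?_⟩
  · rw [mk_trace, mkE_prodM, mkT_E, Matrix.mul_smul, Matrix.trace_smul, smul_eq_mul]
  · subst hz
    rw [mk_trace, mkE_prodM, mkE_prodM, mkT_mul, mkT_turn, mul_one]
    have h1 : prodM A (v ++ u) = prodM A v * prodM A u := by
      unfold prodM
      rw [List.map_append, List.prod_append]
    rw [h1, ← mul_assoc, mk_comm, mul_assoc, Matrix.trace_mul_comm, mul_assoc]

end Pool.Agent.Per
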