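import Pool.Agent.Per.Stmts

/-!
# Reversing the order of the strands
-/

namespace Pool.Agent.Per

open Pool.Agent.Helper1.PK

/-- Reversing the strands of a spin state. -/
def revSpin (n : ℕ) : Spin n ≃ Spin n where
  toFun σ := fun j => σ j.rev
  invFun σ := fun j => σ j.rev
  left_inv σ := by funext j; simp
  right_inv σ := by funext j; simp

theorem at_rev {n : ℕ} (a : Fin n) (j : Fin (n + 1)) : At a.rev j ↔ At a j.rev := by
  unfold At
  rw [← Fin.rev_succ, ← Fin.rev_castSucc]
  constructor
  · rintro (h | h)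
    · right
      rw [h, Fin.rev_rev]
    · left
      rw [h, Fin.rev_rev]
  · rintro (h | h)
    · right
      rw [← h, Fin.rev_rev]
    · left
      rw [← h, Fin.rev_rev]

section

variable {B : Type} [CommRing B]

theorem turnM_rev (A : Bˣ) {n : ℕ} (a : Fin n) (σ τ : Spin n) :
    turnM A a (revSpin n σ) (revSpin n τ) = turnM A⁻¹ a.rev σ τ := by
  unfold turnM
  have e0 : ∀ (σ : Spin n) (j : Fin (n + 1)), revSpin n σ j = σ j.rev := fun _ _ => rfl
  simp only [e0, Fin.rev_succ, Fin.rev_castSucc]
  by_cases h : (∀ j, ¬ At a.rev j → τ j = σ j) ∧ σ a.rev.succ = -σ a.rev.castSucc ∧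
      τ a.rev.succ = -τ a.rev.castSucc
  · obtain ⟨h1, h2, h3⟩ := h
    rw [if_pos, if_pos ⟨h1, h2, h3⟩]
    · rw [h2, h3]
      congr 2
      · simp
      · rw [inv_zpow', Units.val_neg, Units.val_neg]
        congr 1
        ring
    · refine ⟨fun j hj => ?_, ?_, ?_⟩
      · apply h1
        rw [at_rev, Fin.rev_rev]
        exact hj
      · rw [h2]
        simp
      · rw [h3]
        simp
  · rw [if_neg h, if_neg]
    rintro ⟨h1, h2, h3⟩
    apply h
    refine ⟨fun j hj => ?_, ?_, ?_⟩
    · rw [at_rev] at hj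
      have := h1 j.rev hj
      rwa [Fin.rev_rev] at this
    · rw [h2]
      simp
    · rw [h3]
      simp

theorem twist_rev (z : Bˣ) (n : ℕ) :
    (twist z n).submatrix (revSpin n) (revSpin n) = twist z n := by
  unfold twist
  rw [Matrix.submatrix_diagonal_equiv]
  congr 1
  funext σ
  simp only [Function.comp]
  congr 2
  unfold spin
  exact Fintype.sum_equiv Fin.revPerm _ _ (fun j => rfl)

theorem prodM_rev (A : Bˣ) {n : ℕ} (u : List (Fin n)) :
    (prodM A u).submatrix (revSpin n) (revSpin n) = prodM A⁻¹ (u.map Fin.rev) := by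
  induction u with
  | nil =>
    simp only [prodM, List.map_nil, List.prod_nil]
    exact Matrix.submatrix_one_equiv _
  | cons a u ih =>
    have h1 : prodM A (a :: u) = turnM A a * prodM A u := by
      simp [prodM]
    have h2 : prodM A⁻¹ ((a :: u).map Fin.rev) = turnM A⁻¹ a.rev * prodM A⁻¹ (u.map Fin.rev) := by
      simp [prodM]
    rw [h1, h2, ← ih, ← Matrix.submatrix_mul_equiv _ _ _ (revSpin n) _]
    congr 1
    ext σ τ
    exact turnM_rev A a σ τ

theorem mirror : Stmt_Mirror := by
  intro B _ A z n u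
  rw [← prodM_rev, ← twist_rev z n, Matrix.submatrix_mul_equiv, twist_rev]
  unfold Matrix.trace
  refine (Fintype.sum_equiv (revSpin n) _ _ (fun σ => ?_)).symm
  rfl

end

end Pool.Agent.Per
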