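import Pool.Agent.Per.Defs

/-!
# The statements of the modules
-/

namespace Pool.Agent.Per

open LaurentPolynomial Pool.Agent.Helper1.PK

/-- The relations of the Temperley-Lieb algebra. -/
def Stmt_TL : Prop := ∀ (B : Type) [CommRing B] (A : Bˣ) (n : ℕ),
  (∀ a : Fin n, turnM A a * turnM A a = loopv A • turnM A a) ∧
  (∀ a b : Fin n, (a : ℕ) + 1 < b → turnM A a * turnM A b = turnM A b * turnM A a) ∧
  (∀ a b : Fin n, (b : ℕ) = a + 1 → turnM A a * turnM A b * turnM A a = turnM A a) ∧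
  (∀ a b : Fin n, (b : ℕ) = a + 1 → turnM A b * turnM A a * turnM A b = turnM A b)

/-- The trace over the last strand. -/
def Stmt_Markov : Prop := ∀ (B : Type) [CommRing B] (A z : Bˣ) (n : ℕ),
  (∀ u : List (Fin n), Matrix.trace (twist z (n + 1) * prodM A (u.map Fin.castSucc)) =
    ((z : B) + ((z⁻¹ : Bˣ) : B)) * Matrix.trace (twist z n * prodM A u)) ∧
  (z = -A ^ 2 → ∀ u v : List (Fin n),
    Matrix.trace (twist z (n + 1) *
      (prodM A (u.map Fin.castSucc) * turnM A (Fin.last n) * prodM A (v.map Fin.castSucc))) =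
    Matrix.trace (twist z n * prodM A (v ++ u)))

/-- Reversing the order of the strands replaces `A` by its inverse. -/
def Stmt_Mirror : Prop := ∀ (B : Type) [CommRing B] (A z : Bˣ) (n : ℕ) (u : List (Fin n)),
  Matrix.trace (twist z n * prodM A u) = Matrix.trace (twist z n * prodM A⁻¹ (u.map Fin.rev))

/-- The two plane closures of a word of turnbacks are powers of the loop value. -/
def Stmt_Plane : Prop := ∀ (B : Type) [CommRing B] (A : Bˣ) (n : ℕ) (u : List (Fin n)),
  (∃ k : ℕ, Matrix.trace (twist (-A ^ 2) n * prodM A u) = loopv A ^ k) ∧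
  (∃ k : ℕ, Matrix.trace (twist (-(A⁻¹) ^ 2) n * prodM A u) = loopv A ^ k)

/-- A cyclic sum is a trace. -/
def Stmt_Cyc : Prop := ∀ (B : Type) [CommRing B] (S : Type) [Fintype S] [DecidableEq S] (N : ℕ)
  [NeZero N] (M : ZMod N → Matrix S S B) (f : S → B),
  ∑ o : ZMod N → S, f (o 0) * ∏ t, M t (o t) (o (t + 1)) =
    Matrix.trace (Matrix.diagonal f * ((List.range N).map fun i => M (i : ZMod N)).prod)

/-- The vertex model of a state is a product over the curves. -/
def Stmt_Product : Prop := ∀ (B : Type) [CommRing B] (A z : Bˣ) (N n : ℕ) [NeZero N]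
  (w : ZMod N → Letter n) (c : ZMod N → Join), (∀ t, c t ≠ .swap) →
  ∑ o : ZMod N → Spin n, ((z ^ spin (o 0) : Bˣ) : B) *
    ∏ t, stepM A (w t).place (c t) (o t) (o (t + 1)) =
  (-1) ^ (Finset.univ.filter fun t => c t = .turn).card *
    ∏ q : Quot (Joined w c), (((z ^ wind q * A ^ rot q : Bˣ) : B) +
      (((-1) ^ rot q * z ^ (-wind q) * A ^ (-rot q) : Bˣ) : B))

/-- The rotation numbers of the curves of a state. -/
def Stmt_Rot : Prop := ∀ (N n : ℕ) [NeZero N] (w : ZMod N → Letter n) (c : ZMod N → Join),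
  (∀ t, c t ≠ .swap) → ∀ q : Quot (Joined w c),
    (wind q = 0 → rot q = 2 ∨ rot q = -2) ∧ (wind q ≠ 0 → rot q = 0)

/-- The vertex model of a state counts its curves. -/
def Stmt_State : Prop := ∀ (B : Type) [CommRing B] (A z : Bˣ) (N n : ℕ) [NeZero N]
  (w : ZMod N → Letter n) (c : ZMod N → Join), (∀ t, c t ≠ .swap) →
  ∑ o : ZMod N → Spin n, ((z ^ spin (o 0) : Bˣ) : B) *
    ∏ t, stepM A (w t).place (c t) (o t) (o (t + 1)) =
  loopv A ^ ines w c * ((z : B) + ((z⁻¹ : Bˣ) : B)) ^ ess w c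

/-- Functions `t ^ j x ^ m` with different logarithmic derivatives of the `x` are linearly
independent over the constants, for all but few `m`. -/
def Stmt_Wronski : Prop := ∀ (K : Type) [Field K] [CharZero K] [Differential K] (t : K),
  Differential.deriv t = 1 → ∀ (s d : ℕ) (x : Fin s → K), (∀ a, x a ≠ 0) →
  Function.Injective (fun a => Differential.logDeriv (x a)) →
  ∃ E : Finset ℕ, E.card ≤ (s * d) ^ 2 ∧ ∀ m : ℕ, 1 ≤ m → m ∉ E →
    ∀ γ : Fin s → Fin d → K, (∀ a j, Differential.deriv (γ a j) = 0) →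
      ∑ a, ∑ j, γ a j * t ^ (j : ℕ) * x a ^ m = 0 → ∀ a j, γ a j = 0

open Classical in
/-- The same for sums of powers in which some logarithmic derivatives may agree. -/
def Stmt_Group : Prop := ∀ (K : Type) [Field K] [CharZero K] [Differential K] (t : K),
  Differential.deriv t = 1 → ∀ (ι : Type) [Fintype ι] (s d : ℕ) (x c : ι → K) (e : ι → Fin d),
  (∀ i, x i ≠ 0) → (∀ i, Differential.deriv (c i) = 0) →
  (Finset.univ.image fun i => Differential.logDeriv (x i)).card ≤ s →
  ∃ E : Finset ℕ, E.card ≤ (s * d) ^ 2 ∧ ∀ m : ℕ, 1 ≤ m → m ∉ E →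
    ∑ i, c i * t ^ (e i : ℕ) * x i ^ m = 0 →
      ∀ j : Fin d, ∑ i ∈ Finset.univ.filter (fun i => e i = j), c i * x i ^ m = 0

/-- A differential field which contains the Laurent polynomials and splits a given monic
polynomial. -/
def Stmt_Field : Prop := ∀ P : Polynomial ℤ[T;T⁻¹], P.Monic →
  ∃ (K : Type) (_ : Field K) (_ : CharZero K) (_ : Differential K) (φ : ℤ[T;T⁻¹] →+* K),
    Function.Injective φ ∧ Differential.deriv (φ (T 4)) = 1 ∧ (P.map φ).Splits

/-- The traces of the powers of a matrix with split characteristic polynomial. -/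
def Stmt_Eigen : Prop := ∀ (K : Type) [Field K] (S : Type) [Fintype S] [DecidableEq S]
  (M : Matrix S S K), M.charpoly.Splits →
    ∃ l : S → K, ∀ m : ℕ, Matrix.trace (M ^ m) = ∑ s, l s ^ m

/-- The first main theorem. -/
def Stmt_Count : Prop := ∀ (q n : ℕ) [NeZero q] (w : ZMod q → Letter n),
  ∃ E : Finset ℕ, E.card ≤ 16 ^ (n + 2) ∧ ∀ (m : ℕ) [NeZero (m * q)], m ∉ E →
    ∀ o : Pt (m * q) n → ℤˣ, IsKnot (power m w) → IsOrientation (power m w) o →
      (normalized (power m w) o = 1 ↔ annular (power m w) = core (power m w) o)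

/-- The second main theorem. -/
def Stmt_Modp : Prop := ∀ (q n p k r : ℕ) [NeZero q] [NeZero (r * q)] (w : ZMod q → Letter n),
  p.Prime → 1 ≤ k → r = p ^ k → ∀ (o : Pt (r * q) n → ℤˣ) (o' : Pt q n → ℤˣ),
  IsKnot (power r w) → IsOrientation (power r w) o → IsOrientation w o' →
  ((p : ℤ[T;T⁻¹]) ∣ normalized (power r w) o - 1 ↔
    ∃ X Y : Polynomial ℤ[T;T⁻¹], annular w - core w o' =
      (Polynomial.C (T 8) - Polynomial.C (T 4) * Polynomial.Chebyshev.C ℤ[T;T⁻¹] (2 * r) + 1) * X +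
        (p : Polynomial ℤ[T;T⁻¹]) * Y) ∧
  (n + 1 < 2 * r → ((p : ℤ[T;T⁻¹]) ∣ normalized (power r w) o - 1 ↔
    (p : Polynomial ℤ[T;T⁻¹]) ∣ annular w - core w o'))

end Pool.Agent.Per
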