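import Mathlib
import Pool.Agent.Per.Stmts

/-!
# Plane closures of words of turnbacks
-/

set_option autoImplicit false

namespace Pool.Agent.Per

open Pool.Agent.Helper1.PK

/-- `PlRed n u k v`: the word `u` reduces to `k` loops and the word `v`. -/
inductive PlRed (n : ℕ) : List (Fin n) → ℕ → List (Fin n) → Prop
  | refl (u : List (Fin n)) : PlRed n u 0 u
  | trans {u v w : List (Fin n)} {k l : ℕ} : PlRed n u k v → PlRed n v l w → PlRed n u (k + l) w
  | ctx {u v : List (Fin n)} {k : ℕ} (x y : List (Fin n)) : PlRed n u k v →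
      PlRed n (x ++ (u ++ y)) k (x ++ (v ++ y))
  | sq (a : Fin n) : PlRed n [a, a] 1 [a]
  | comm (a b : Fin n) (h : (a : ℕ) + 1 < b) : PlRed n [b, a] 0 [a, b]
  | comm' (a b : Fin n) (h : (a : ℕ) + 1 < b) : PlRed n [a, b] 0 [b, a]
  | up (a b : Fin n) (h : (b : ℕ) = a + 1) : PlRed n [b, a, b] 0 [b]

variable {n : ℕ}

lemma PlRed.lift {u v : List (Fin n)} {k : ℕ} (h : PlRed n u k v) :
    PlRed (n + 1) (u.map Fin.castSucc) k (v.map Fin.castSucc) := by
  induction h with
  | refl u => exact .refl _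
  | trans _ _ h1 h2 => exact .trans h1 h2
  | ctx x y _ h =>
    simp only [List.map_append]
    exact PlRed.ctx (x.map Fin.castSucc) (y.map Fin.castSucc) h
  | sq a => exact .sq _
  | comm a b h => exact .comm _ _ h
  | comm' a b h => exact .comm' _ _ h
  | up a b h => exact .up _ _ h

lemma prodM_append {B : Type} [CommRing B] (A : Bˣ) (u v : List (Fin n)) :
    prodM A (u ++ v) = prodM A u * prodM A v := by
  simp [prodM, List.map_append, List.prod_append]

lemma prodM_cons {B : Type} [CommRing B] (A : Bˣ) (a : Fin n) (v : List (Fin n)) :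
    prodM A (a :: v) = turnM A a * prodM A v := by
  simp [prodM]

lemma prodM_nil {B : Type} [CommRing B] (A : Bˣ) :
    prodM A ([] : List (Fin n)) = 1 := by
  simp [prodM]

lemma PlRed.sound (h1 : Stmt_TL) {u v : List (Fin n)} {k : ℕ} (h : PlRed n u k v)
    {B : Type} [CommRing B] (A : Bˣ) : prodM A u = loopv A ^ k • prodM A v := by
  induction h with
  | refl u => simp
  | trans _ _ h1 h2 => rw [h1, h2, smul_smul, pow_add]
  | ctx x y _ h =>
    simp only [prodM_append, h, Matrix.smul_mul, Matrix.mul_smul]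
  | sq a =>
    simp only [prodM_cons, prodM_nil, mul_one, pow_one]
    exact (h1 B A n).1 a
  | comm a b h =>
    simp only [prodM_cons, prodM_nil, mul_one, pow_zero, one_smul]
    exact ((h1 B A n).2.1 a b h).symm
  | comm' a b h =>
    simp only [prodM_cons, prodM_nil, mul_one, pow_zero, one_smul]
    exact (h1 B A n).2.1 a b h
  | up a b h =>
    simp only [prodM_cons, prodM_nil, mul_one, pow_zero, one_smul]
    rw [← mul_assoc]
    exact (h1 B A n).2.2.2 a b h

/-- a letter far from all the letters of a word -/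
lemma pl_comm_word (b : Fin n) (x : List (Fin n)) (hx : ∀ a ∈ x, (a : ℕ) + 1 < b)
    (y : List (Fin n)) : PlRed n (b :: (x ++ y)) 0 (x ++ b :: y) := by
  induction x with
  | nil => exact .refl _
  | cons a x ih =>
    have h1 : PlRed n (b :: a :: (x ++ y)) 0 (a :: b :: (x ++ y)) :=
      PlRed.ctx [] (x ++ y) (PlRed.comm a b (hx a (List.mem_cons_self ..)))
    have h2 : PlRed n (a :: b :: (x ++ y)) 0 (a :: (x ++ b :: y)) := by
      have h3 := PlRed.ctx [a] [] (ih fun c hc => hx c (List.mem_cons_of_mem _ hc))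
      simpa using h3
    exact h1.trans h2

lemma pl_comm_word' (b : Fin n) (x : List (Fin n)) (hx : ∀ a ∈ x, (a : ℕ) + 1 < b)
    (y : List (Fin n)) : PlRed n (x ++ b :: y) 0 (b :: (x ++ y)) := by
  induction x with
  | nil => exact .refl _
  | cons a x ih =>
    have h1 : PlRed n (a :: b :: (x ++ y)) 0 (b :: a :: (x ++ y)) :=
      PlRed.ctx [] (x ++ y) (PlRed.comm' a b (hx a (List.mem_cons_self ..)))
    have h2 : PlRed n (a :: (x ++ b :: y)) 0 (a :: b :: (x ++ y)) := by
      have h3 := PlRed.ctx [a] [] (ih fun c hc => hx c (List.mem_cons_of_mem _ hc))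
      simpa using h3
    exact h2.trans h1

lemma pl_far (x : List (Fin n)) : ∀ a ∈ (x.map Fin.castSucc).map Fin.castSucc,
    (a : ℕ) + 1 < Fin.last (n + 1) := by
  intro a ha
  simp only [List.map_map, List.mem_map, Function.comp_apply] at ha
  obtain ⟨b, _, rfl⟩ := ha
  simp only [Fin.val_castSucc, Fin.val_last]
  omega

/-- the reduction of words -/
lemma pl_reduce : ∀ (n : ℕ) (u : List (Fin (n + 1))), ∃ k : ℕ,
    (∃ v : List (Fin n), PlRed (n + 1) u k (v.map Fin.castSucc)) ∨
    ∃ x y : List (Fin n), PlRed (n + 1) u k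
      (x.map Fin.castSucc ++ Fin.last n :: y.map Fin.castSucc) := by
  intro n
  induction n with
  | zero =>
    intro u
    induction u with
    | nil => exact ⟨0, Or.inl ⟨[], .refl _⟩⟩
    | cons b u ih =>
      have hb : b = Fin.last 0 := Fin.ext (by have := b.2; simp)
      obtain ⟨k, ⟨v, hv⟩ | ⟨x, y, hxy⟩⟩ := ih
      · refine ⟨k, Or.inr ⟨[], v, ?_⟩⟩
        have h1 := PlRed.ctx [b] [] hv
        simpa [hb] using h1
      · have hx : x = [] := by
          cases x with
          | nil => rfl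
          | cons a _ => exact a.elim0
        subst hx
        refine ⟨k + 1, Or.inr ⟨[], y, ?_⟩⟩
        have h1 := PlRed.ctx [b] [] hxy
        have h2 := PlRed.ctx [] (y.map Fin.castSucc) (PlRed.sq (Fin.last 0))
        have h3 : PlRed (0 + 1) (b :: u) k (b :: Fin.last 0 :: y.map Fin.castSucc) := by
          simpa using h1
        rw [hb] at h3 ⊢
        exact h3.trans (by simpa using h2)
  | succ n ihn =>
    intro u
    induction u with
    | nil => exact ⟨0, Or.inl ⟨[], .refl _⟩⟩
    | cons b u ih =>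
      obtain ⟨k, ⟨v, hv⟩ | ⟨x, y, hxy⟩⟩ := ih
      · have h1 : PlRed (n + 1 + 1) (b :: u) k (b :: v.map Fin.castSucc) := by
          simpa using PlRed.ctx [b] [] hv
        induction b using Fin.lastCases with
        | last => exact ⟨k, Or.inr ⟨[], v, h1⟩⟩
        | cast b => exact ⟨k, Or.inl ⟨b :: v, h1⟩⟩
      · have h1 : PlRed (n + 1 + 1) (b :: u) k
            (b :: (x.map Fin.castSucc ++ Fin.last (n + 1) :: y.map Fin.castSucc)) := by
          simpa using PlRed.ctx [b] [] hxy
        induction b using Fin.lastCases with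
        | cast b => exact ⟨k, Or.inr ⟨b :: x, y, h1⟩⟩
        | last =>
          obtain ⟨l, ⟨v, hv⟩ | ⟨x1, x2, hx⟩⟩ := ihn x
          · refine ⟨k + (l + (0 + 1)), Or.inr ⟨v.map Fin.castSucc, y, ?_⟩⟩
            refine h1.trans ?_
            have h2 : PlRed (n + 1 + 1) (Fin.last (n + 1) :: (x.map Fin.castSucc ++
                Fin.last (n + 1) :: y.map Fin.castSucc)) l (Fin.last (n + 1) ::
                ((v.map Fin.castSucc).map Fin.castSucc ++
                Fin.last (n + 1) :: y.map Fin.castSucc)) := PlRed.ctx [Fin.last (n + 1)]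
              (Fin.last (n + 1) :: y.map Fin.castSucc) hv.lift
            refine h2.trans ?_
            have h3 := pl_comm_word (Fin.last (n + 1)) ((v.map Fin.castSucc).map Fin.castSucc)
              (pl_far v) (Fin.last (n + 1) :: y.map Fin.castSucc)
            refine h3.trans ?_
            exact PlRed.ctx ((v.map Fin.castSucc).map Fin.castSucc) (y.map Fin.castSucc)
              (PlRed.sq (Fin.last (n + 1)))
          · refine ⟨k + (l + (0 + (0 + 0))), Or.inr ⟨x1.map Fin.castSucc,
              x2.map Fin.castSucc ++ y, ?_⟩⟩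
            refine h1.trans ?_
            have h2 : PlRed (n + 1 + 1) (Fin.last (n + 1) :: (x.map Fin.castSucc ++
                Fin.last (n + 1) :: y.map Fin.castSucc)) l (Fin.last (n + 1) ::
                ((x1.map Fin.castSucc ++ Fin.last n :: x2.map Fin.castSucc).map Fin.castSucc ++
                Fin.last (n + 1) :: y.map Fin.castSucc)) := PlRed.ctx [Fin.last (n + 1)]
              (Fin.last (n + 1) :: y.map Fin.castSucc) hx.lift
            refine h2.trans ?_
            simp only [List.map_append, List.map_cons, List.append_assoc, List.cons_append]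
            set X1 := (x1.map Fin.castSucc).map Fin.castSucc with hX1
            set X2 := (x2.map Fin.castSucc).map Fin.castSucc with hX2
            set Y := y.map Fin.castSucc with hY
            have h3 : PlRed (n + 1 + 1) (Fin.last (n + 1) :: (X1 ++ (Fin.last n).castSucc ::
                (X2 ++ Fin.last (n + 1) :: Y))) 0
                (X1 ++ Fin.last (n + 1) :: (Fin.last n).castSucc ::
                (X2 ++ Fin.last (n + 1) :: Y)) := pl_comm_word _ X1 (pl_far x1) _
            have h4 : PlRed (n + 1 + 1) (X1 ++ Fin.last (n + 1) :: (Fin.last n).castSucc ::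
                (X2 ++ Fin.last (n + 1) :: Y)) 0
                (X1 ++ Fin.last (n + 1) :: (Fin.last n).castSucc ::
                (Fin.last (n + 1) :: (X2 ++ Y))) := by
              have h5 := PlRed.ctx (X1 ++ [Fin.last (n + 1), (Fin.last n).castSucc]) []
                (pl_comm_word' (Fin.last (n + 1)) X2 (pl_far x2) Y)
              simpa only [List.append_assoc, List.cons_append, List.nil_append, List.append_nil]
                using h5
            have h6 : PlRed (n + 1 + 1) (X1 ++ Fin.last (n + 1) :: (Fin.last n).castSucc ::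
                (Fin.last (n + 1) :: (X2 ++ Y))) 0 (X1 ++ Fin.last (n + 1) :: (X2 ++ Y)) :=
              PlRed.ctx X1 (X2 ++ Y) (PlRed.up (Fin.last n).castSucc (Fin.last (n + 1)) (by simp))
            exact h3.trans (h4.trans h6)

lemma pl_trace_zero {B : Type} [CommRing B] (A : Bˣ) (u : List (Fin 0)) :
    Matrix.trace (twist (-A ^ 2) 0 * prodM A u) = loopv A ^ 1 := by
  have hu : u = [] := by
    cases u with
    | nil => rfl
    | cons a _ => exact a.elim0
  subst hu
  rw [prodM_nil, mul_one, pow_one]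
  unfold twist
  rw [Matrix.trace_diagonal]
  have h1 : ∑ σ : Spin 0, (((-A ^ 2) ^ spin σ : Bˣ) : B)
      = ∑ s : ℤˣ, (((-A ^ 2) ^ (s : ℤ) : Bˣ) : B) := by
    refine Fintype.sum_equiv (Equiv.funUnique (Fin 1) ℤˣ) _ _ fun σ => ?_
    simp [spin]
  rw [h1]
  have h2 : (Finset.univ : Finset ℤˣ) = {1, -1} := rfl
  rw [h2, Finset.sum_pair (by decide)]
  simp only [Units.val_one, Units.val_neg, zpow_one, zpow_neg]
  have h3 : (((-A ^ 2)⁻¹ : Bˣ) : B) = -((A ^ (-2 : ℤ) : Bˣ) : B) := by
    rw [inv_neg, Units.val_neg]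
    congr 2
  rw [h3, loopv]
  have h4 : ((A ^ (2 : ℤ) : Bˣ) : B) = (A ^ 2 : Bˣ) := rfl
  rw [h4]
  ring

lemma pl_loopv {B : Type} [CommRing B] (A : Bˣ) :
    (((-A ^ 2 : Bˣ)) : B) + (((-A ^ 2)⁻¹ : Bˣ) : B) = loopv A := by
  have h3 : (((-A ^ 2)⁻¹ : Bˣ) : B) = -((A ^ (-2 : ℤ) : Bˣ) : B) := by
    rw [inv_neg, Units.val_neg]
    congr 2
  rw [h3, loopv, Units.val_neg]
  have h4 : ((A ^ (2 : ℤ) : Bˣ) : B) = (A ^ 2 : Bˣ) := rfl
  rw [h4]
  ring

lemma pl_loopv_inv {B : Type} [CommRing B] (A : Bˣ) : loopv A⁻¹ = loopv A := by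
  unfold loopv
  have h1 : ((A⁻¹) ^ (2 : ℤ) : Bˣ) = A ^ (-2 : ℤ) := by rw [inv_zpow, zpow_neg]
  have h2 : ((A⁻¹) ^ (-2 : ℤ) : Bˣ) = A ^ (2 : ℤ) := by rw [inv_zpow, zpow_neg, inv_inv]
  rw [h1, h2]
  ring

lemma pl_half (h1 : Stmt_TL) (h2 : Stmt_Markov) {B : Type} [CommRing B] (A : Bˣ) :
    ∀ (n : ℕ) (u : List (Fin n)), ∃ k : ℕ,
      Matrix.trace (twist (-A ^ 2) n * prodM A u) = loopv A ^ k := by
  intro n
  induction n with
  | zero => exact fun u => ⟨1, pl_trace_zero A u⟩
  | succ n ih =>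
    intro u
    obtain ⟨hM1, hM2⟩ := h2 B A (-A ^ 2) n
    obtain ⟨k, ⟨v, hv⟩ | ⟨x, y, hxy⟩⟩ := pl_reduce n u
    · obtain ⟨l, hl⟩ := ih v
      refine ⟨k + (1 + l), ?_⟩
      rw [hv.sound h1 A, Matrix.mul_smul, Matrix.trace_smul, hM1 v, hl, pl_loopv, smul_eq_mul,
        pow_add, pow_add, pow_one]
    · obtain ⟨l, hl⟩ := ih (y ++ x)
      refine ⟨k + l, ?_⟩
      rw [hxy.sound h1 A, Matrix.mul_smul, Matrix.trace_smul, prodM_append, prodM_cons,
        ← mul_assoc (prodM A (x.map Fin.castSucc)), hM2 rfl x y, hl, smul_eq_mul, pow_add]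

theorem plane (h1 : Stmt_TL) (h2 : Stmt_Markov) (h3 : Stmt_Mirror) : Stmt_Plane := by
  intro B _ A n u
  refine ⟨pl_half h1 h2 A n u, ?_⟩
  obtain ⟨k, hk⟩ := pl_half h1 h2 A⁻¹ n (u.map Fin.rev)
  refine ⟨k, ?_⟩
  rw [h3 B A (-(A⁻¹) ^ 2) n u, hk, pl_loopv_inv]

end Pool.Agent.Per
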