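import Pool.Agent.Per.Stmts

/-!
# The vertex model of a state
-/

namespace Pool.Agent.Per

open Pool.Agent.Helper1.PK

variable {N n : ℕ}

/-- The spins of a colouring of the points. -/
def toO (F : Pt N n → ℤˣ) : ZMod N → Spin n := fun t j => F (t, j) * alt (t, j)

section

variable {B : Type} [CommRing B]

/-- Signs as units of the ring. -/
def sgnU (B : Type) [CommRing B] : ℤˣ →* Bˣ := Units.map (Int.castRingHom B).toMonoidHom

theorem sgnU_coe (s : ℤˣ) : ((sgnU B s : Bˣ) : B) = (((s : ℤˣ) : ℤ) : B) := rfl

theorem sgnU_neg_one : sgnU B (-1) = -1 := by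
  ext
  rw [sgnU_coe]
  simp

/-- The local value of a colouring. -/
def stepv (A : Bˣ) (a : Fin n) (k : Join) (F : Pt N n → ℤˣ) (t : ZMod N) : Bˣ :=
  if k = .turn then
    sgnU B (F (t, a.castSucc) * F (t + 1, a.castSucc)) *
      A ^ ((-1) ^ (a : ℕ) * ((F (t, a.castSucc) : ℤ) + (F (t + 1, a.castSucc) : ℤ)))
  else 1

open Classical in
theorem step_value (A : Bˣ) (a : Fin n) {k : Join} (hk : k ≠ .swap) (F : Pt N n → ℤˣ)
    (t : ZMod N) : stepM A a k (toO F t) (toO F (t + 1)) =
      if Resp a k F t then (if k = .turn then (-1 : B) else 1) * ((stepv A a k F t : Bˣ) : B)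
        else 0 := by
  have hr := resp_cmp (a := a) hk F t
  cases k with
  | straight =>
    simp only [stepM, stepv, Matrix.one_apply]
    rw [cmp_straight] at hr
    by_cases h : Resp a .straight F t
    · rw [if_pos h, if_pos]
      · simp
      · obtain ⟨h1, h2, h3⟩ := hr.mp h
        funext j
        by_cases hj : At a j
        · rcases hj with rfl | rfl
          · exact h2.symm
          · exact h3.symm
        · exact (h1 j hj).symm
    · rw [if_neg h, if_neg]
      intro h'
      apply h
      rw [hr]
      exact ⟨fun j _ => (congrFun h' j).symm, (congrFun h' _).symm, (congrFun h' _).symm⟩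
  | swap => exact absurd rfl hk
  | turn =>
    simp only [stepM, turnM, stepv]
    rw [cmp_turn] at hr
    by_cases h : Resp a .turn F t
    · rw [if_pos h, if_pos]
      · simp only [if_true, toO, alt]
        have e1 : -(F (t, a.castSucc) * (-1) ^ ((a.castSucc : Fin (n + 1)) : ℕ) *
            (F (t + 1, a.castSucc) * (-1) ^ ((a.castSucc : Fin (n + 1)) : ℕ))) =
            -1 * (F (t, a.castSucc) * F (t + 1, a.castSucc)) := by
          have : ((-1 : ℤˣ) ^ ((a.castSucc : Fin (n + 1)) : ℕ)) *
            ((-1) ^ ((a.castSucc : Fin (n + 1)) : ℕ)) = 1 := by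
            rw [← mul_pow]; simp
          rw [mul_mul_mul_comm, this]
          simp
        rw [e1]
        push_cast
        rw [sgnU_coe]
        push_cast
        have e2 : (F (t, a.castSucc) : ℤ) * (-1) ^ (a : ℕ) +
            (F (t + 1, a.castSucc) : ℤ) * (-1) ^ (a : ℕ) =
            (-1) ^ (a : ℕ) * ((F (t, a.castSucc) : ℤ) + (F (t + 1, a.castSucc) : ℤ)) := by ring
        simp only [Fin.val_castSucc]
        rw [e2]
        ring
      · exact hr.mp h
    · rw [if_neg h, if_neg]
      intro h'
      exact h (hr.mpr h')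

/-- Products over the curves of powers with the rotation number. -/
theorem prod_rot [NeZero N] {w : ZMod N → Letter n} {c : ZMod N → Join} {H : Type*} [CommGroup H]
    (g : Quot (Joined w c) → H) : ∏ q, g q ^ rot q =
      ∏ t, if c t = .turn then g (cls w c (t, (w t).place.castSucc)) ^ ((-1 : ℤ) ^ ((w t).place : ℕ)) *
        g (cls w c (t + 1, (w t).place.castSucc)) ^ ((-1 : ℤ) ^ ((w t).place : ℕ)) else 1 := by
  classical
  have h1 : ∀ q, g q ^ rot q = ∏ t, if c t = .turn then
      (if cls w c (t, (w t).place.castSucc) = q then g q ^ ((-1 : ℤ) ^ ((w t).place : ℕ)) else 1) *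
      (if cls w c (t + 1, (w t).place.castSucc) = q then g q ^ ((-1 : ℤ) ^ ((w t).place : ℕ)) else 1)
      else 1 := by
    intro q
    unfold rot
    rw [← prod_zpow_sum]
    refine Finset.prod_congr rfl fun t _ => ?_
    split_ifs <;> simp [zpow_add]
  rw [Finset.prod_congr rfl fun q _ => h1 q, Finset.prod_comm]
  refine Finset.prod_congr rfl fun t _ => ?_
  split_ifs with h
  · rw [Finset.prod_mul_distrib]
    simp
  · simp

theorem product : Stmt_Product := by
  intro B _ A z N n _ w c hc
  classical
  -- the right hand side as a sum over the colourings of the curves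
  have h1 : ∀ q : Quot (Joined w c), (((z ^ wind q * A ^ rot q : Bˣ) : B) +
      (((-1) ^ rot q * z ^ (-wind q) * A ^ (-rot q) : Bˣ) : B)) =
      ∑ s : ℤˣ, ((z ^ ((s : ℤ) * wind q) * (sgnU B s * A ^ (s : ℤ)) ^ rot q : Bˣ) : B) := by
    intro q
    have h : (Finset.univ : Finset ℤˣ) = {1, -1} := by decide
    rw [h, Finset.sum_pair (by decide)]
    congr 2
    · rw [map_one, one_mul]
      simp
    · rw [sgnU_neg_one, mul_zpow, ← zpow_mul]
      simp only [Units.val_neg, Units.val_one, neg_mul, one_mul]
      rw [mul_comm ((-1 : Bˣ) ^ rot q) (z ^ (-wind q)), mul_assoc]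
  rw [Finset.prod_congr rfl fun q _ => h1 q, prod_sum_swap]
  have h2 : ∀ f : Quot (Joined w c) → ℤˣ,
      ∏ q, ((z ^ ((f q : ℤ) * wind q) * (sgnU B (f q) * A ^ (f q : ℤ)) ^ rot q : Bˣ) : B) =
      ((z ^ spin (toO (fun x => f (cls w c x)) 0) *
        ∏ t, stepv A (w t).place (c t) (fun x => f (cls w c x)) t : Bˣ) : B) := by
    intro f
    rw [← Units.coe_prod]
    congr 1
    rw [Finset.prod_mul_distrib]
    congr 1
    · rw [prod_zpow_sum]
      congr 1
      unfold spin toO
      have h6 : ∀ j : Fin (n + 1), ((f (cls w c (0, j)) * alt ((0 : ZMod N), j) : ℤˣ) : ℤ) =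
          ∑ q : Quot (Joined w c), (f q : ℤ) * tm q 0 j := by
        intro j
        unfold tm alt
        simp
      rw [Finset.sum_congr rfl fun j _ => h6 j, Finset.sum_comm]
      refine Finset.sum_congr rfl fun q _ => ?_
      rw [wind, Finset.mul_sum]
    · rw [prod_rot (fun q => sgnU B (f q) * A ^ (f q : ℤ))]
      refine Finset.prod_congr rfl fun t _ => ?_
      unfold stepv
      split_ifs with h
      · have key : ∀ s : ℤˣ, (sgnU B s * A ^ (s : ℤ)) ^ ((-1 : ℤ) ^ ((w t).place : ℕ)) =
            sgnU B s * A ^ ((-1 : ℤ) ^ ((w t).place : ℕ) * (s : ℤ)) := by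
          intro s
          rw [mul_zpow, ← zpow_mul, mul_comm (s : ℤ)]
          congr 1
          rcases neg_one_pow_eq_or ℤ ((w t).place : ℕ) with h3 | h3
          · rw [h3, zpow_one]
          · rw [h3, zpow_neg_one, ← map_inv]
            congr 1
            rcases unit_cases s with h4 | h4 <;> rw [h4] <;> simp
        rw [key, key, map_mul, mul_add, zpow_add]
        exact mul_mul_mul_comm _ _ _ _
      · rfl
  rw [Finset.sum_congr rfl fun f _ => h2 f]
  -- the left hand side as a sum over colourings of the points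
  have h3 : ∑ o : ZMod N → Spin n, ((z ^ spin (o 0) : Bˣ) : B) *
      ∏ t, stepM A (w t).place (c t) (o t) (o (t + 1)) =
      ∑ F : Pt N n → ℤˣ, ((z ^ spin (toO F 0) : Bˣ) : B) *
        ∏ t, stepM A (w t).place (c t) (toO F t) (toO F (t + 1)) := by
    symm
    refine Finset.sum_bij' (fun F _ => toO F) (fun o _ => fun x => o x.1 x.2 * alt x)
      (fun _ _ => Finset.mem_univ _) (fun _ _ => Finset.mem_univ _) ?_ ?_ ?_
    · intro F _
      funext x
      simp [toO, mul_assoc]
    · intro o _
      funext t j
      simp [toO, mul_assoc]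
    · intro F _
      rfl
  rw [h3]
  have h4 : ∀ F : Pt N n → ℤˣ, ((z ^ spin (toO F 0) : Bˣ) : B) *
        ∏ t, stepM A (w t).place (c t) (toO F t) (toO F (t + 1)) =
      (-1) ^ (Finset.univ.filter fun t => c t = .turn).card *
        (if ∀ t, Resp (w t).place (c t) F t then
          ((z ^ spin (toO F 0) * ∏ t, stepv A (w t).place (c t) F t : Bˣ) : B) else 0) := by
    intro F
    rw [Finset.prod_congr rfl fun t _ => step_value A (w t).place (hc t) F t]
    by_cases hr : ∀ t, Resp (w t).place (c t) F t
    · rw [if_pos hr, Finset.prod_congr rfl fun t _ => if_pos (hr t), Finset.prod_mul_distrib]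
      have h5 : ∏ t, (if c t = .turn then (-1 : B) else 1) =
          (-1) ^ (Finset.univ.filter fun t => c t = .turn).card := by
        rw [← Finset.prod_const, Finset.prod_filter]
      rw [h5]
      push_cast
      ring
    · rw [if_neg hr]
      push Not at hr
      obtain ⟨t, ht⟩ := hr
      rw [Finset.prod_eq_zero (Finset.mem_univ t) (if_neg ht)]
      simp
  rw [Finset.sum_congr rfl fun F _ => h4 F, ← Finset.mul_sum]
  congr 1
  rw [← Finset.sum_filter]
  symm
  refine Finset.sum_bij (fun f _ => fun x => f (cls w c x)) ?_ ?_ ?_ ?_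
  · intro f _
    rw [Finset.mem_filter]
    refine ⟨Finset.mem_univ _, (resp_iff w c _).mp ?_⟩
    intro x z h
    exact congrArg f (Quot.sound h)
  · intro f _ g _ h
    funext q
    obtain ⟨x, rfl⟩ := Quot.exists_rep q
    exact congrFun h x
  · intro F hF
    have hF' := (resp_iff w c F).mpr (Finset.mem_filter.mp hF).2
    exact ⟨Quot.lift F hF', Finset.mem_univ _, rfl⟩
  · intro f _
    rfl

end

end Pool.Agent.Per
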