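import Pool.Agent.Per.Stmts

/-!
# The rotation numbers of the curves of a state
-/

namespace Pool.Agent.Per

open LaurentPolynomial Pool.Agent.Helper1.PK

variable {N n : ℕ}

/-- Dropping the straight letters. -/
theorem rot_word {B : Type*} [CommRing B] (A : Bˣ) (w : ZMod N → Letter n) (c : ZMod N → Join)
    (hc : ∀ t, c t ≠ .swap) (L : List (ZMod N)) : ∃ u : List (Fin n),
      (L.map fun t => stepM A (w t).place (c t)).prod = prodM A u := by
  induction L with
  | nil => exact ⟨[], by simp [prodM]⟩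
  | cons t L ih =>
    obtain ⟨u, hu⟩ := ih
    rcases h : c t with _ | _ | _
    · refine ⟨u, ?_⟩
      rw [List.map_cons, List.prod_cons, hu, h]
      simp [stepM]
    · exact absurd h (hc t)
    · refine ⟨(w t).place :: u, ?_⟩
      rw [List.map_cons, List.prod_cons, hu, h]
      simp [stepM, prodM]

/-- At the two special values of `z` the product over the curves is a power of the loop value. -/
theorem rot_pow (h1 : Stmt_Plane) (h2 : Stmt_Cyc) (h3 : Stmt_Product) (B : Type) [CommRing B]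
    (A z : Bˣ) (hz : z = -A ^ 2 ∨ z = -(A⁻¹) ^ 2) [NeZero N] (w : ZMod N → Letter n)
    (c : ZMod N → Join) (hc : ∀ t, c t ≠ .swap) : ∃ k : ℕ, loopv A ^ k =
      (-1) ^ (Finset.univ.filter fun t => c t = .turn).card *
        ∏ q : Quot (Joined w c), (((z ^ wind q * A ^ rot q : Bˣ) : B) +
          (((-1) ^ rot q * z ^ (-wind q) * A ^ (-rot q) : Bˣ) : B)) := by
  classical
  rw [← h3 B A z N n w c hc]
  have e1 := h2 B (Spin n) N (fun t => stepM A (w t).place (c t))
    (fun σ => ((z ^ spin σ : Bˣ) : B))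
  rw [e1]
  obtain ⟨u, hu⟩ := rot_word A w c hc (do let a ← List.range N; pure (a : ZMod N))
  rw [hu]
  change ∃ k : ℕ, loopv A ^ k = Matrix.trace (twist z n * prodM A u)
  obtain ⟨⟨k, hk⟩, ⟨k', hk'⟩⟩ := h1 B A n u
  rcases hz with hz | hz
  · exact ⟨k, by rw [hz, hk]⟩
  · exact ⟨k', by rw [hz, hk']⟩

/-- The factor of a curve at the two special values. -/
theorem rot_fac {B : Type*} [CommRing B] (A : Bˣ) (e v r : ℤ) :
    ((((-A ^ (2 * e)) ^ v * A ^ r : Bˣ) : B) +
      (((-1) ^ r * (-A ^ (2 * e)) ^ (-v) * A ^ (-r) : Bˣ) : B)) =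
      (((-1) ^ v : Bˣ) : B) * (((A ^ (r + 2 * e * v) : Bˣ) : B) +
        (((-1) ^ r * A ^ (-(r + 2 * e * v)) : Bˣ) : B)) := by
  have hm : ∀ k : ℤ, (-A ^ (2 * e)) ^ k = (-1) ^ k * A ^ (2 * e * k) := by
    intro k
    rw [← neg_one_mul, mul_zpow, ← zpow_mul]
  have hs : ((-1 : Bˣ)) ^ (-v) = (-1) ^ v := by
    rw [zpow_neg, ← inv_zpow, inv_neg, inv_one]
  rw [hm, hm, hs, mul_add, ← Units.val_mul, ← Units.val_mul]
  congr 2
  · rw [zpow_add]
    simp only [mul_comm, mul_left_comm, mul_assoc]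
  · rw [show -(r + 2 * e * v) = 2 * e * (-v) + -r by ring, zpow_add]
    simp only [mul_comm, mul_left_comm, mul_assoc]

/-- A zero of the factor of a curve is a zero of the loop value. -/
theorem rot_zero (h1 : Stmt_Plane) (h2 : Stmt_Cyc) (h3 : Stmt_Product) [NeZero N]
    (w : ZMod N → Letter n) (c : ZMod N → Join) (hc : ∀ t, c t ≠ .swap) (q : Quot (Joined w c))
    (e : ℤ) (he : e = 1 ∨ e = -1) (B : Type) [CommRing B] [IsDomain B] (A : Bˣ)
    (h0 : ((A ^ (rot q + 2 * e * wind q) : Bˣ) : B) +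
      (((-1) ^ rot q * A ^ (-(rot q + 2 * e * wind q)) : Bˣ) : B) = 0) : loopv A = 0 := by
  have hz : (-A ^ (2 * e)) = -A ^ 2 ∨ (-A ^ (2 * e)) = -(A⁻¹) ^ 2 := by
    rcases he with h | h
    · left
      rw [h]
      rfl
    · right
      rw [h]
      congr 1
  obtain ⟨k, hk⟩ := rot_pow h1 h2 h3 B A (-A ^ (2 * e)) hz w c hc
  have e1 : (∏ q : Quot (Joined w c), ((((-A ^ (2 * e)) ^ wind q * A ^ rot q : Bˣ) : B) +
      (((-1) ^ rot q * (-A ^ (2 * e)) ^ (-wind q) * A ^ (-rot q) : Bˣ) : B))) = 0 := by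
    refine Finset.prod_eq_zero (Finset.mem_univ q) ?_
    rw [rot_fac, h0, mul_zero]
  rw [e1, mul_zero] at hk
  exact eq_zero_of_pow_eq_zero hk

theorem rot_even (h1 : Stmt_Plane) (h2 : Stmt_Cyc) (h3 : Stmt_Product) [NeZero N]
    (w : ZMod N → Letter n) (c : ZMod N → Join) (hc : ∀ t, c t ≠ .swap)
    (q : Quot (Joined w c)) : Even (rot q) := by
  by_contra hodd
  rw [Int.not_even_iff_odd] at hodd
  have h4 := rot_zero h1 h2 h3 w c hc q 1 (Or.inl rfl) ℚ 1 (by
    rw [hodd.neg_one_zpow]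
    simp)
  unfold loopv at h4
  norm_num at h4

theorem rot_main (h1 : Stmt_Plane) (h2 : Stmt_Cyc) (h3 : Stmt_Product) [NeZero N]
    (w : ZMod N → Letter n) (c : ZMod N → Join) (hc : ∀ t, c t ≠ .swap)
    (q : Quot (Joined w c)) (e : ℤ) (he : e = 1 ∨ e = -1) :
    rot q + 2 * e * wind q = 2 ∨ rot q + 2 * e * wind q = -2 := by
  have hev := rot_even h1 h2 h3 w c hc q
  set s := rot q + 2 * e * wind q with hs
  have key : ∀ (B : Type) [CommRing B] [IsDomain B] (A : Bˣ),
      ((A ^ s : Bˣ) : B) + ((A ^ (-s) : Bˣ) : B) = 0 → loopv A = 0 := by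
    intro B _ _ A h
    refine rot_zero h1 h2 h3 w c hc q e he B A ?_
    rw [hev.neg_one_zpow, one_mul]
    exact h
  have hs0 : s ≠ 0 := by
    intro h0
    have : Fact (Nat.Prime 2) := ⟨Nat.prime_two⟩
    have h5 := key (ZMod 2)[T;T⁻¹] (tU (ZMod 2) 1) (by
      rw [h0, neg_zero, zpow_zero, Units.val_one]
      exact CharTwo.add_self_eq_zero (1 : (ZMod 2)[T;T⁻¹]))
    have h6 : loopv (tU (ZMod 2) 1) = dl 2 := by
      unfold loopv dl
      rw [tU_zpow_val, tU_zpow_val]
      norm_num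
    rw [h6] at h5
    exact dl_ne_zero 2 h5
  -- a primitive root of unity
  set m : ℕ := s.natAbs with hm
  have hm0 : m ≠ 0 := by omega
  have hprim : IsPrimitiveRoot (Complex.exp (2 * Real.pi * Complex.I / ((4 * m : ℕ) : ℂ))) (4 * m) :=
    Complex.isPrimitiveRoot_exp (4 * m) (by omega)
  obtain ⟨A, hA⟩ := hprim.isUnit (by omega)
  rw [← hA] at hprim
  have hprimU : IsPrimitiveRoot A (4 * m) := IsPrimitiveRoot.coe_units_iff.mp hprim
  have hhalf : A ^ (2 * m) = -1 := by
    have h7 : (A ^ (2 * m)) ^ 2 = 1 := by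
      rw [← pow_mul, show 2 * m * 2 = 4 * m by ring]
      exact hprimU.pow_eq_one
    have h7' : ((A ^ (2 * m) : ℂˣ) : ℂ) * ((A ^ (2 * m) : ℂˣ) : ℂ) = 1 := by
      rw [← Units.val_mul, ← pow_two, h7, Units.val_one]
    rcases mul_self_eq_one_iff.mp h7' with h | h
    · exfalso
      have h8 := hprimU.dvd_of_pow_eq_one _ (Units.ext (h.trans Units.val_one.symm))
      have h9 := Nat.le_of_dvd (by omega) h8
      omega
    · exact Units.ext (by rw [h, Units.val_neg, Units.val_one])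
  have hzero : ((A ^ s : ℂˣ) : ℂ) + ((A ^ (-s) : ℂˣ) : ℂ) = 0 := by
    have h7 : A ^ m = -A ^ (-(m : ℤ)) := by
      have h8 : A ^ (2 * m) * A ^ (-(m : ℤ)) = A ^ m := by
        rw [← zpow_natCast, ← zpow_natCast, ← zpow_add]
        congr 1
        push_cast
        ring
      rw [← h8, hhalf, neg_one_mul]
    have h8 : ((A ^ m : ℂˣ) : ℂ) + ((A ^ (-(m : ℤ)) : ℂˣ) : ℂ) = 0 := by
      rw [h7, Units.val_neg, neg_add_cancel]
    rcases Int.natAbs_eq s with h | h
    · rw [h, zpow_natCast]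
      exact h8
    · rw [h, neg_neg, zpow_natCast, add_comm]
      exact h8
  have hl := key ℂ A hzero
  have hfour : A ^ 4 = -1 := by
    apply Units.ext
    unfold loopv at hl
    have h7 : ((A ^ (2 : ℤ) : ℂˣ) : ℂ) = -((A ^ (-2 : ℤ) : ℂˣ) : ℂ) := by
      linear_combination -hl
    have h8 : A ^ 4 = A ^ (2 : ℤ) * A ^ (2 : ℤ) := by
      rw [← zpow_add, ← zpow_natCast]
      norm_num
    have h9 : A ^ (-2 : ℤ) * A ^ (2 : ℤ) = 1 := by
      rw [← zpow_add]
      norm_num
    rw [h8, Units.val_mul]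
    nth_rewrite 1 [h7]
    rw [neg_mul, ← Units.val_mul, h9]
    simp
  have height : A ^ 8 = 1 := by
    rw [show (8 : ℕ) = 4 * 2 by norm_num, pow_mul, hfour]
    simp
  have hdvd := hprimU.dvd_of_pow_eq_one _ height
  have hle := Nat.le_of_dvd (by norm_num) hdvd
  have hm2 : m = 1 ∨ m = 2 := by omega
  rcases hm2 with h | h
  · exfalso
    have h7 : A ^ 4 = 1 := by
      have := hprimU.pow_eq_one
      rwa [h] at this
    rw [h7] at hfour
    have h8 := congrArg (fun x : ℂˣ => (x : ℂ)) hfour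
    simp only [Units.val_one, Units.val_neg] at h8
    norm_num at h8
  · omega

theorem rotval (h1 : Stmt_Plane) (h2 : Stmt_Cyc) (h3 : Stmt_Product) : Stmt_Rot := by
  intro N n _ w c hc q
  have ha := rot_main h1 h2 h3 w c hc q 1 (Or.inl rfl)
  have hb := rot_main h1 h2 h3 w c hc q (-1) (Or.inr rfl)
  constructor
  · intro h0
    rw [h0] at ha
    omega
  · intro h0
    rcases wind_bound hc q with h | h | h
    · exact absurd h h0
    · rw [h] at ha hb
      omega
    · rw [h] at ha hb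
      omega

end Pool.Agent.Per
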