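import Pool.Agent.Per.Stmts

/-!
# The vertex model of a state counts its curves
-/

namespace Pool.Agent.Per

open LaurentPolynomial Pool.Agent.Helper1.PK

theorem state_factor_zero {B : Type*} [CommRing B] (A z : Bˣ) (w r : ℤ) (hw : w = 0)
    (hr : r = 2 ∨ r = -2) :
    ((z ^ w * A ^ r : Bˣ) : B) + (((-1) ^ r * z ^ (-w) * A ^ (-r) : Bˣ) : B) = -loopv A := by
  subst hw
  have h1 : ((-1 : Bˣ)) ^ (2 : ℤ) = 1 := by
    rw [show (2 : ℤ) = ((2 : ℕ) : ℤ) from rfl, zpow_natCast]
    simp
  have h2 : ((-1 : Bˣ)) ^ (-2 : ℤ) = 1 := by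
    rw [zpow_neg, h1, inv_one]
  unfold loopv
  rcases hr with h | h
  · subst h
    rw [h1]
    simp only [zpow_zero, neg_zero, one_mul]
    ring
  · subst h
    rw [h2]
    simp only [zpow_zero, neg_zero, one_mul, neg_neg]
    ring

theorem state_factor_one {B : Type*} [CommRing B] (A z : Bˣ) (w r : ℤ) (hw : w = 1 ∨ w = -1)
    (hr : r = 0) :
    ((z ^ w * A ^ r : Bˣ) : B) + (((-1) ^ r * z ^ (-w) * A ^ (-r) : Bˣ) : B) =
      (z : B) + ((z⁻¹ : Bˣ) : B) := by
  subst hr
  rcases hw with h | h
  · subst h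
    simp only [zpow_zero, neg_zero, one_mul, mul_one, zpow_one, zpow_neg]
  · subst h
    simp only [zpow_zero, neg_zero, one_mul, mul_one, zpow_one, zpow_neg, neg_neg]
    ring

theorem state_sign {N n : ℕ} [NeZero N] (w : ZMod N → Letter n) {c : ZMod N → Join}
    (hc : ∀ t, c t ≠ .swap) :
    (-1 : ℤˣ) ^ (Finset.univ.filter fun t => c t = .turn).card = (-1) ^ ines w c := by
  have h1 := curves_state w hc
  have h2 : (-1 : ℤˣ) ^ ess w c = (-1) ^ (n + 1) := by
    have h3 := ess_parity (w := w) hc
    rcases Nat.even_or_odd (n + 1) with h | h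
    · have h4 : Even (ess w c) := by
        rw [Nat.even_iff] at h ⊢
        omega
      rw [h.neg_one_pow, h4.neg_one_pow]
    · have h4 : Odd (ess w c) := by
        rw [Nat.odd_iff] at h ⊢
        omega
      rw [h.neg_one_pow, h4.neg_one_pow]
  rw [← ines_add_ess, pow_add, h2, mul_comm] at h1
  exact (mul_left_cancel h1).symm

theorem state (h1 : Stmt_Product) (h2 : Stmt_Rot) : Stmt_State := by
  classical
  intro B _ A z N n _ w c hc
  rw [h1 B A z N n w c hc]
  have hs : ((-1 : B)) ^ (Finset.univ.filter fun t => c t = .turn).card = (-1) ^ ines w c := by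
    have h3 := state_sign w hc
    have h4 : ((((-1 : ℤˣ) ^ (Finset.univ.filter fun t => c t = .turn).card : ℤˣ) : ℤ) : B) =
      ((((-1 : ℤˣ) ^ ines w c : ℤˣ) : ℤ) : B) := by rw [h3]
    simpa using h4
  have hf : ∀ q : Quot (Joined w c), (((z ^ wind q * A ^ rot q : Bˣ) : B) +
      (((-1) ^ rot q * z ^ (-wind q) * A ^ (-rot q) : Bˣ) : B)) =
      if wind q = 0 then -loopv A else (z : B) + ((z⁻¹ : Bˣ) : B) := by
    intro q
    have h5 := h2 N n w c hc q
    by_cases h6 : wind q = 0
    · rw [if_pos h6]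
      exact state_factor_zero A z _ _ h6 (h5.1 h6)
    · rw [if_neg h6]
      refine state_factor_one A z _ _ ?_ (h5.2 h6)
      rcases wind_bound hc q with h | h | h
      · first
        | exact absurd h h6
        | exact Or.inl h
        | exact Or.inr h
      · first
        | exact absurd h h6
        | exact Or.inl h
        | exact Or.inr h
      · first
        | exact absurd h h6
        | exact Or.inl h
        | exact Or.inr h
  rw [Finset.prod_congr rfl (fun q _ => hf q), Finset.prod_ite, Finset.prod_const,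
    Finset.prod_const, hs]
  have e1 : (Finset.univ.filter fun q : Quot (Joined w c) => wind q = 0).card = ines w c := by
    unfold ines
    congr!
  have e2 : (Finset.univ.filter fun q : Quot (Joined w c) => ¬ wind q = 0).card = ess w c := by
    unfold ess
    congr!
  rw [e1, e2, neg_pow (loopv A)]
  have h7 : ((-1 : B)) ^ ines w c * (-1) ^ ines w c = 1 := by
    rw [← mul_pow]; simp
  calc (-1 : B) ^ ines w c * ((-1) ^ ines w c * loopv A ^ ines w c *
        ((z : B) + ((z⁻¹ : Bˣ) : B)) ^ ess w c)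
      = ((-1) ^ ines w c * (-1) ^ ines w c) * (loopv A ^ ines w c *
        ((z : B) + ((z⁻¹ : Bˣ) : B)) ^ ess w c) := by ring
    _ = _ := by rw [h7, one_mul]

end Pool.Agent.Per
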