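import Pool.Agent.Per.Stmts

/-!
# The relations of the Temperley-Lieb algebra
-/

namespace Pool.Agent.Per

open LaurentPolynomial Pool.Agent.Helper1.PK

section TL

variable {B : Type*} [CommRing B] (A : Bˣ) {n : ℕ}

/-- The weight of a turnback with the left spins `s` and `t`. -/
def tlW (s t : ℤˣ) : B :=
  (((-(s * t) : ℤˣ) : ℤ) : B) * ((A ^ ((s : ℤ) + (t : ℤ)) : Bˣ) : B)

theorem tlW_11 : tlW A 1 1 = -((A ^ (2 : ℤ) : Bˣ) : B) := by
  simp [tlW]

theorem tlW_12 : tlW A 1 (-1) = 1 := by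
  simp [tlW]

theorem tlW_21 : tlW A (-1) 1 = 1 := by
  simp [tlW]

theorem tlW_22 : tlW A (-1) (-1) = -((A ^ (-2 : ℤ) : Bˣ) : B) := by
  simp [tlW]

theorem tl_xy : ((A ^ (2 : ℤ) : Bˣ) : B) * ((A ^ (-2 : ℤ) : Bˣ) : B) = 1 := by
  rw [← Units.val_mul, ← zpow_add]
  simp

/-- The spin state with new spins `ε`, `-ε` at the strands of `a`. -/
def tlFlip (a : Fin n) (ε : ℤˣ) (σ : Spin n) : Spin n :=
  Function.update (Function.update σ a.castSucc ε) a.succ (-ε)

theorem tlFlip_left (a : Fin n) (ε : ℤˣ) (σ : Spin n) : tlFlip a ε σ a.castSucc = ε := by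
  simp [tlFlip, Function.update_of_ne (castSucc_ne_succ a)]

theorem tlFlip_right (a : Fin n) (ε : ℤˣ) (σ : Spin n) : tlFlip a ε σ a.succ = -ε := by
  simp [tlFlip]

theorem tlFlip_not_at (a : Fin n) (ε : ℤˣ) (σ : Spin n) {j : Fin (n + 1)} (h : ¬ At a j) :
    tlFlip a ε σ j = σ j := by
  unfold At at h
  push Not at h
  simp [tlFlip, Function.update_of_ne h.1, Function.update_of_ne h.2]

theorem tlM_apply (a : Fin n) (σ τ : Spin n) : turnM A a σ τ =
    if (∀ j, ¬ At a j → τ j = σ j) ∧ σ a.succ = -σ a.castSucc ∧ τ a.succ = -τ a.castSucc then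
      tlW A (σ a.castSucc) (τ a.castSucc) else 0 := rfl

theorem tlM_mul (a : Fin n) (M : Matrix (Spin n) (Spin n) B) (σ τ : Spin n) :
    (turnM A a * M) σ τ = if σ a.succ = -σ a.castSucc then
      ∑ ε : ℤˣ, tlW A (σ a.castSucc) ε * M (tlFlip a ε σ) τ else 0 := by
  rw [Matrix.mul_apply]
  split_ifs with h
  · symm
    refine Fintype.sum_of_injective (fun ε => tlFlip a ε σ) ?_ _ _ ?_ ?_
    · intro ε δ hεδ
      have := congrFun hεδ a.castSucc
      simpa only [tlFlip_left] using this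
    · intro ρ hρ
      rw [tlM_apply, if_neg, zero_mul]
      rintro ⟨h1, -, h3⟩
      refine hρ ⟨ρ a.castSucc, ?_⟩
      funext j
      by_cases hj : At a j
      · rcases hj with hj | hj
        · subst hj
          exact tlFlip_left _ _ _
        · subst hj
          rw [h3]
          exact tlFlip_right _ _ _
      · rw [h1 j hj]
        exact tlFlip_not_at _ _ _ hj
    · intro ε
      rw [tlM_apply, if_pos, tlFlip_left]
      exact ⟨fun j hj => tlFlip_not_at _ _ _ hj, h, by rw [tlFlip_right, tlFlip_left]⟩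
  · refine Finset.sum_eq_zero fun ρ _ => ?_
    rw [tlM_apply, if_neg, zero_mul]
    rintro ⟨-, h2, -⟩
    exact h h2

theorem tl_sum (f : ℤˣ → B) : ∑ ε : ℤˣ, f ε = f 1 + f (-1) := by
  rw [show (Finset.univ : Finset ℤˣ) = {1, -1} from rfl, Finset.sum_pair (by decide)]

theorem tl_square_aux (s t : ℤˣ) : ∑ ε : ℤˣ, tlW A s ε * tlW A ε t = loopv A * tlW A s t := by
  have h := tl_xy A
  rw [tl_sum]
  unfold loopv
  rcases Int.units_eq_one_or s with rfl | rfl <;> rcases Int.units_eq_one_or t with rfl | rfl <;>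
    simp only [tlW_11, tlW_12, tlW_21, tlW_22]
  · linear_combination (-1 : B) * h
  · ring
  · ring
  · linear_combination (-1 : B) * h

theorem tl_square (a : Fin n) : turnM A a * turnM A a = loopv A • turnM A a := by
  ext σ τ
  rw [tlM_mul, Matrix.smul_apply, smul_eq_mul, tlM_apply]
  by_cases h : σ a.succ = -σ a.castSucc
  · rw [if_pos h]
    by_cases h2 : (∀ j, ¬ At a j → τ j = σ j) ∧ τ a.succ = -τ a.castSucc
    · rw [if_pos ⟨h2.1, h, h2.2⟩, ← tl_square_aux]
      refine Finset.sum_congr rfl fun ε _ => ?_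
      rw [tlM_apply, if_pos, tlFlip_left]
      exact ⟨fun j hj => by rw [tlFlip_not_at _ _ _ hj]; exact h2.1 j hj,
        by rw [tlFlip_right, tlFlip_left], h2.2⟩
    · rw [if_neg (fun h' => h2 ⟨h'.1, h'.2.2⟩), mul_zero]
      refine Finset.sum_eq_zero fun ε _ => ?_
      rw [tlM_apply, if_neg, mul_zero]
      rintro ⟨h3, -, h4⟩
      exact h2 ⟨fun j hj => by rw [h3 j hj, tlFlip_not_at _ _ _ hj], h4⟩
  · rw [if_neg h, if_neg (fun h' => h h'.2.1), mul_zero]

theorem tl_comm_apply (a b : Fin n) (hab : ∀ j, At a j → ¬ At b j) (σ τ : Spin n) :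
    (turnM A a * turnM A b) σ τ =
      if (∀ j, ¬ At a j → ¬ At b j → τ j = σ j) ∧
        (σ a.succ = -σ a.castSucc ∧ τ a.succ = -τ a.castSucc) ∧
        (σ b.succ = -σ b.castSucc ∧ τ b.succ = -τ b.castSucc) then
      tlW A (σ a.castSucc) (τ a.castSucc) * tlW A (σ b.castSucc) (τ b.castSucc) else 0 := by
  have ha1 : ¬ At b a.castSucc := hab _ (Or.inl rfl)
  have ha2 : ¬ At b a.succ := hab _ (Or.inr rfl)
  have hb1 : ¬ At a b.castSucc := fun h => hab _ h (Or.inl rfl)
  have hb2 : ¬ At a b.succ := fun h => hab _ h (Or.inr rfl)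
  rw [tlM_mul]
  by_cases H : (∀ j, ¬ At a j → ¬ At b j → τ j = σ j) ∧
        (σ a.succ = -σ a.castSucc ∧ τ a.succ = -τ a.castSucc) ∧
        (σ b.succ = -σ b.castSucc ∧ τ b.succ = -τ b.castSucc)
  · rw [if_pos H.2.1.1, if_pos H, Finset.sum_eq_single (τ a.castSucc)]
    · rw [tlM_apply, if_pos, tlFlip_not_at _ _ _ hb1]
      refine ⟨fun j hj => ?_, ?_, H.2.2.2⟩
      · by_cases hj' : At a j
        · rcases hj' with hj' | hj'
          · subst hj'
            rw [tlFlip_left]
          · subst hj'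
            rw [tlFlip_right, H.2.1.2]
        · rw [tlFlip_not_at _ _ _ hj']
          exact H.1 j hj' hj
      · rw [tlFlip_not_at _ _ _ hb1, tlFlip_not_at _ _ _ hb2, H.2.2.1]
    · intro ε _ hε
      rw [tlM_apply, if_neg, mul_zero]
      rintro ⟨h1, -, -⟩
      have := h1 _ ha1
      rw [tlFlip_left] at this
      exact hε this.symm
    · intro h
      exact absurd (Finset.mem_univ _) h
  · rw [if_neg H]
    split_ifs with h
    · refine Finset.sum_eq_zero fun ε _ => ?_
      rw [tlM_apply, if_neg, mul_zero]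
      rintro ⟨h1, h2, h3⟩
      rw [tlFlip_not_at _ _ _ hb1, tlFlip_not_at _ _ _ hb2] at h2
      refine H ⟨fun j hj hj' => ?_, ⟨h, ?_⟩, h2, h3⟩
      · rw [h1 j hj', tlFlip_not_at _ _ _ hj]
      · rw [h1 _ ha2, h1 _ ha1, tlFlip_left, tlFlip_right]
    · rfl

theorem tl_comm (a b : Fin n) (hab : (a : ℕ) + 1 < b) :
    turnM A a * turnM A b = turnM A b * turnM A a := by
  have h1 : ∀ j, At a j → ¬ At b j := by
    rintro j (rfl | rfl) (h | h) <;>
    · have := congrArg Fin.val h
      simp at this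
      omega
  have h2 : ∀ j, At b j → ¬ At a j := fun j hb ha => h1 j ha hb
  ext σ τ
  rw [tl_comm_apply A a b h1, tl_comm_apply A b a h2]
  have hiff : ((∀ j, ¬ At a j → ¬ At b j → τ j = σ j) ∧
        (σ a.succ = -σ a.castSucc ∧ τ a.succ = -τ a.castSucc) ∧
        (σ b.succ = -σ b.castSucc ∧ τ b.succ = -τ b.castSucc)) ↔
      ((∀ j, ¬ At b j → ¬ At a j → τ j = σ j) ∧
        (σ b.succ = -σ b.castSucc ∧ τ b.succ = -τ b.castSucc) ∧
        (σ a.succ = -σ a.castSucc ∧ τ a.succ = -τ a.castSucc)) :=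
    ⟨fun h => ⟨fun j p q => h.1 j q p, h.2.2, h.2.1⟩,
      fun h => ⟨fun j p q => h.1 j q p, h.2.2, h.2.1⟩⟩
  by_cases H : (∀ j, ¬ At a j → ¬ At b j → τ j = σ j) ∧
        (σ a.succ = -σ a.castSucc ∧ τ a.succ = -τ a.castSucc) ∧
        (σ b.succ = -σ b.castSucc ∧ τ b.succ = -τ b.castSucc)
  · rw [if_pos H, if_pos (hiff.mp H), mul_comm]
  · rw [if_neg H, if_neg (fun h => H (hiff.mpr h))]

theorem tl_triple_aux (s t κ : ℤˣ) :
    tlW A s κ * (tlW A (-κ) (-κ) * tlW A κ t) = tlW A s t := by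
  have h := tl_xy A
  rcases Int.units_eq_one_or s with rfl | rfl <;> rcases Int.units_eq_one_or t with rfl | rfl <;>
    rcases Int.units_eq_one_or κ with rfl | rfl <;>
    simp only [neg_neg, tlW_11, tlW_12, tlW_21, tlW_22] <;>
    first
    | ring1
    | linear_combination h
    | linear_combination -h
    | linear_combination (((A ^ (2 : ℤ) : Bˣ) : B)) * h
    | linear_combination -(((A ^ (2 : ℤ) : Bˣ) : B)) * h
    | linear_combination (((A ^ (-2 : ℤ) : Bˣ) : B)) * h
    | linear_combination -(((A ^ (-2 : ℤ) : Bˣ) : B)) * h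

theorem tl_triple_left (a b : Fin n) (hab : (b : ℕ) = a + 1) :
    turnM A a * turnM A b * turnM A a = turnM A a := by
  have hba : b.castSucc = a.succ := Fin.ext (by simp [hab])
  have hb2 : ¬ At a b.succ := by
    rintro (h | h) <;>
    · have := congrArg Fin.val h
      simp at this
      omega
  have ha1 : ¬ At b a.castSucc := by
    rintro (h | h) <;>
    · have := congrArg Fin.val h
      simp at this
      omega
  rw [mul_assoc]
  ext σ τ
  rw [tlM_mul]
  by_cases h : σ a.succ = -σ a.castSucc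
  swap
  · rw [if_neg h, tlM_apply, if_neg (fun h' => h h'.2.1)]
  rw [if_pos h, Finset.sum_eq_single (σ b.succ)]
  · rw [tlM_mul, if_pos, Finset.sum_eq_single (-σ b.succ)]
    · have e1 : tlFlip a (σ b.succ) σ b.castSucc = -σ b.succ := by rw [hba, tlFlip_right]
      have e2 : tlFlip b (-σ b.succ) (tlFlip a (σ b.succ) σ) a.castSucc = σ b.succ := by
        rw [tlFlip_not_at _ _ _ ha1, tlFlip_left]
      have e3 : tlFlip b (-σ b.succ) (tlFlip a (σ b.succ) σ) a.succ = -σ b.succ := by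
        rw [← hba, tlFlip_left]
      have e4 : ∀ j, ¬ At a j → tlFlip b (-σ b.succ) (tlFlip a (σ b.succ) σ) j = σ j := by
        intro j hj
        by_cases hj' : At b j
        · rcases hj' with hj' | hj'
          · exact absurd (Or.inr (hj'.trans hba)) hj
          · rw [hj', tlFlip_right, neg_neg]
        · rw [tlFlip_not_at _ _ _ hj', tlFlip_not_at _ _ _ hj]
      rw [e1, tlM_apply, tlM_apply, e2, e3]
      by_cases h2 : (∀ j, ¬ At a j → τ j = σ j) ∧ τ a.succ = -τ a.castSucc
      · rw [if_pos ⟨fun j hj => by rw [e4 j hj]; exact h2.1 j hj, rfl, h2.2⟩,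
          if_pos ⟨h2.1, h, h2.2⟩]
        exact tl_triple_aux A _ _ _
      · rw [if_neg (fun h' => h2 ⟨fun j hj => by rw [h'.1 j hj, e4 j hj], h'.2.2⟩),
          if_neg (fun h' => h2 ⟨h'.1, h'.2.2⟩), mul_zero, mul_zero]
    · intro δ _ hδ
      rw [tlM_apply, if_neg, mul_zero]
      rintro ⟨-, h2, -⟩
      rw [← hba, tlFlip_left, tlFlip_not_at _ _ _ ha1, tlFlip_left] at h2
      exact hδ h2
    · intro h'
      exact absurd (Finset.mem_univ _) h'
    · rw [hba, tlFlip_right, neg_neg, tlFlip_not_at _ _ _ hb2]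
  · intro ε _ hε
    rw [tlM_mul, if_neg, mul_zero]
    rw [hba, tlFlip_right, neg_neg, tlFlip_not_at _ _ _ hb2]
    exact fun h' => hε h'.symm
  · intro h'
    exact absurd (Finset.mem_univ _) h'

theorem tl_triple_right (a b : Fin n) (hab : (b : ℕ) = a + 1) :
    turnM A b * turnM A a * turnM A b = turnM A b := by
  have hba : b.castSucc = a.succ := Fin.ext (by simp [hab])
  have hb2 : ¬ At a b.succ := by
    rintro (h | h) <;>
    · have := congrArg Fin.val h
      simp at this
      omega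
  have ha1 : ¬ At b a.castSucc := by
    rintro (h | h) <;>
    · have := congrArg Fin.val h
      simp at this
      omega
  rw [mul_assoc]
  ext σ τ
  rw [tlM_mul]
  by_cases h : σ b.succ = -σ b.castSucc
  swap
  · rw [if_neg h, tlM_apply, if_neg (fun h' => h h'.2.1)]
  rw [if_pos h, Finset.sum_eq_single (-σ a.castSucc)]
  · rw [tlM_mul, if_pos, Finset.sum_eq_single (σ a.castSucc)]
    · have e1 : tlFlip b (-σ a.castSucc) σ a.castSucc = σ a.castSucc := by
        rw [tlFlip_not_at _ _ _ ha1]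
      have e2 : tlFlip a (σ a.castSucc) (tlFlip b (-σ a.castSucc) σ) b.castSucc =
          -σ a.castSucc := by
        rw [hba, tlFlip_right]
      have e3 : tlFlip a (σ a.castSucc) (tlFlip b (-σ a.castSucc) σ) b.succ =
          -(-σ a.castSucc) := by
        rw [tlFlip_not_at _ _ _ hb2, tlFlip_right]
      have e4 : ∀ j, ¬ At b j →
          tlFlip a (σ a.castSucc) (tlFlip b (-σ a.castSucc) σ) j = σ j := by
        intro j hj
        by_cases hj' : At a j
        · rcases hj' with hj' | hj'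
          · rw [hj', tlFlip_left]
          · exact absurd (Or.inl (hj'.trans hba.symm)) hj
        · rw [tlFlip_not_at _ _ _ hj', tlFlip_not_at _ _ _ hj]
      rw [e1, tlM_apply, tlM_apply, e2, e3]
      by_cases h2 : (∀ j, ¬ At b j → τ j = σ j) ∧ τ b.succ = -τ b.castSucc
      · rw [if_pos ⟨fun j hj => by rw [e4 j hj]; exact h2.1 j hj, rfl, h2.2⟩,
          if_pos ⟨h2.1, h, h2.2⟩]
        have := tl_triple_aux A (σ b.castSucc) (τ b.castSucc) (-σ a.castSucc)
        rwa [neg_neg] at this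
      · rw [if_neg (fun h' => h2 ⟨fun j hj => by rw [h'.1 j hj, e4 j hj], h'.2.2⟩),
          if_neg (fun h' => h2 ⟨h'.1, h'.2.2⟩), mul_zero, mul_zero]
    · intro δ _ hδ
      rw [tlM_apply, if_neg, mul_zero]
      rintro ⟨-, h2, -⟩
      rw [hba, tlFlip_right, neg_neg, tlFlip_not_at _ _ _ hb2, tlFlip_right, neg_neg] at h2
      exact hδ h2.symm
    · intro h'
      exact absurd (Finset.mem_univ _) h'
    · rw [← hba, tlFlip_left, tlFlip_not_at _ _ _ ha1]
  · intro ε _ hε
    rw [tlM_mul, if_neg, mul_zero]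
    rw [← hba, tlFlip_left, tlFlip_not_at _ _ _ ha1]
    exact hε
  · intro h'
    exact absurd (Finset.mem_univ _) h'

end TL

theorem tl : Stmt_TL := by
  intro B _ A n
  exact ⟨tl_square A, tl_comm A, tl_triple_left A, tl_triple_right A⟩

end Pool.Agent.Per
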