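import Pool.Agent.Per.Stmts

/-!
# Independence of powers in a differential field
-/

namespace Pool.Agent.Per

open Polynomial

namespace Wr

/-- iterates of a derivation and sums -/
theorem iter_sum {K : Type} [Field K] (D : Derivation ℤ K K) {ι : Type} (s : Finset ι)
    (f : ι → K) (k : ℕ) : D^[k] (∑ i ∈ s, f i) = ∑ i ∈ s, D^[k] (f i) := by
  induction k with
  | zero => rfl
  | succ k ih =>
    rw [Function.iterate_succ_apply', ih, map_sum]
    exact Finset.sum_congr rfl (fun i _ => (Function.iterate_succ_apply' D k (f i)).symm)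

theorem iter_const_mul {K : Type} [Field K] (D : Derivation ℤ K K) (c y : K) (hc : D c = 0)
    (k : ℕ) : D^[k] (c * y) = c * D^[k] y := by
  induction k with
  | zero => rfl
  | succ k ih =>
    rw [Function.iterate_succ_apply', ih, Function.iterate_succ_apply', D.leibniz, hc]
    simp

/-- iterated Leibniz rule -/
theorem leib {K : Type} [Field K] (D : Derivation ℤ K K) (a b : K) (k : ℕ) :
    D^[k] (a * b) = ∑ ij ∈ Finset.HasAntidiagonal.antidiagonal k, (k.choose ij.1 : K) *
      (D^[ij.1] a * D^[ij.2] b) := by
  induction k with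
  | zero => simp
  | succ k ih =>
    rw [Function.iterate_succ_apply', ih, map_sum,
      Finset.sum_antidiagonal_choose_succ_mul (fun i j => D^[i] a * D^[j] b) k,
      ← Finset.sum_add_distrib]
    apply Finset.sum_congr rfl
    intro ij hij
    have h1 : (k.choose ij.2 : K) = (k.choose ij.1 : K) := by
      rw [Finset.HasAntidiagonal.mem_antidiagonal] at hij
      rw [← hij, Nat.choose_symm_add]
    have h2 : D ((k.choose ij.1 : ℕ) : K) = 0 := D.map_natCast _
    rw [D.leibniz, h2, h1, D.leibniz, Function.iterate_succ_apply', Function.iterate_succ_apply']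
    simp only [smul_eq_mul]
    ring

/-- Hermite interpolation: a polynomial of small degree with many zeros vanishes -/
theorem hermite {K : Type} [Field K] {s d : ℕ} (L : Fin s → K) (hL : Function.Injective L)
    (V : K[X]) (hV : V.degree < ((s * d : ℕ) : WithBot ℕ))
    (h : ∀ a, ∀ i < d, (hasseDeriv i V).eval (L a) = 0) : V = 0 := by
  have h1 : ∀ a, (X - C (L a)) ^ d ∣ V := by
    intro a
    rw [X_sub_C_pow_dvd_iff, X_pow_dvd_iff]
    intro i hi
    have := h a i hi
    rw [← taylor_coeff] at this
    exact this
  have h2 : (∏ a, (X - C (L a)) ^ d) ∣ V := by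
    apply Finset.prod_dvd_of_coprime
    · intro a _ b _ hab
      apply IsCoprime.pow
      exact pairwise_coprime_X_sub_C hL hab
    · intro a _
      exact h1 a
  apply eq_zero_of_dvd_of_degree_lt h2
  refine lt_of_lt_of_eq hV ?_
  rw [degree_prod]
  simp only [degree_pow, degree_X_sub_C, Finset.sum_const, Finset.card_univ, Fintype.card_fin]
  simp

variable {K : Type} [Field K] [Differential K]

/-- the polynomials describing the iterated derivatives of a power -/
noncomputable def RR (L : K) : ℕ → K[X]
  | 0 => 1
  | k + 1 => X * Differential.mapCoeffs (RR L k) + C L * RR L k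

theorem natDegree_mapCoeffs_le (p : K[X]) :
    (Differential.mapCoeffs p).natDegree ≤ p.natDegree := by
  rw [natDegree_le_iff_coeff_eq_zero]
  intro n hn
  rw [Differential.coeff_mapCoeffs, coeff_eq_zero_of_natDegree_lt hn, map_zero]

theorem natDegree_RR (L : K) (k : ℕ) : (RR L k).natDegree ≤ k := by
  induction k with
  | zero => simp [RR]
  | succ k ih =>
    rw [RR]
    apply natDegree_add_le_of_degree_le
    · refine le_trans natDegree_mul_le ?_
      have := natDegree_mapCoeffs_le (RR L k)
      rw [natDegree_X]
      omega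
    · refine le_trans (natDegree_C_mul_le _ _) ?_
      omega

theorem eval_zero_RR (L : K) (k : ℕ) : (RR L k).eval 0 = L ^ k := by
  induction k with
  | zero => simp [RR]
  | succ k ih => rw [RR]; simp [ih, pow_succ']

theorem deriv_inv_nat [CharZero K] (m : ℕ) : Differential.deriv ((m : K)⁻¹) = 0 := by
  rcases Nat.eq_zero_or_pos m with rfl | hm
  · simp
  · have hm' : (m : K) ≠ 0 := Nat.cast_ne_zero.mpr hm.ne'
    have h1 : Differential.deriv ((m : K) * (m : K)⁻¹) = 0 := by
      rw [mul_inv_cancel₀ hm', Derivation.map_one_eq_zero]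
    rw [Derivation.leibniz, Derivation.map_natCast, smul_zero, add_zero, smul_eq_mul] at h1
    rcases mul_eq_zero.mp h1 with h | h
    · exact (hm' h).elim
    · exact h

/-- iterated derivatives of a power -/
theorem iter_pow [CharZero K] (x : K) (hx : x ≠ 0) (m : ℕ) (hm : 1 ≤ m) (k : ℕ) :
    (Differential.deriv : Derivation ℤ K K)^[k] (x ^ m) =
      (m : K) ^ k * ((RR (Differential.logDeriv x) k).eval ((m : K)⁻¹) * x ^ m) := by
  induction k with
  | zero => simp [RR]
  | succ k ih =>
    have hm' : (m : K) ≠ 0 := Nat.cast_ne_zero.mpr (by omega)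
    set p := RR (Differential.logDeriv x) k with hp
    have h1 : Differential.deriv (p.eval ((m : K)⁻¹)) =
        (Differential.mapCoeffs p).eval ((m : K)⁻¹) := by
      have := Differential.deriv_aeval_eq (A := K) ((m : K)⁻¹) p
      rw [deriv_inv_nat, mul_zero, add_zero] at this
      simpa [Polynomial.aeval_def] using this
    have h2 : Differential.deriv (x ^ m) = (m : K) * (Differential.logDeriv x * x ^ m) := by
      rw [Derivation.leibniz_pow]
      unfold Differential.logDeriv
      obtain ⟨l, rfl⟩ : ∃ l, m = l + 1 := ⟨m - 1, by omega⟩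
      simp only [Nat.add_sub_cancel, smul_eq_mul, nsmul_eq_mul]
      field_simp
      ring
    have h3 : Differential.deriv ((m : K) ^ k) = 0 := by
      rw [Derivation.leibniz_pow, Derivation.map_natCast]
      simp
    rw [Function.iterate_succ_apply', ih, Derivation.leibniz, h3, Derivation.leibniz, h1, h2, RR]
    simp only [smul_eq_mul, eval_add, eval_mul, eval_X, eval_C, mul_zero, add_zero]
    rw [pow_succ]
    field_simp
    ring

/-- iterated derivatives of a power of a variable -/
theorem iter_t (t : K) (ht : Differential.deriv t = 1) (j i : ℕ) :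
    (Differential.deriv : Derivation ℤ K K)^[i] (t ^ j) =
      (i.factorial : K) * ((j.choose i : K) * t ^ (j - i)) := by
  have key : (Differential.deriv : Derivation ℤ K K)^[i] (t ^ j) =
      (j.descFactorial i : K) * t ^ (j - i) := by
    induction i with
    | zero => simp
    | succ i ih =>
      rw [Function.iterate_succ_apply', ih, Derivation.leibniz, Derivation.map_natCast,
        Derivation.leibniz_pow, ht, Nat.descFactorial_succ]
      simp only [smul_eq_mul, nsmul_eq_mul, mul_zero, add_zero, mul_one, Nat.sub_sub]
      push_cast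
      ring
  rw [key, Nat.descFactorial_eq_factorial_mul_choose]
  push_cast
  ring

/-- the matrix -/
noncomputable def QQ (s d : ℕ) (L : Fin s → K) : Matrix (Fin s × Fin d) (Fin s × Fin d) K[X] :=
  Matrix.of fun r c => C ((Nat.choose (finProdFinEquiv r : ℕ) (c.2 : ℕ) : ℕ) : K) *
    RR (L c.1) ((finProdFinEquiv r : ℕ) - c.2)

theorem natDegree_QQ (s d : ℕ) (L : Fin s → K) : (QQ s d L).det.natDegree ≤ (s * d) ^ 2 := by
  rw [Matrix.det_apply]
  apply natDegree_sum_le_of_forall_le
  intro σ _
  refine le_trans (natDegree_smul_le _ _) ?_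
  refine le_trans (natDegree_prod_le _ _) ?_
  have h1 : ∀ i ∈ (Finset.univ : Finset (Fin s × Fin d)),
      (QQ s d L (σ i) i).natDegree ≤ s * d := by
    intro i _
    refine le_trans (natDegree_C_mul_le _ _) ?_
    refine le_trans (natDegree_RR _ _) ?_
    have := (finProdFinEquiv (σ i)).isLt
    omega
  refine le_trans (Finset.sum_le_card_nsmul _ _ _ h1) ?_
  simp [pow_two]

theorem det_QQ_ne [CharZero K] (s d : ℕ) (L : Fin s → K) (hL : Function.Injective L) :
    (QQ s d L).det ≠ 0 := by
  intro h0
  have h1 : ((evalRingHom (0 : K)).mapMatrix (QQ s d L)).det = 0 := by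
    rw [← RingHom.map_det, h0, map_zero]
  rw [← Matrix.exists_vecMul_eq_zero_iff] at h1
  obtain ⟨v, hv0, hv⟩ := h1
  set V : K[X] := ∑ r : Fin s × Fin d, monomial (finProdFinEquiv r : ℕ) (v r) with hVdef
  have hV : V = 0 := by
    apply hermite (s := s) (d := d) L hL
    · refine lt_of_le_of_lt (degree_sum_le _ _) ?_
      rw [Finset.sup_lt_iff (WithBot.bot_lt_coe _)]
      intro r _
      refine lt_of_le_of_lt (degree_monomial_le _ _) ?_
      exact_mod_cast (finProdFinEquiv r).isLt
    · intro a i hi
      have h2 := congrFun hv (a, ⟨i, hi⟩)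
      rw [Matrix.vecMul, dotProduct] at h2
      rw [hVdef, map_sum, eval_finsetSum]
      rw [Pi.zero_apply] at h2
      rw [← h2]
      apply Finset.sum_congr rfl
      intro r _
      rw [hasseDeriv_monomial, eval_monomial]
      simp only [QQ, RingHom.mapMatrix_apply, Matrix.map_apply, Matrix.of_apply, coe_evalRingHom,
        eval_mul, eval_C, eval_zero_RR]
      ring
  apply hv0
  funext r
  have h2 : V.coeff (finProdFinEquiv r : ℕ) = v r := by
    rw [hVdef, finsetSum_coeff, Finset.sum_eq_single r]
    · rw [coeff_monomial, if_pos rfl]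
    · intro r' _ hr'
      rw [coeff_monomial, if_neg]
      intro h
      exact hr' (finProdFinEquiv.injective (Fin.ext h))
    · intro h
      exact (h (Finset.mem_univ r)).elim
  rw [← h2, hV, coeff_zero]
  rfl

end Wr

open Wr in
theorem wronski : Stmt_Wronski := by
  intro K _ _ _ t ht s d x hx hL
  classical
  set L : Fin s → K := fun a => Differential.logDeriv (x a) with hLdef
  have hdet := det_QQ_ne s d L hL
  have hinj : Function.Injective (fun m : ℕ => ((m : K)⁻¹)) := by
    intro a b hab
    exact Nat.cast_injective (inv_injective hab)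
  refine ⟨(QQ s d L).det.roots.toFinset.preimage (fun m : ℕ => ((m : K)⁻¹)) hinj.injOn, ?_, ?_⟩
  · refine le_trans ?_ (natDegree_QQ s d L)
    refine le_trans ?_ (card_roots' (QQ s d L).det)
    refine le_trans ?_ (Multiset.toFinset_card_le _)
    apply Finset.card_le_card_of_injOn (fun m : ℕ => ((m : K)⁻¹))
    · intro m hm
      have hm2 := Finset.mem_coe.mp hm
      rw [Finset.mem_preimage] at hm2
      exact Finset.mem_coe.mpr hm2
    · exact hinj.injOn
  · intro m hm hmE γ hγ hsum
    have hm' : (m : K) ≠ 0 := Nat.cast_ne_zero.mpr (by omega)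
    have hne : (QQ s d L).det.eval ((m : K)⁻¹) ≠ 0 := by
      intro h0
      apply hmE
      rw [Finset.mem_preimage, Multiset.mem_toFinset, mem_roots hdet]
      exact h0
    set D : Derivation ℤ K K := Differential.deriv with hD
    let U : Fin s → K := fun a => ∑ j, γ a j * t ^ (j : ℕ)
    have hU : ∑ a, U a * x a ^ m = 0 := by
      rw [← hsum]
      apply Finset.sum_congr rfl
      intro a _
      rw [Finset.sum_mul]
    -- derivatives of `U a`
    let G : Fin s → K[X] := fun a => ∑ j : Fin d, monomial (j : ℕ) (γ a j)
    have hUG : ∀ a i, D^[i] (U a) = (i.factorial : K) * (hasseDeriv i (G a)).eval t := by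
      intro a i
      rw [iter_sum, map_sum, eval_finsetSum, Finset.mul_sum]
      apply Finset.sum_congr rfl
      intro j _
      rw [iter_const_mul D _ _ (hγ a j), iter_t t ht, hasseDeriv_monomial, eval_monomial]
      ring
    have hU0 : ∀ a i, d ≤ i → D^[i] (U a) = 0 := by
      intro a i hi
      rw [iter_sum]
      apply Finset.sum_eq_zero
      intro j _
      rw [iter_const_mul D _ _ (hγ a j), iter_t t ht,
        Nat.choose_eq_zero_of_lt (lt_of_lt_of_le j.isLt hi)]
      simp
    -- the vector in the kernel
    let w : Fin s × Fin d → K := fun c => ((m : K)⁻¹) ^ (c.2 : ℕ) * (D^[(c.2 : ℕ)] (U c.1) *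
      x c.1 ^ m)
    have hker : ((evalRingHom ((m : K)⁻¹)).mapMatrix (QQ s d L)).mulVec w = 0 := by
      funext r
      set k : ℕ := (finProdFinEquiv r : ℕ) with hk
      have h1 : ∑ a, D^[k] (U a * x a ^ m) = 0 := by
        rw [← iter_sum, hU]
        exact Function.iterate_fixed (map_zero D) k
      have h2 : ∀ a, D^[k] (U a * x a ^ m) = (m : K) ^ k * ∑ i : Fin d,
          (((k.choose i : ℕ) : K) * (RR (L a) (k - i)).eval ((m : K)⁻¹)) * w (a, i) := by
        intro a
        let g : ℕ → K := fun i => (m : K) ^ k * ((((k.choose i : ℕ) : K) *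
          (RR (L a) (k - i)).eval ((m : K)⁻¹)) * (((m : K)⁻¹) ^ i * (D^[i] (U a) * x a ^ m)))
        have h3 : D^[k] (U a * x a ^ m) = ∑ i ∈ Finset.range (k + 1), g i := by
          rw [leib, Finset.Nat.sum_antidiagonal_eq_sum_range_succ_mk]
          apply Finset.sum_congr rfl
          intro i hi
          have hik : i ≤ k := by
            have := Finset.mem_range.mp hi
            omega
          have hpow : (m : K) ^ k * ((m : K)⁻¹) ^ i = (m : K) ^ (k - i) := by
            rw [inv_pow, ← div_eq_mul_inv, div_eq_iff (pow_ne_zero _ hm'), ← pow_add,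
              Nat.sub_add_cancel hik]
          have h4 := iter_pow (x a) (hx a) m hm (k - i)
          simp only [g]
          rw [← hD] at h4
          rw [h4, ← hpow]
          ring
        have h5 : ∑ i ∈ Finset.range (k + 1), g i = ∑ i ∈ Finset.range (k + 1 + d), g i := by
          apply Finset.sum_subset
          · intro i hi
            rw [Finset.mem_range] at hi ⊢
            omega
          · intro i _ hi
            rw [Finset.mem_range, not_lt] at hi
            simp only [g]
            rw [Nat.choose_eq_zero_of_lt (by omega)]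
            simp
        have h6 : ∑ i ∈ Finset.range d, g i = ∑ i ∈ Finset.range (k + 1 + d), g i := by
          apply Finset.sum_subset
          · intro i hi
            rw [Finset.mem_range] at hi ⊢
            omega
          · intro i _ hi
            rw [Finset.mem_range, not_lt] at hi
            simp only [g]
            rw [hU0 a i hi]
            simp
        rw [h3, h5, ← h6, Finset.sum_range, Finset.mul_sum]
      have h7 : (m : K) ^ k * ∑ a, ∑ i : Fin d,
          (((k.choose i : ℕ) : K) * (RR (L a) (k - i)).eval ((m : K)⁻¹)) * w (a, i) = 0 := by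
        rw [Finset.mul_sum, ← h1]
        exact Finset.sum_congr rfl (fun a _ => (h2 a).symm)
      have h8 := (mul_eq_zero.mp h7).resolve_left (pow_ne_zero _ hm')
      rw [Matrix.mulVec, dotProduct, Fintype.sum_prod_type]
      simp only [QQ, RingHom.mapMatrix_apply, Matrix.map_apply, Matrix.of_apply, coe_evalRingHom,
        eval_mul, eval_C]
      exact h8
    have hw : w = 0 := by
      apply Matrix.eq_zero_of_mulVec_eq_zero _ hker
      rw [← RingHom.map_det]
      exact hne
    -- conclusion
    intro a
    have hG : G a = 0 := by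
      apply hermite (s := 1) (d := d) (fun _ => t) (fun _ _ _ => Subsingleton.elim _ _)
      · rw [one_mul]
        refine lt_of_le_of_lt (degree_sum_le _ _) ?_
        rw [Finset.sup_lt_iff (WithBot.bot_lt_coe _)]
        intro j _
        refine lt_of_le_of_lt (degree_monomial_le _ _) ?_
        exact_mod_cast j.isLt
      · intro _ i hi
        have h1 : w (a, ⟨i, hi⟩) = 0 := by rw [hw]; rfl
        have h2 : D^[i] (U a) = 0 := by
          rcases mul_eq_zero.mp h1 with h | h
          · exact absurd h (pow_ne_zero _ (inv_ne_zero hm'))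
          · exact (mul_eq_zero.mp h).resolve_right (pow_ne_zero _ (hx a))
        rw [hUG] at h2
        exact (mul_eq_zero.mp h2).resolve_left (Nat.cast_ne_zero.mpr (Nat.factorial_ne_zero i))
    intro j
    have h2 : (G a).coeff (j : ℕ) = γ a j := by
      simp only [G]
      rw [finsetSum_coeff, Finset.sum_eq_single j]
      · rw [coeff_monomial, if_pos rfl]
      · intro j' _ hj'
        rw [coeff_monomial, if_neg]
        intro h
        exact hj' (Fin.ext h)
      · intro h
        exact (h (Finset.mem_univ j)).elim
    rw [← h2, hG, coeff_zero]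

end Pool.Agent.Per
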