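import Pool.Agent.Per.CountB
import Pool.Agent.Per.Plane
import Pool.Agent.Per.Cyc
import Pool.Agent.Per.State
import Pool.Agent.Per.Rot
import Pool.Agent.Per.Product
import Pool.Agent.Per.TL
import Pool.Agent.Per.Markov
import Pool.Agent.Per.Mirror
import Pool.Agent.Per.Group
import Pool.Agent.Per.Wronski
import Pool.Agent.Per.Field
import Pool.Agent.Per.Eigen

/-!
# The theorem on the powers of an annular word
-/

namespace Pool.Agent.Per

open LaurentPolynomial Pool.Agent.Helper1.PK

variable {N M n : ℕ}

theorem stateThm : Stmt_State :=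
  state product (rotval (plane tl markov mirror) cyc product)

theorem groupThm : Stmt_Group := group wronski

theorem bound (n : ℕ) : ((2 ^ (n + 1) + 1) * (n + 2)) ^ 2 ≤ 16 ^ (n + 2) := by
  have h1 : (16 : ℕ) ^ (n + 2) = (4 ^ (n + 2)) ^ 2 := by
    rw [← pow_mul, mul_comm, pow_mul]
    norm_num
  rw [h1]
  apply Nat.pow_le_pow_left
  have h2 : (4 : ℕ) ^ (n + 2) = 2 ^ (n + 2) * 2 ^ (n + 2) := by
    rw [← mul_pow]
    norm_num
  rw [h2]
  apply Nat.mul_le_mul
  · have h3 : 1 ≤ 2 ^ (n + 1) := Nat.one_le_two_pow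
    have h4 : 2 ^ (n + 2) = 2 ^ (n + 1) * 2 := pow_succ _ _
    omega
  · exact Nat.lt_two_pow_self.le

/-- The theorem on the powers of an annular word. -/
theorem count_powers {q n : ℕ} [NeZero q] (w : ZMod q → Letter n) :
    ∃ E : Finset ℕ, E.card ≤ ((2 ^ (n + 1) + 1) * (n + 2)) ^ 2 ∧ ∀ (m : ℕ) [NeZero (m * q)],
      m ∉ E → ∀ o : Pt (m * q) n → ℤˣ, IsKnot (power m w) → IsOrientation (power m w) o →
        (normalized (power m w) o = 1 ↔ annular (power m w) = core (power m w) o) := by
  classical
  by_cases hex : ∃ (m : ℕ) (_ : NeZero (m * q)) (o : Pt (m * q) n → ℤˣ), 2 ≤ m ∧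
      IsKnot (power m w) ∧ IsOrientation (power m w) o ∧ normalized (power m w) o = 1
  · obtain ⟨m₁, i₁, o₁, hm₁, hK₁, ho₁, hf₁⟩ := hex
    obtain ⟨p, hp, m', rfl⟩ := Nat.exists_prime_and_dvd (by omega : m₁ ≠ 1)
    have : Fact p.Prime := ⟨hp⟩
    have hm' : m' ≠ 0 := by
      rintro rfl
      omega
    have i₂ : NeZero (m' * q) := ⟨Nat.mul_ne_zero hm' (NeZero.ne q)⟩
    have h₁ : m' * q ∣ p * m' * q := ⟨p, by ring⟩
    have h₂ : q ∣ p * m' * q := Dvd.intro_left _ rfl
    have e1 : power (p * m') w = pullW h₁ (power m' w) := power_power w h₁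
    have e2 : power (p * m') w = pullW h₂ w := power_eq w h₂
    have hn : Even n := by
      apply even_strands (p := p) (k := 1) h₁ (by ring) le_rfl (power m' w) o₁
      rw [← e1, hf₁, map_one]
    have hodd := odd_winding o₁ hn
    have hw0 : winding o₁ ≠ 0 := by
      intro h0
      rw [h0] at hodd
      exact absurd hodd (by decide)
    rw [e2] at hK₁ ho₁
    obtain ⟨o', hoo, ho'⟩ := orientation_descend h₂ hK₁ ho₁ hw0
    obtain ⟨n', hn'⟩ := hn
    obtain ⟨E, hE1, hE2⟩ := count_matrix field eigen groupThm (MM w)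
      (pres_wordM (RingHom.id _) w) hn' (wu (writhe w o')) (wu_ne_zero _)
    refine ⟨E, hE1, fun m _ hmE o hK ho => ?_⟩
    refine ⟨fun hf => ?_, normalized_of_core _ _⟩
    have hm : 1 ≤ m := by
      rcases Nat.eq_zero_or_pos m with h | h
      · exfalso
        have := NeZero.ne (m * q)
        rw [h, zero_mul] at this
        exact this rfl
      · exact h
    have h₃ : q ∣ m * q := Dvd.intro_left _ rfl
    have e3 : power m w = pullW h₃ w := power_eq w h₃
    have hpull : IsOrientation (power m w) (pullO h₃ o') := by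
      rw [e3]
      exact compat_pull h₃ ho'
    have hwr : writhe (power m w) o = m * writhe w o' := by
      have h5 : writhe (power m w) (pullO h₃ o') = m * writhe w o' := by
        rw [e3]
        exact writhe_pull h₃ rfl w o'
      rcases orientation_unique hK ho hpull with h | h
      · rw [h, h5]
      · rw [h, ← h5]
        unfold writhe
        refine Finset.sum_congr rfl fun t _ => ?_
        simp
    have hb : bracket (power m w) = wu (m * writhe w o') := by
      rw [← hwr]
      exact (normalized_eq_one_iff _ _).mp hf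
    have h6 := relation stateThm cyc w m hn' hb
    rw [wu_nat_mul] at h6
    have h7 := hE2 m hm hmE h6
    rw [core_eq, hwr]
    apply annular_of_ptr stateThm cyc w m hn'
    rw [wu_nat_mul]
    exact h7
  · refine ⟨{1}, ?_, fun m i hmE o hK ho => ?_⟩
    · rw [Finset.card_singleton]
      exact Nat.one_le_pow _ _ (by positivity)
    · refine ⟨fun hf => ?_, normalized_of_core _ _⟩
      exfalso
      apply hex
      refine ⟨m, i, o, ?_, hK, ho, hf⟩
      have h1 : m ≠ 1 := fun h => hmE (Finset.mem_singleton.mpr h)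
      have h2 : m ≠ 0 := by
        rintro rfl
        have := NeZero.ne (0 * q)
        rw [zero_mul] at this
        exact this rfl
      omega

theorem count : Stmt_Count := by
  intro q n _ w
  obtain ⟨E, hE1, hE2⟩ := count_powers w
  exact ⟨E, hE1.trans (bound n), hE2⟩

end Pool.Agent.Per
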