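import Pool.Agent.Per.Transfer

/-!
# The blocks of the transfer matrix
-/

namespace Pool.Agent.Per

open LaurentPolynomial Pool.Agent.Helper1.PK

variable {N n : ℕ}

/-- The number of up spins. -/
def up (σ : Spin n) : ℕ := (Finset.univ.filter fun j => σ j = 1).card

theorem up_le (σ : Spin n) : up σ < n + 2 := by
  unfold up
  refine (Finset.card_le_univ _).trans_lt ?_
  rw [Fintype.card_fin]
  omega

theorem spin_eq (σ : Spin n) : spin σ = 2 * (up σ : ℤ) - (n + 1 : ℕ) := by
  unfold spin up
  rw [Finset.card_filter]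
  push_cast
  have h1 : ((n : ℤ) + 1) = ∑ j : Fin (n + 1), (1 : ℤ) := by
    simp
  rw [h1, Finset.mul_sum, ← Finset.sum_sub_distrib]
  refine Finset.sum_congr rfl fun j _ => ?_
  rcases unit_cases (σ j) with h | h <;> rw [h]
  · simp
  · rw [if_neg (by decide)]
    simp

section Pres

variable {B : Type} [CommRing B]

/-- The matrix preserves the number of up spins. -/
def Pres (M : Matrix (Spin n) (Spin n) B) : Prop := ∀ σ τ, up σ ≠ up τ → M σ τ = 0

theorem pres_one : Pres (1 : Matrix (Spin n) (Spin n) B) := by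
  intro σ τ h
  apply Matrix.one_apply_ne
  rintro rfl
  exact h rfl

theorem Pres.mul {M M' : Matrix (Spin n) (Spin n) B} (h : Pres M) (h' : Pres M') :
    Pres (M * M') := by
  intro σ τ hne
  rw [Matrix.mul_apply]
  apply Finset.sum_eq_zero
  intro ρ _
  by_cases h1 : up σ = up ρ
  · rw [h' ρ τ (by rw [← h1]; exact hne), mul_zero]
  · rw [h σ ρ h1, zero_mul]

theorem Pres.pow {M : Matrix (Spin n) (Spin n) B} (h : Pres M) (m : ℕ) : Pres (M ^ m) := by
  induction m with
  | zero => rw [pow_zero]; exact pres_one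
  | succ m ih => rw [pow_succ]; exact ih.mul h

theorem pres_list (L : List (Matrix (Spin n) (Spin n) B)) (h : ∀ M ∈ L, Pres M) :
    Pres L.prod := by
  induction L with
  | nil => exact pres_one
  | cons M L ih =>
    rw [List.prod_cons]
    exact (h M (by simp)).mul (ih fun M' hM' => h M' (by simp [hM']))

theorem spin_turn {σ τ : Spin n} {a : Fin n} (h1 : ∀ j, ¬ At a j → τ j = σ j)
    (h2 : σ a.succ = -σ a.castSucc) (h3 : τ a.succ = -τ a.castSucc) : spin σ = spin τ := by
  unfold spin
  rw [sum_at a, sum_at a, h2, h3]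
  congr 1
  · push_cast
    ring
  · refine Finset.sum_congr rfl fun j hj => ?_
    rw [h1 j (Finset.mem_filter.mp hj).2]

theorem pres_turnM (A : Bˣ) (a : Fin n) : Pres (turnM A a) := by
  intro σ τ hne
  unfold turnM
  rw [if_neg]
  rintro ⟨h1, h2, h3⟩
  apply hne
  have h4 := spin_turn h1 h2 h3
  rw [spin_eq, spin_eq] at h4
  omega

theorem pres_stepM (A : Bˣ) (a : Fin n) (k : Join) : Pres (stepM A a k) := by
  cases k
  · exact pres_one
  · intro σ τ _
    rfl
  · exact pres_turnM A a

theorem pres_wordM (φ : ℤ[T;T⁻¹] →+* B) (w : ZMod N → Letter n) : Pres (wordM φ w) := by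
  unfold wordM
  apply pres_list
  intro M hM
  obtain ⟨i, _, rfl⟩ := List.mem_map.mp hM
  intro σ τ hne
  unfold letterM
  rw [Matrix.sum_apply]
  apply Finset.sum_eq_zero
  intro k _
  rw [Matrix.smul_apply, pres_stepM _ _ _ σ τ hne, smul_zero]

/-- The block with `e` up spins. -/
def block (e : ℕ) (M : Matrix (Spin n) (Spin n) B) :
    Matrix {σ : Spin n // up σ = e} {σ : Spin n // up σ = e} B :=
  M.submatrix Subtype.val Subtype.val

theorem block_mul {e : ℕ} {M M' : Matrix (Spin n) (Spin n) B} (h : Pres M) :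
    block e (M * M') = block e M * block e M' := by
  ext σ τ
  have h1 : ∑ ρ : {ρ : Spin n // up ρ = e}, M σ.1 ρ.1 * M' ρ.1 τ.1 =
      ∑ ρ with up ρ = e, M σ.1 ρ * M' ρ τ.1 :=
    (Finset.sum_subtype (Finset.univ.filter fun ρ : Spin n => up ρ = e) (by simp)
      (fun ρ : Spin n => M σ.1 ρ * M' ρ τ.1)).symm
  show (M * M') σ.1 τ.1 = (block e M * block e M') σ τ
  rw [Matrix.mul_apply, Matrix.mul_apply]
  show _ = ∑ ρ : {ρ : Spin n // up ρ = e}, M σ.1 ρ.1 * M' ρ.1 τ.1
  rw [h1]
  symm
  apply Finset.sum_filter_of_ne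
  intro ρ _ hne
  by_contra hc
  apply hne
  rw [h σ.1 ρ (by rw [σ.2]; exact fun h2 => hc h2.symm), zero_mul]

theorem block_one (e : ℕ) : block e (1 : Matrix (Spin n) (Spin n) B) = 1 := by
  ext σ τ
  unfold block
  rw [Matrix.submatrix_apply, Matrix.one_apply, Matrix.one_apply]
  simp only [Subtype.ext_iff]

theorem block_pow {e : ℕ} {M : Matrix (Spin n) (Spin n) B} (h : Pres M) (m : ℕ) :
    block e (M ^ m) = block e M ^ m := by
  induction m with
  | zero => rw [pow_zero, pow_zero, block_one]
  | succ m ih => rw [pow_succ, pow_succ, block_mul (h.pow m), ih]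

/-- The trace of a block. -/
def ptr (e : ℕ) (M : Matrix (Spin n) (Spin n) B) : B := ∑ σ with up σ = e, M σ σ

theorem ptr_eq (e : ℕ) (M : Matrix (Spin n) (Spin n) B) : ptr e M = Matrix.trace (block e M) := by
  unfold ptr Matrix.trace
  exact Finset.sum_subtype (Finset.univ.filter fun ρ : Spin n => up ρ = e) (by simp)
      (fun ρ : Spin n => M ρ ρ)

theorem trace_twist (z : Bˣ) (M : Matrix (Spin n) (Spin n) B) :
    Matrix.trace (twist z n * M) =
      ∑ e ∈ Finset.range (n + 2), ((z ^ (2 * (e : ℤ) - (n + 1 : ℕ)) : Bˣ) : B) * ptr e M := by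
  have h1 : Matrix.trace (twist z n * M) = ∑ σ, ((z ^ spin σ : Bˣ) : B) * M σ σ := by
    unfold twist Matrix.trace
    refine Finset.sum_congr rfl fun σ _ => ?_
    rw [Matrix.diag_apply, Matrix.diagonal_mul]
  rw [h1, ← Finset.sum_fiberwise_of_maps_to (s := Finset.univ) (t := Finset.range (n + 2))
    (g := fun σ : Spin n => up σ) (fun σ _ => Finset.mem_range.mpr (up_le σ))]
  refine Finset.sum_congr rfl fun e _ => ?_
  unfold ptr
  rw [Finset.mul_sum]
  refine Finset.sum_congr rfl fun σ hσ => ?_
  rw [spin_eq, (Finset.mem_filter.mp hσ).2]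

end Pres

section Map

variable {B B' : Type} [CommRing B] [CommRing B']

theorem map_turnM (f : B →+* B') (A : Bˣ) (a : Fin n) :
    (turnM A a).map f = turnM (Units.map f.toMonoidHom A) a := by
  ext σ τ
  rw [Matrix.map_apply]
  unfold turnM
  split_ifs
  · rw [map_mul, map_intCast, ← map_zpow]
    rfl
  · rw [map_zero]

theorem map_stepM (f : B →+* B') (A : Bˣ) (a : Fin n) (k : Join) :
    (stepM A a k).map f = stepM (Units.map f.toMonoidHom A) a k := by
  cases k
  · show (1 : Matrix (Spin n) (Spin n) B).map f = 1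
    exact Matrix.map_one f (map_zero f) (map_one f)
  · show (0 : Matrix (Spin n) (Spin n) B).map f = 0
    exact Matrix.map_zero f (map_zero f)
  · exact map_turnM f A a

theorem map_wordM (f : B →+* B') (φ : ℤ[T;T⁻¹] →+* B) (w : ZMod N → Letter n) :
    (wordM φ w).map f = wordM (f.comp φ) w := by
  unfold wordM
  have h1 : ∀ L : List (Matrix (Spin n) (Spin n) B),
      L.prod.map f = (L.map fun M => M.map f).prod := by
    intro L
    induction L with
    | nil => exact Matrix.map_one f (map_zero f) (map_one f)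
    | cons M L ih => rw [List.prod_cons, List.map_cons, List.prod_cons, ← ih, Matrix.map_mul]
  rw [h1, List.map_map]
  congr 1
  apply List.map_congr_left
  intro i _
  simp only [Function.comp_apply]
  unfold letterM
  ext σ τ
  rw [Matrix.map_apply, Matrix.sum_apply, Matrix.sum_apply, map_sum]
  refine Finset.sum_congr rfl fun k _ => ?_
  rw [Matrix.smul_apply, Matrix.smul_apply, smul_eq_mul, smul_eq_mul, map_mul]
  have h2 := congrFun (congrFun (map_stepM f (unitA φ) (w (i : ZMod N)).place k) σ) τ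
  rw [Matrix.map_apply] at h2
  rw [h2]
  rfl

theorem map_block (f : B →+* B') (e : ℕ) (M : Matrix (Spin n) (Spin n) B) :
    (block e M).map f = block e (M.map f) := rfl

theorem map_ptr (f : B →+* B') (e : ℕ) (M : Matrix (Spin n) (Spin n) B) :
    f (ptr e M) = ptr e (M.map f) := by
  unfold ptr
  rw [map_sum]
  rfl

end Map

end Pool.Agent.Per
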