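import Pool.Agent.Per.Stmts

/-!
# The annular bracket as a sum over the smoothings
-/

namespace Pool.Agent.Per

open LaurentPolynomial Pool.Agent.Helper1.PK

variable {N n : ℕ}

theorem odd_card_iff [NeZero N] {w : ZMod N → Letter n} {c : ZMod N → Join}
    (hc : ∀ t, c t ≠ .swap) (q : Quot (Joined w c)) :
    Odd (Nat.card {j : Fin (n + 1) // Quot.mk (Joined w c) (0, j) = q}) ↔ wind q ≠ 0 := by
  classical
  have h1 : ((wind q : ℤ) : ZMod 2) =
      ((Nat.card {j : Fin (n + 1) // Quot.mk (Joined w c) (0, j) = q} : ℕ) : ZMod 2) := by
    rw [Nat.card_eq_fintype_card, Fintype.card_subtype, Finset.card_filter, wind, Int.cast_sum,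
      Nat.cast_sum]
    refine Finset.sum_congr rfl fun j _ => ?_
    have h3 : (-1 : ZMod 2) = 1 := by decide
    unfold tm cls
    split_ifs
    · push_cast
      rw [h3, one_pow]
    · simp
  rw [← Nat.not_even_iff_odd, ← ZMod.natCast_eq_zero_iff_even, ← h1, not_iff_not]
  constructor
  · intro h
    rcases wind_bound hc q with h2 | h2 | h2
    · exact h2
    · rw [h2] at h
      exact absurd h (by decide)
    · rw [h2] at h
      exact absurd h (by decide)
  · intro h
    rw [h]
    simp

theorem essential_eq [NeZero N] {w : ZMod N → Letter n} {c : ZMod N → Join}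
    (hc : ∀ t, c t ≠ .swap) : essential w c = ess w c := by
  classical
  unfold essential ess
  rw [Nat.card_eq_fintype_card, Fintype.card_subtype]
  congr 1
  ext q
  simp only [Finset.mem_filter, Finset.mem_univ, true_and]
  exact odd_card_iff hc q

theorem prod_weight_valid [NeZero N] {w : ZMod N → Letter n} {c : ZMod N → Join}
    (h : Valid w c) : ∏ t, weight (w t).kind (c t) = T (expo w c) := by
  have h1 : ∀ s : Finset (ZMod N), ∏ t ∈ s, weight (w t).kind (c t) =
      T (∑ t ∈ s, sg (w t).kind (c t)) := by
    classical
    intro s
    induction s using Finset.induction_on with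
    | empty => simp
    | insert t s ht ih =>
      rw [Finset.prod_insert ht, Finset.sum_insert ht, T_add, ih]
      congr 1
      have h3 := h.1 t
      have h4 := h.2 t
      cases hk : (w t).kind <;> cases hct : c t <;> rw [hk, hct] at h4 <;> rw [hct] at h3 <;>
        simp [sg, weight] at h3 h4 ⊢
  exact h1 Finset.univ

theorem prod_weight_not_valid [NeZero N] {w : ZMod N → Letter n} {c : ZMod N → Join}
    (h : ¬ Valid w c) : ∏ t, weight (w t).kind (c t) = 0 := by
  have h' : ∃ t, weight (w t).kind (c t) = 0 := by
    by_contra hne
    push Not at hne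
    apply h
    constructor
    · intro t ht
      apply hne t
      rw [ht]
      cases (w t).kind <;> simp [weight]
    · intro t ht
      by_contra hc
      apply hne t
      rw [ht]
      cases hct : c t
      · simp [weight]
      · simp [weight]
      · exact absurd hct hc
  obtain ⟨t, ht⟩ := h'
  exact Finset.prod_eq_zero (Finset.mem_univ t) ht

open Classical in
/-- The annular bracket as a sum over the smoothings. -/
theorem annular_eq [NeZero N] (w : ZMod N → Letter n) : annular w =
    ∑ c : ZMod N → Join, if Valid w c then
      Polynomial.C (T (expo w c) * (-T 2 - T (-2)) ^ ines w c) * Polynomial.X ^ ess w c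
    else 0 := by
  unfold annular
  refine Finset.sum_congr rfl fun c _ => ?_
  by_cases hv : Valid w c
  · rw [if_pos hv, prod_weight_valid hv, essential_eq hv.1]
    have h1 := ines_add_ess (w := w) (c := c)
    rw [show curves w c - ess w c = ines w c by omega]
  · rw [if_neg hv, prod_weight_not_valid hv]
    simp

/-- The value of the annular bracket at `x = -A² - A⁻²`. -/
theorem annular_eval [NeZero N] (w : ZMod N → Letter n) :
    (annular w).eval (-T 2 - T (-2)) = (-T 2 - T (-2)) * bracket w := by
  unfold annular bracket
  rw [Polynomial.eval_finsetSum, Finset.mul_sum]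
  refine Finset.sum_congr rfl fun c _ => ?_
  have h1 : essential w c ≤ curves w c := by
    unfold essential curves
    exact Nat.card_le_card_of_injective (fun q => q.1) Subtype.val_injective
  have h2 := curves_pos w c
  rw [Polynomial.eval_mul, Polynomial.eval_C, Polynomial.eval_pow, Polynomial.eval_X, mul_assoc,
    ← pow_add, Nat.sub_add_cancel h1]
  have h3 : curves w c = (curves w c - 1) + 1 := by omega
  conv_lhs => rw [h3, pow_succ]
  ring

end Pool.Agent.Per
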