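import Pool.Agent.Per.Stmts

/-!
# Rescaled Chebyshev polynomials, and powers of the loop value
-/

namespace Pool.Agent.Per

open LaurentPolynomial Pool.Agent.Helper1.PK

section Cheb

variable (R : Type*) [CommRing R]

theorem cheb_monic [Nontrivial R] (m : ℕ) :
    ((Polynomial.Chebyshev.C R (m + 1 : ℕ)).Monic ∧
      (Polynomial.Chebyshev.C R (m + 1 : ℕ)).natDegree = m + 1) ∧
    ((Polynomial.Chebyshev.C R (m + 2 : ℕ)).Monic ∧
      (Polynomial.Chebyshev.C R (m + 2 : ℕ)).natDegree = m + 2) := by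
  have step : ∀ k : ℕ, (Polynomial.Chebyshev.C R (k + 1 : ℕ)).Monic →
      (Polynomial.Chebyshev.C R (k + 1 : ℕ)).natDegree = k + 1 →
      (Polynomial.Chebyshev.C R (k : ℕ)).natDegree ≤ k →
      (Polynomial.Chebyshev.C R (k + 2 : ℕ)).Monic ∧
        (Polynomial.Chebyshev.C R (k + 2 : ℕ)).natDegree = k + 2 := by
    intro k h1 h2 h3
    have e : Polynomial.Chebyshev.C R ((k + 2 : ℕ) : ℤ) = Polynomial.X *
        Polynomial.Chebyshev.C R ((k + 1 : ℕ) : ℤ) - Polynomial.Chebyshev.C R ((k : ℕ) : ℤ) := by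
      have := Polynomial.Chebyshev.C_add_two R (k : ℤ)
      push_cast
      exact this
    have h4 : (Polynomial.X * Polynomial.Chebyshev.C R ((k + 1 : ℕ) : ℤ)).Monic :=
      Polynomial.monic_X.mul h1
    have h5 : (Polynomial.X * Polynomial.Chebyshev.C R ((k + 1 : ℕ) : ℤ)).natDegree = k + 2 := by
      rw [Polynomial.monic_X.natDegree_mul h1, Polynomial.natDegree_X, h2]
      ring
    have h6 : (Polynomial.Chebyshev.C R ((k : ℕ) : ℤ)).degree <
        (Polynomial.X * Polynomial.Chebyshev.C R ((k + 1 : ℕ) : ℤ)).degree := by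
      rw [Polynomial.degree_eq_natDegree h4.ne_zero, h5]
      refine (Polynomial.degree_le_of_natDegree_le h3).trans_lt ?_
      exact_mod_cast (by omega : k < k + 2)
    rw [e]
    refine ⟨h4.sub_of_left h6, ?_⟩
    rw [Polynomial.natDegree_sub_eq_left_of_natDegree_lt, h5]
    rw [h5]
    omega
  induction m with
  | zero =>
    have h1 : (Polynomial.Chebyshev.C R ((0 + 1 : ℕ) : ℤ)).Monic := by
      simp only [zero_add, Nat.cast_one, Polynomial.Chebyshev.C_one]
      exact Polynomial.monic_X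
    have h2 : (Polynomial.Chebyshev.C R ((0 + 1 : ℕ) : ℤ)).natDegree = 0 + 1 := by
      simp only [zero_add, Nat.cast_one, Polynomial.Chebyshev.C_one, Polynomial.natDegree_X]
    refine ⟨⟨h1, h2⟩, step 0 h1 h2 ?_⟩
    simp only [Nat.cast_zero, Polynomial.Chebyshev.C_zero]
    exact le_of_eq (Polynomial.natDegree_ofNat 2)
  | succ m ih =>
    obtain ⟨⟨h1, h2⟩, h3, h4⟩ := ih
    exact ⟨⟨h3, h4⟩, step (m + 1) h3 h4 h2.le⟩

theorem cheb_eval (u : Rˣ) (m : ℕ) :
    ((Polynomial.Chebyshev.C R (m : ℕ)).eval ((u : R) + ((u⁻¹ : Rˣ) : R)) =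
      ((u ^ m : Rˣ) : R) + (((u⁻¹) ^ m : Rˣ) : R)) ∧
    ((Polynomial.Chebyshev.C R (m + 1 : ℕ)).eval ((u : R) + ((u⁻¹ : Rˣ) : R)) =
      ((u ^ (m + 1) : Rˣ) : R) + (((u⁻¹) ^ (m + 1) : Rˣ) : R)) := by
  induction m with
  | zero =>
    constructor
    · simp only [Nat.cast_zero, Polynomial.Chebyshev.C_zero, pow_zero, Units.val_one]
      rw [Polynomial.eval_ofNat]
      norm_num
    · simp
  | succ m ih =>
    refine ⟨ih.2, ?_⟩
    have e : Polynomial.Chebyshev.C R ((m + 1 + 1 : ℕ) : ℤ) = Polynomial.X *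
        Polynomial.Chebyshev.C R ((m + 1 : ℕ) : ℤ) - Polynomial.Chebyshev.C R ((m : ℕ) : ℤ) := by
      have := Polynomial.Chebyshev.C_add_two R (m : ℤ)
      push_cast
      rw [show (m : ℤ) + 1 + 1 = m + 2 by ring]
      exact this
    rw [e, Polynomial.eval_sub, Polynomial.eval_mul, Polynomial.eval_X, ih.1, ih.2]
    have h1 : (u : R) * ((u⁻¹ : Rˣ) : R) = 1 := by simp
    push_cast
    ring_nf
    have h2 : (u : R) * (u : R) ^ m * ((u⁻¹ : Rˣ) : R) = (u : R) ^ m := by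
      rw [mul_right_comm, h1, one_mul]
    have h3 : (u : R) * ((u⁻¹ : Rˣ) : R) * ((u⁻¹ : Rˣ) : R) ^ m = ((u⁻¹ : Rˣ) : R) ^ m := by
      rw [h1, one_mul]
    linear_combination h2 + h3

end Cheb

end Pool.Agent.Per
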