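import Pool.Agent.Per.Blocks

/-!
# The relation between the traces of the blocks
-/

namespace Pool.Agent.Per

open LaurentPolynomial Pool.Agent.Helper1.PK

variable {N M n : ℕ}

/-- The unit `(-A³)^writhe`. -/
noncomputable def wu (a : ℤ) : ℤ[T;T⁻¹] := C (((-1 : ℤˣ) ^ a : ℤˣ) : ℤ) * T (3 * a)

theorem wu_add (a b : ℤ) : wu (a + b) = wu a * wu b := by
  unfold wu
  rw [zpow_add, Units.val_mul, map_mul, mul_add, T_add]
  ring

theorem wu_zero : wu 0 = 1 := by
  unfold wu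
  simp

theorem wu_mul_neg (a : ℤ) : wu a * wu (-a) = 1 := by
  rw [← wu_add, add_neg_cancel, wu_zero]

theorem wu_ne_zero (a : ℤ) : wu a ≠ 0 := by
  intro h
  have := wu_mul_neg a
  rw [h, zero_mul] at this
  exact zero_ne_one this

theorem wu_nat_mul (m : ℕ) (a : ℤ) : wu (m * a) = wu a ^ m := by
  induction m with
  | zero => simp [wu_zero]
  | succ m ih =>
    rw [pow_succ, ← ih, ← wu_add]
    congr 1
    push_cast
    ring

theorem loop_ne_zero : (-T 2 - T (-2) : ℤ[T;T⁻¹]) ≠ 0 := by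
  intro h
  have h1 := congrArg (fun f : ℤ[T;T⁻¹] => f.coeff 2) h
  simp at h1

theorem core_eq [NeZero N] (w : ZMod N → Letter n) (o : Pt N n → ℤˣ) :
    core w o = Polynomial.C (wu (writhe w o)) * Polynomial.X := rfl

theorem normalized_eq_one_iff [NeZero N] (w : ZMod N → Letter n) (o : Pt N n → ℤˣ) :
    normalized w o = 1 ↔ bracket w = wu (writhe w o) := by
  have h1 : normalized w o = wu (-(writhe w o)) * bracket w := by
    unfold normalized wu
    rw [zpow_neg]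
    congr 2
    · congr 2
      rcases unit_cases ((-1 : ℤˣ) ^ writhe w o) with h | h <;> rw [h] <;> rfl
    · ring_nf
  rw [h1]
  constructor
  · intro h
    calc bracket w = (wu (writhe w o) * wu (-(writhe w o))) * bracket w := by
          rw [wu_mul_neg, one_mul]
      _ = wu (writhe w o) * (wu (-(writhe w o)) * bracket w) := by ring
      _ = _ := by rw [h, mul_one]
  · intro h
    rw [h, mul_comm, wu_mul_neg]

/-- If the annular bracket is that of the core then `f = 1`. -/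
theorem normalized_of_core [NeZero N] (w : ZMod N → Letter n) (o : Pt N n → ℤˣ)
    (h : annular w = core w o) : normalized w o = 1 := by
  rw [normalized_eq_one_iff]
  have h1 := annular_eval w
  rw [h, core_eq, Polynomial.eval_mul, Polynomial.eval_C, Polynomial.eval_X] at h1
  have h2 : (-T 2 - T (-2) : ℤ[T;T⁻¹]) * (bracket w - wu (writhe w o)) = 0 := by
    rw [mul_sub, ← h1]
    ring
  exact sub_eq_zero.mp ((mul_eq_zero.mp h2).resolve_left loop_ne_zero)

/-- The transfer matrix over the integers. -/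
noncomputable def MM (w : ZMod N → Letter n) : Matrix (Spin n) (Spin n) ℤ[T;T⁻¹] :=
  wordM (RingHom.id _) w

/-- The relation given by `f = 1`. -/
theorem relation (h1 : Stmt_State) (h2 : Stmt_Cyc) [NeZero N] (w : ZMod N → Letter n) (m : ℕ)
    [NeZero (m * N)] {n' : ℕ} (hn : n = n' + n') {a : ℤ}
    (hf : bracket (power m w) = wu a) :
    ∑ e ∈ Finset.range (n + 2), T 4 ^ e * ptr e (MM w ^ m) = (T 4 ^ n' + T 4 ^ (n' + 1)) * wu a := by
  set z : (ℤ[T;T⁻¹])ˣ := -tU ℤ 2 with hz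
  have e1 := transfer h1 h2 (RingHom.id ℤ[T;T⁻¹]) z (power m w)
  have e2 : ((z : ℤ[T;T⁻¹]) + ((z⁻¹ : (ℤ[T;T⁻¹])ˣ) : ℤ[T;T⁻¹])) = -T 2 - T (-2) := by
    rw [hz, Units.val_neg, tU_val, inv_neg, Units.val_neg, tU_inv, tU_val]
    ring
  rw [e2, Polynomial.eval₂_id, annular_eval, hf, wordM_power, trace_twist] at e1
  have e3 : ∀ e ∈ Finset.range (n + 2), ((z ^ (2 * (e : ℤ) - (n + 1 : ℕ)) : (ℤ[T;T⁻¹])ˣ) : ℤ[T;T⁻¹]) *
      ptr e (wordM (RingHom.id _) w ^ m) = -T (-(2 * (n + 1 : ℕ))) *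
        (T 4 ^ e * ptr e (MM w ^ m)) := by
    intro e _
    have e4 : ((z ^ (2 * (e : ℤ) - (n + 1 : ℕ)) : (ℤ[T;T⁻¹])ˣ) : ℤ[T;T⁻¹]) =
        -T (-(2 * (n + 1 : ℕ))) * T 4 ^ e := by
      have h3 : Odd (2 * (e : ℤ) - (n + 1 : ℕ)) := by
        rw [hn]
        push_cast
        exact ⟨(e : ℤ) - n' - 1, by ring⟩
      rw [hz, h3.neg_zpow, Units.val_neg, tU_zpow_val, T_pow, neg_mul, ← T_add]
      congr 2
      push_cast
      ring
    rw [e4, mul_assoc]
    rfl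
  rw [Finset.sum_congr rfl e3, ← Finset.mul_sum] at e1
  have e5 : (T (2 * (n + 1 : ℕ)) * T (-(2 * (n + 1 : ℕ))) : ℤ[T;T⁻¹]) = 1 := by
    rw [← T_add]
    simp
  have e6 : (T 4 ^ n' + T 4 ^ (n' + 1) : ℤ[T;T⁻¹]) =
      -T (2 * (n + 1 : ℕ)) * (-T 2 - T (-2)) := by
    have e7 : (T (2 * (n + 1 : ℕ)) * T 2 : ℤ[T;T⁻¹]) = T 4 ^ (n' + 1) := by
      rw [← T_add, T_pow, hn]
      congr 1
      push_cast
      ring
    have e8 : (T (2 * (n + 1 : ℕ)) * T (-2) : ℤ[T;T⁻¹]) = T 4 ^ n' := by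
      rw [← T_add, T_pow, hn]
      congr 1
      push_cast
      ring
    rw [← e7, ← e8]
    ring
  rw [e6, mul_assoc, e1]
  linear_combination (-(∑ e ∈ Finset.range (n + 2), T 4 ^ e * ptr e (MM w ^ m))) * e5

/-- The substitution `x = z + z⁻¹` is injective. -/
theorem subst_inj (P : Polynomial ℤ[T;T⁻¹])
    (h : P.eval₂ (C : ℤ[T;T⁻¹] →+* (ℤ[T;T⁻¹])[T;T⁻¹]) (T 1 + T (-1)) = 0) : P = 0 := by
  by_contra hP
  set D := P.natDegree with hD
  set Q : Polynomial ℤ[T;T⁻¹] := ∑ i ∈ Finset.range (D + 1),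
    Polynomial.C (P.coeff i) * ((Polynomial.X ^ 2 + 1) ^ i * Polynomial.X ^ (D - i)) with hQ
  have h1 : Polynomial.toLaurent Q = T D * P.eval₂ C (T 1 + T (-1)) := by
    rw [Polynomial.eval₂_eq_sum_range, hQ, map_sum, Finset.mul_sum]
    refine Finset.sum_congr rfl fun i hi => ?_
    have hi' : i ≤ D := Nat.lt_succ_iff.mp (Finset.mem_range.mp hi)
    have e1 : (T 2 + 1 : (ℤ[T;T⁻¹])[T;T⁻¹]) = T 1 * (T 1 + T (-1)) := by
      rw [mul_add, ← T_add, ← T_add]
      norm_num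
    rw [map_mul, map_mul, Polynomial.toLaurent_C, Polynomial.toLaurent_X_pow, map_pow, map_add,
      map_one, Polynomial.toLaurent_X_pow]
    rw [show ((2 : ℕ) : ℤ) = 2 from rfl, e1, mul_pow, T_pow]
    have e2 : (T (D : ℤ) : (ℤ[T;T⁻¹])[T;T⁻¹]) = T (i * 1) * T ((D - i : ℕ) : ℤ) := by
      rw [← T_add]
      congr 1
      push_cast [Nat.cast_sub hi']
      ring
    rw [e2]
    ring
  rw [h, mul_zero] at h1
  have h2 : Q = 0 := Polynomial.toLaurent_eq_zero.mp h1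
  have h3 : Q.coeff (2 * D) = P.coeff D := by
    rw [hQ, Polynomial.finsetSum_coeff, Finset.sum_eq_single D]
    · rw [Polynomial.coeff_C_mul, Nat.sub_self, pow_zero, mul_one]
      have hm : (Polynomial.X ^ 2 + 1 : Polynomial ℤ[T;T⁻¹]).Monic :=
        Polynomial.monic_X_pow_add (by simp)
      have hd : ((Polynomial.X ^ 2 + 1 : Polynomial ℤ[T;T⁻¹]) ^ D).natDegree = 2 * D := by
        rw [hm.natDegree_pow]
        have := Polynomial.natDegree_X_pow_add_C (n := 2) (r := (1 : ℤ[T;T⁻¹]))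
        rw [map_one] at this
        rw [this, mul_comm]
      have := (hm.pow D).coeff_natDegree
      rw [hd] at this
      rw [this, mul_one]
    · intro i hi hne
      have hi' : i ≤ D := Nat.lt_succ_iff.mp (Finset.mem_range.mp hi)
      apply Polynomial.coeff_eq_zero_of_natDegree_lt
      refine (Polynomial.natDegree_C_mul_le _ _).trans_lt ?_
      refine Polynomial.natDegree_mul_le.trans_lt ?_
      have hm : (Polynomial.X ^ 2 + 1 : Polynomial ℤ[T;T⁻¹]).Monic :=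
        Polynomial.monic_X_pow_add (by simp)
      have hd : ((Polynomial.X ^ 2 + 1 : Polynomial ℤ[T;T⁻¹]) ^ i).natDegree = i * 2 := by
        rw [hm.natDegree_pow]
        have := Polynomial.natDegree_X_pow_add_C (n := 2) (r := (1 : ℤ[T;T⁻¹]))
        rw [map_one] at this
        rw [this]
      rw [hd, Polynomial.natDegree_X_pow]
      omega
    · intro hne
      exact absurd (Finset.mem_range.mpr (Nat.lt_succ_self D)) hne
  rw [h2, Polynomial.coeff_zero] at h3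
  exact hP (Polynomial.leadingCoeff_eq_zero.mp h3.symm)

/-- The annular bracket from the traces of the blocks. -/
theorem annular_of_ptr (h1 : Stmt_State) (h2 : Stmt_Cyc) [NeZero N] (w : ZMod N → Letter n)
    (m : ℕ) [NeZero (m * N)] {n' : ℕ} (hn : n = n' + n') {a : ℤ}
    (h : ∀ e < n + 2, ptr e (MM w ^ m) = (if e = n' ∨ e = n' + 1 then 1 else 0) * wu a) :
    annular (power m w) = Polynomial.C (wu a) * Polynomial.X := by
  apply sub_eq_zero.mp
  apply subst_inj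
  set z : ((ℤ[T;T⁻¹])[T;T⁻¹])ˣ := tU ℤ[T;T⁻¹] 1 with hz
  have e1 := transfer h1 h2 (C : ℤ[T;T⁻¹] →+* (ℤ[T;T⁻¹])[T;T⁻¹]) z (power m w)
  have e2 : ((z : (ℤ[T;T⁻¹])[T;T⁻¹]) + ((z⁻¹ : ((ℤ[T;T⁻¹])[T;T⁻¹])ˣ) : (ℤ[T;T⁻¹])[T;T⁻¹])) =
      T 1 + T (-1) := by
    rw [hz, tU_inv, tU_val, tU_val]
  rw [e2, wordM_power, trace_twist] at e1
  rw [Polynomial.eval₂_sub, e1, Polynomial.eval₂_mul, Polynomial.eval₂_C, Polynomial.eval₂_X,
    sub_eq_zero]
  have e3 : wordM (C : ℤ[T;T⁻¹] →+* (ℤ[T;T⁻¹])[T;T⁻¹]) w ^ m =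
      (MM w ^ m).map (C : ℤ[T;T⁻¹] →+* (ℤ[T;T⁻¹])[T;T⁻¹]) := by
    unfold MM
    rw [Matrix.map_pow, map_wordM]
    rfl
  have e4 : ∀ e ∈ Finset.range (n + 2),
      ((z ^ (2 * (e : ℤ) - (n + 1 : ℕ)) : ((ℤ[T;T⁻¹])[T;T⁻¹])ˣ) : (ℤ[T;T⁻¹])[T;T⁻¹]) *
        ptr e (wordM (C : ℤ[T;T⁻¹] →+* (ℤ[T;T⁻¹])[T;T⁻¹]) w ^ m) =
      if e = n' ∨ e = n' + 1 then T (2 * (e : ℤ) - (n + 1 : ℕ)) * C (wu a) else 0 := by
    intro e he
    rw [e3, ← map_ptr, h e (Finset.mem_range.mp he), hz, tU_zpow_val, one_mul]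
    split_ifs
    · rw [one_mul]
    · rw [zero_mul, map_zero, mul_zero]
  rw [Finset.sum_congr rfl e4, ← Finset.sum_filter]
  have e5 : (Finset.range (n + 2)).filter (fun e => e = n' ∨ e = n' + 1) = {n', n' + 1} := by
    ext e
    simp only [Finset.mem_filter, Finset.mem_range, Finset.mem_insert, Finset.mem_singleton]
    omega
  rw [e5, Finset.sum_pair (by omega), ← add_mul, mul_comm]
  congr 1
  rw [add_comm]
  congr 2
  · push_cast
    omega
  · push_cast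
    omega

end Pool.Agent.Per
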