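import Pool.Agent.Per.CountA

/-!
# Counting the exceptional exponents
-/

namespace Pool.Agent.Per

open LaurentPolynomial Pool.Agent.Helper1.PK

variable {n : ℕ}

theorem card_spin (n : ℕ) : Fintype.card (Spin n) = 2 ^ (n + 1) := by
  rw [Fintype.card_fun, Fintype.card_fin]
  rfl

open Classical in
theorem eigenvalues (hF : Stmt_Field) (hE : Stmt_Eigen) (M : Matrix (Spin n) (Spin n) ℤ[T;T⁻¹])
    (hM : Pres M) :
    ∃ (K : Type) (_ : Field K) (_ : CharZero K) (_ : Differential K) (φ : ℤ[T;T⁻¹] →+* K)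
      (l : Spin n → K), Function.Injective φ ∧ Differential.deriv (φ (T 4)) = 1 ∧
        ∀ e < n + 2, ∀ m : ℕ, φ (ptr e (M ^ m)) = ∑ σ with up σ = e, l σ ^ m := by
  obtain ⟨K, i1, i2, i3, φ, hinj, hder, hsp⟩ := hF
    (∏ e ∈ Finset.range (n + 2), (block e M).charpoly)
    (Polynomial.monic_prod_of_monic _ _ fun e _ => Matrix.charpoly_monic _)
  have h1 : ∀ e < n + 2, ∃ l : {σ : Spin n // up σ = e} → K, ∀ m : ℕ,
      Matrix.trace ((block e M).map φ ^ m) = ∑ s, l s ^ m := by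
    intro e he
    apply hE
    rw [Matrix.charpoly_map]
    have h2 : (block e M).charpoly.map φ ∣
        (∏ e ∈ Finset.range (n + 2), (block e M).charpoly).map φ := by
      apply Polynomial.map_dvd
      exact Finset.dvd_prod_of_mem (fun e => (block e M).charpoly) (Finset.mem_range.mpr he)
    refine hsp.of_dvd ?_ h2
    apply Polynomial.Monic.ne_zero
    apply Polynomial.Monic.map
    exact Polynomial.monic_prod_of_monic _ _ fun e _ => Matrix.charpoly_monic _
  have h1' : ∀ e, ∃ l : {σ : Spin n // up σ = e} → K, e < n + 2 → ∀ m : ℕ,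
      Matrix.trace ((block e M).map φ ^ m) = ∑ s, l s ^ m := by
    intro e
    by_cases he : e < n + 2
    · obtain ⟨l, hl⟩ := h1 e he
      exact ⟨l, fun _ => hl⟩
    · exact ⟨fun _ => 0, fun h => absurd h he⟩
  choose l hl using h1'
  refine ⟨K, i1, i2, i3, φ, fun σ => l (up σ) ⟨σ, rfl⟩, hinj, hder, ?_⟩
  intro e he m
  have h3 : φ (ptr e (M ^ m)) = Matrix.trace ((block e M).map φ ^ m) := by
    rw [map_ptr, ptr_eq, ← map_block, block_pow hM, Matrix.map_pow]
  rw [h3, hl e he m]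
  have h4 : ∑ σ with up σ = e, l (up σ) ⟨σ, rfl⟩ ^ m =
      ∑ σ : {σ : Spin n // up σ = e}, l (up σ.1) ⟨σ.1, rfl⟩ ^ m :=
    Finset.sum_subtype (Finset.univ.filter fun ρ : Spin n => up ρ = e)
      (p := fun ρ => up ρ = e) (by simp) (fun σ : Spin n => l (up σ) ⟨σ, rfl⟩ ^ m)
  refine Eq.trans ?_ h4.symm
  refine Finset.sum_congr rfl fun σ _ => ?_
  obtain ⟨σ, hσ⟩ := σ
  subst hσ
  rfl

open Classical in
theorem count_matrix (hF : Stmt_Field) (hE : Stmt_Eigen) (hG : Stmt_Group)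
    (M : Matrix (Spin n) (Spin n) ℤ[T;T⁻¹]) (hM : Pres M) {n' : ℕ} (hn : n = n' + n')
    (u : ℤ[T;T⁻¹]) (hu : u ≠ 0) :
    ∃ E : Finset ℕ, E.card ≤ ((2 ^ (n + 1) + 1) * (n + 2)) ^ 2 ∧ ∀ m : ℕ, 1 ≤ m → m ∉ E →
      ∑ e ∈ Finset.range (n + 2), T 4 ^ e * ptr e (M ^ m) = (T 4 ^ n' + T 4 ^ (n' + 1)) * u ^ m →
      ∀ e < n + 2, ptr e (M ^ m) = (if e = n' ∨ e = n' + 1 then 1 else 0) * u ^ m := by
  obtain ⟨K, i1, i2, i3, φ, l, hinj, hder, hl⟩ := eigenvalues hF hE M hM
  let ι : Type := {σ : Spin n // l σ ≠ 0} ⊕ Bool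
  let x : ι → K := Sum.elim (fun σ => l σ.1) (fun _ => φ u)
  let c : ι → K := Sum.elim (fun _ => 1) (fun _ => -1)
  let ee : ι → Fin (n + 2) := Sum.elim (fun σ => ⟨up σ.1, up_le σ.1⟩)
    (fun b => if b then ⟨n' + 1, by omega⟩ else ⟨n', by omega⟩)
  have hx : ∀ i, x i ≠ 0 := by
    rintro (⟨σ, hσ⟩ | b)
    · exact hσ
    · show φ u ≠ 0
      intro h
      apply hu
      apply hinj
      rw [h, map_zero]
  have hc : ∀ i, Differential.deriv (c i) = 0 := by
    rintro (σ | b)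
    · show Differential.deriv (1 : K) = 0
      exact Derivation.map_one_eq_zero _
    · show Differential.deriv (-1 : K) = 0
      rw [map_neg, Derivation.map_one_eq_zero, neg_zero]
  have hcard : (Finset.univ.image fun i => Differential.logDeriv (x i)).card ≤
      2 ^ (n + 1) + 1 := by
    have h1 : (Finset.univ.image fun i => Differential.logDeriv (x i)) ⊆
        insert (Differential.logDeriv (φ u)) ((Finset.univ : Finset (Spin n)).image
          fun σ => Differential.logDeriv (l σ)) := by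
      intro y hy
      obtain ⟨i, _, rfl⟩ := Finset.mem_image.mp hy
      rcases i with σ | b
      · exact Finset.mem_insert_of_mem (Finset.mem_image.mpr ⟨σ.1, Finset.mem_univ _, rfl⟩)
      · exact Finset.mem_insert_self _ _
    refine (Finset.card_le_card h1).trans ((Finset.card_insert_le _ _).trans ?_)
    have h2 := Finset.card_image_le (s := (Finset.univ : Finset (Spin n)))
      (f := fun σ => Differential.logDeriv (l σ))
    rw [Finset.card_univ, card_spin] at h2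
    omega
  obtain ⟨E, hE1, hE2⟩ := hG K (φ (T 4)) hder ι (2 ^ (n + 1) + 1) (n + 2) x c ee hx hc hcard
  refine ⟨E, hE1, fun m hm hmE hrel => ?_⟩
  -- the sums over the eigenvalues which are not zero
  have hs : ∀ f : Spin n → K, ∑ σ : {σ : Spin n // l σ ≠ 0}, f σ.1 * l σ.1 ^ m =
      ∑ σ, f σ * l σ ^ m := by
    intro f
    rw [← Finset.sum_subtype (Finset.univ.filter fun σ : Spin n => l σ ≠ 0)
      (p := fun σ => l σ ≠ 0) (by simp) (fun σ : Spin n => f σ * l σ ^ m)]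
    apply Finset.sum_filter_of_ne
    intro σ _ hne h0
    apply hne
    rw [h0, zero_pow (by omega), mul_zero]
  have h1 : ∑ i, c i * φ (T 4) ^ (ee i : ℕ) * x i ^ m = 0 := by
    rw [Fintype.sum_sum_type]
    have h2 : ∑ σ : {σ : Spin n // l σ ≠ 0}, c (Sum.inl σ) * φ (T 4) ^ (ee (Sum.inl σ) : ℕ) *
        x (Sum.inl σ) ^ m = φ (∑ e ∈ Finset.range (n + 2), T 4 ^ e * ptr e (M ^ m)) := by
      have h3 : ∑ σ : {σ : Spin n // l σ ≠ 0}, c (Sum.inl σ) * φ (T 4) ^ (ee (Sum.inl σ) : ℕ) *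
        x (Sum.inl σ) ^ m = ∑ σ : {σ : Spin n // l σ ≠ 0}, φ (T 4) ^ up σ.1 * l σ.1 ^ m := by
        refine Finset.sum_congr rfl fun σ _ => ?_
        show 1 * φ (T 4) ^ up σ.1 * l σ.1 ^ m = _
        rw [one_mul]
      rw [h3, hs (fun σ => φ (T 4) ^ up σ), map_sum,
        ← Finset.sum_fiberwise_of_maps_to (s := Finset.univ) (t := Finset.range (n + 2))
        (g := fun σ : Spin n => up σ) (fun σ _ => Finset.mem_range.mpr (up_le σ))]
      refine Finset.sum_congr rfl fun e he => ?_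
      rw [map_mul, map_pow, hl e (Finset.mem_range.mp he), Finset.mul_sum]
      refine Finset.sum_congr rfl fun σ hσ => ?_
      rw [(Finset.mem_filter.mp hσ).2]
    have h4 : ∑ b : Bool, c (Sum.inr b) * φ (T 4) ^ (ee (Sum.inr b) : ℕ) * x (Sum.inr b) ^ m =
        -φ ((T 4 ^ n' + T 4 ^ (n' + 1)) * u ^ m) := by
      rw [Fintype.sum_bool]
      show -1 * φ (T 4) ^ (n' + 1) * φ u ^ m + -1 * φ (T 4) ^ n' * φ u ^ m = _
      rw [map_mul, map_add, map_pow, map_pow, map_pow]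
      ring
    rw [h2, h4, hrel]
    ring
  intro e he
  have h5 := hE2 m hm hmE h1 ⟨e, he⟩
  apply hinj
  rw [Finset.sum_filter, Fintype.sum_sum_type] at h5
  have h6 : ∑ σ : {σ : Spin n // l σ ≠ 0}, (if ee (Sum.inl σ) = ⟨e, he⟩ then
      c (Sum.inl σ) * x (Sum.inl σ) ^ m else 0) = φ (ptr e (M ^ m)) := by
    have h7 : ∑ σ : {σ : Spin n // l σ ≠ 0}, (if ee (Sum.inl σ) = ⟨e, he⟩ then
        c (Sum.inl σ) * x (Sum.inl σ) ^ m else 0) =
        ∑ σ : {σ : Spin n // l σ ≠ 0}, (if up σ.1 = e then 1 else 0) * l σ.1 ^ m := by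
      refine Finset.sum_congr rfl fun σ _ => ?_
      have h8 : (ee (Sum.inl σ) = ⟨e, he⟩) ↔ up σ.1 = e := by
        show ((⟨up σ.1, up_le σ.1⟩ : Fin (n + 2)) = ⟨e, he⟩) ↔ up σ.1 = e
        rw [Fin.mk.injEq]
      by_cases h9 : up σ.1 = e
      · rw [if_pos (h8.mpr h9), if_pos h9]
        rfl
      · rw [if_neg (fun h => h9 (h8.mp h)), if_neg h9, zero_mul]
    rw [h7, hs (fun σ => if up σ = e then 1 else 0), hl e he, Finset.sum_filter]
    refine Finset.sum_congr rfl fun σ _ => ?_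
    split_ifs
    · rw [one_mul]
    · rw [zero_mul]
  have h10 : ∑ b : Bool, (if ee (Sum.inr b) = ⟨e, he⟩ then
      c (Sum.inr b) * x (Sum.inr b) ^ m else 0) =
        -φ ((if e = n' ∨ e = n' + 1 then 1 else 0) * u ^ m) := by
    rw [Fintype.sum_bool]
    have q1 : (ee (Sum.inr true) = ⟨e, he⟩) ↔ n' + 1 = e := by
      show ((⟨n' + 1, by omega⟩ : Fin (n + 2)) = ⟨e, he⟩) ↔ n' + 1 = e
      rw [Fin.mk.injEq]
    have q2 : (ee (Sum.inr false) = ⟨e, he⟩) ↔ n' = e := by
      show ((⟨n', by omega⟩ : Fin (n + 2)) = ⟨e, he⟩) ↔ n' = e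
      rw [Fin.mk.injEq]
    have q3 : c (Sum.inr true) * x (Sum.inr true) ^ m = -1 * φ u ^ m := rfl
    have q4 : c (Sum.inr false) * x (Sum.inr false) ^ m = -1 * φ u ^ m := rfl
    rw [q3, q4, map_mul, map_pow]
    by_cases h11 : n' + 1 = e
    · rw [if_pos (q1.mpr h11), if_neg (fun h => by have := q2.mp h; omega),
        if_pos (Or.inr h11.symm), map_one]
      ring
    · by_cases h12 : n' = e
      · rw [if_neg (fun h => h11 (q1.mp h)), if_pos (q2.mpr h12), if_pos (Or.inl h12.symm),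
          map_one]
        ring
      · rw [if_neg (fun h => h11 (q1.mp h)), if_neg (fun h => h12 (q2.mp h)),
          if_neg (by omega), map_zero]
        ring
  rw [h6, h10] at h5
  exact add_neg_eq_zero.mp h5

end Pool.Agent.Per
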