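import Pool.Agent.Helper1.PK.Quot

/-!
# The Kauffman bracket of the annulus, and its vertex model

Definitions for the theorem on powers of annular words.
-/

namespace Pool.Agent.Per

open LaurentPolynomial Pool.Agent.Helper1.PK

variable {N n : ℕ}

/-- The number of closed curves made by the joins `c` which meet level `0` in an odd number of
points.  When the curves do not cross each other these are the curves which go around the
annulus. -/
noncomputable def essential (w : ZMod N → Letter n) (c : ZMod N → Join) : ℕ :=
  Nat.card {q : Quot (Joined w c) //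
    Odd (Nat.card {j : Fin (n + 1) // Quot.mk (Joined w c) (0, j) = q})}

/-- The Kauffman bracket of the closed diagram in the annulus: an inessential curve counts
`-A² - A⁻²`, an essential curve counts the variable `x`. -/
noncomputable def annular [NeZero N] (w : ZMod N → Letter n) : Polynomial ℤ[T;T⁻¹] :=
  ∑ c : ZMod N → Join, Polynomial.C ((∏ t, weight (w t).kind (c t)) *
    (-T 2 - T (-2)) ^ (curves w c - essential w c)) * Polynomial.X ^ essential w c

/-- The value of the annular bracket on a diagram of the core of the annulus with the same writhe: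
`(-A³)^writhe x`. -/
noncomputable def core [NeZero N] (w : ZMod N → Letter n) (o : Pt N n → ℤˣ) :
    Polynomial ℤ[T;T⁻¹] :=
  Polynomial.C (C (((-1 : ℤˣ) ^ writhe w o : ℤˣ) : ℤ) * T (3 * writhe w o)) * Polynomial.X

/-! ### The vertex model -/

/-- The spin states of a level. -/
abbrev Spin (n : ℕ) : Type := Fin (n + 1) → ℤˣ

section Model

variable {B : Type*} [CommRing B]

/-- The loop value `-A² - A⁻²`. -/
def loopv (A : Bˣ) : B := -((A ^ (2 : ℤ) : Bˣ) : B) - ((A ^ (-2 : ℤ) : Bˣ) : B)

/-- The matrix of the turnback at the strands `a`, `a + 1`. -/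
def turnM (A : Bˣ) {n : ℕ} (a : Fin n) : Matrix (Spin n) (Spin n) B := fun σ τ =>
  if (∀ j, ¬ At a j → τ j = σ j) ∧ σ a.succ = -σ a.castSucc ∧ τ a.succ = -τ a.castSucc then
    (((-(σ a.castSucc * τ a.castSucc) : ℤˣ) : ℤ) : B) *
      ((A ^ ((σ a.castSucc : ℤ) + (τ a.castSucc : ℤ)) : Bˣ) : B)
  else 0

/-- The matrix of a join. -/
def stepM (A : Bˣ) {n : ℕ} (a : Fin n) : Join → Matrix (Spin n) (Spin n) B
  | .straight => 1
  | .swap => 0
  | .turn => turnM A a

/-- The number of up spins minus the number of down spins. -/
def spin {n : ℕ} (σ : Spin n) : ℤ := ∑ j, (σ j : ℤ)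

/-- The diagonal matrix `z ^ spin`. -/
def twist (z : Bˣ) (n : ℕ) : Matrix (Spin n) (Spin n) B :=
  Matrix.diagonal fun σ => ((z ^ spin σ : Bˣ) : B)

/-- The product of the matrices of a list of turnbacks. -/
def prodM (A : Bˣ) {n : ℕ} (u : List (Fin n)) : Matrix (Spin n) (Spin n) B :=
  (u.map (turnM A)).prod

end Model

section Rot

variable {w : ZMod N → Letter n} {c : ZMod N → Join}

open Classical in
/-- The signed number of the caps and cups of the curve `q`, oriented by the alternating signs. -/
noncomputable def rot [NeZero N] (q : Quot (Joined w c)) : ℤ :=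
  ∑ t, if c t = .turn then
    (if cls w c (t, (w t).place.castSucc) = q then (-1) ^ ((w t).place : ℕ) else 0) +
    (if cls w c (t + 1, (w t).place.castSucc) = q then (-1) ^ ((w t).place : ℕ) else 0)
  else 0

end Rot

end Pool.Agent.Per
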