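import Pool.Agent.Per.Cheb

/-!
# The powers of the loop value are linearly independent over the Laurent polynomials in a power
-/

namespace Pool.Agent.Per

open LaurentPolynomial Pool.Agent.Helper1.PK

variable (p : ℕ) [Fact p.Prime]

/-- The substitution of `T s` for `T 1`. -/
noncomputable def subst (s : ℤ) : (ZMod p)[T;T⁻¹] →+* (ZMod p)[T;T⁻¹] :=
  eval₂ (C : ZMod p →+* (ZMod p)[T;T⁻¹]) (tU (ZMod p) s)

theorem subst_T (s k : ℤ) : subst p s (T k) = T (s * k) := by
  unfold subst
  rw [eval₂_T, tU_zpow_val]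

theorem subst_C (s : ℤ) (a : ZMod p) : subst p s (C a) = C a := by
  unfold subst
  rw [eval₂_C]

theorem subst_subst (s s' : ℤ) (f : (ZMod p)[T;T⁻¹]) :
    subst p s (subst p s' f) = subst p (s * s') f := by
  induction f using LaurentPolynomial.induction_on' with
  | add f g hf hg => rw [map_add, map_add, map_add, hf, hg]
  | C_mul_T k a =>
    rw [map_mul, map_mul, map_mul, subst_C, subst_C, subst_C, subst_T, subst_T, subst_T, mul_assoc]

theorem subst_dl (s : ℤ) : subst p s (dl p) = -T (2 * s) - T (-(2 * s)) := by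
  unfold dl
  rw [map_sub, map_neg, subst_T, subst_T]
  congr 2 <;> ring_nf

theorem subst_toLaurent (s : ℕ) (f : Polynomial (ZMod p)) :
    subst p s (Polynomial.toLaurent f) = Polynomial.toLaurent (f.comp (Polynomial.X ^ s)) := by
  induction f using Polynomial.induction_on' with
  | add f g hf hg => rw [map_add, map_add, hf, hg, Polynomial.add_comp, map_add]
  | monomial n a =>
    rw [← Polynomial.C_mul_X_pow_eq_monomial, Polynomial.toLaurent_C_mul_X_pow, map_mul, subst_C,
      subst_T, Polynomial.mul_comp, Polynomial.C_comp, Polynomial.pow_comp, Polynomial.X_comp,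
      ← pow_mul, Polynomial.toLaurent_C_mul_X_pow]
    push_cast
    rfl

theorem indep {r : ℕ} (hr : 0 < r) (P : Polynomial (ZMod p)[T;T⁻¹]) (hP : P.natDegree < 2 * r)
    (h : P.eval₂ (subst p (4 * r : ℕ)) (dl p) = 0) : P = 0 := by
  classical
  -- a common denominator
  have h1 : ∀ i, ∃ (m : ℕ) (f : Polynomial (ZMod p)), Polynomial.toLaurent f = P.coeff i * T m :=
    fun i => exists_T_pow _
  choose m f hf using h1
  set M := ∑ i ∈ Finset.range (2 * r), m i with hM
  have h2 : ∀ i, i < 2 * r → ∃ b : Polynomial (ZMod p),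
      Polynomial.toLaurent b = P.coeff i * T (M : ℤ) := by
    intro i hi
    have h3 : m i ≤ M := Finset.single_le_sum (f := m) (fun _ _ => Nat.zero_le _)
      (Finset.mem_range.mpr hi)
    refine ⟨f i * Polynomial.X ^ (M - m i), ?_⟩
    rw [map_mul, hf, Polynomial.toLaurent_X_pow, mul_assoc, ← T_add]
    congr 2
    push_cast [Nat.cast_sub h3]
    ring
  have h2' : ∀ i, ∃ b : Polynomial (ZMod p), i < 2 * r →
      Polynomial.toLaurent b = P.coeff i * T (M : ℤ) := by
    intro i
    by_cases hi : i < 2 * r
    · obtain ⟨b, hb⟩ := h2 i hi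
      exact ⟨b, fun _ => hb⟩
    · exact ⟨0, fun hh => absurd hh hi⟩
  choose b hb using h2'
  -- the polynomial terms
  set g : ℕ → Polynomial (ZMod p) := fun i =>
    Polynomial.C ((-1) ^ i) * ((b i).comp (Polynomial.X ^ (4 * r)) *
      (Polynomial.X ^ (4 * r - 2 * i) * (1 + Polynomial.X ^ 4) ^ i)) with hg
  have h4 : ∑ i ∈ Finset.range (2 * r), g i = 0 := by
    apply Polynomial.toLaurent_injective
    rw [map_zero, map_sum]
    have h5 : ∀ i ∈ Finset.range (2 * r), Polynomial.toLaurent (g i) =
        T ((4 * r : ℕ) * M + 4 * r) * (subst p (4 * r : ℕ) (P.coeff i) * dl p ^ i) := by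
      intro i hi
      have hi' := Finset.mem_range.mp hi
      have e1 : (dl p : (ZMod p)[T;T⁻¹]) = -1 * (T (-2) * (1 + T 4)) := by
        unfold dl
        have : (T (-2) * T 4 : (ZMod p)[T;T⁻¹]) = T 2 := by
          rw [← T_add]
          congr 1
        rw [mul_add, this]
        ring
      have e2 : Polynomial.toLaurent ((b i).comp (Polynomial.X ^ (4 * r))) =
          subst p (4 * r : ℕ) (P.coeff i) * T ((4 * r : ℕ) * M) := by
        rw [← subst_toLaurent, hb i hi', map_mul, subst_T]
      have e3 : (T (((4 * r - 2 * i : ℕ) : ℤ)) : (ZMod p)[T;T⁻¹]) = T (4 * r) * T (-2) ^ i := by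
        rw [T_pow, ← T_add]
        congr 1
        push_cast [Nat.cast_sub (show 2 * i ≤ 4 * r by omega)]
        ring
      have e4 : Polynomial.toLaurent (Polynomial.C ((-1 : ZMod p) ^ i)) = (-1) ^ i := by
        rw [Polynomial.toLaurent_C, map_pow, map_neg, map_one]
      have e5 : Polynomial.toLaurent ((1 + Polynomial.X ^ 4 : Polynomial (ZMod p)) ^ i) =
          (1 + T 4) ^ i := by
        rw [map_pow, map_add, map_one, Polynomial.toLaurent_X_pow]
        rfl
      simp only [hg]
      rw [map_mul, map_mul, map_mul, e2, Polynomial.toLaurent_X_pow, e3, e4, e5, e1,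
        mul_pow (-1 : (ZMod p)[T;T⁻¹]), mul_pow (T (-2)), T_add]
      push_cast
      ring
    rw [Finset.sum_congr rfl h5, ← Finset.mul_sum]
    have h6 : ∑ i ∈ Finset.range (2 * r), subst p (4 * r : ℕ) (P.coeff i) * dl p ^ i = 0 := by
      rw [← h, Polynomial.eval₂_eq_sum_range' _ hP]
    rw [h6, mul_zero]
  -- the degrees are different
  have h7 : ∀ i, i < 2 * r → g i ≠ 0 → (g i).natDegree = 4 * r * (b i).natDegree + 4 * r + 2 * i ∧
      b i ≠ 0 := by
    intro i hi hne
    have hb0 : b i ≠ 0 := by
      intro h0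
      apply hne
      simp only [hg, h0, Polynomial.zero_comp, zero_mul, mul_zero]
    refine ⟨?_, hb0⟩
    have k1 : (Polynomial.C ((-1 : ZMod p) ^ i)) ≠ 0 := by
      rw [Ne, Polynomial.C_eq_zero]
      exact pow_ne_zero _ (neg_ne_zero.mpr one_ne_zero)
    have k2 : (1 + Polynomial.X ^ 4 : Polynomial (ZMod p)).Monic := by
      rw [add_comm]
      exact Polynomial.monic_X_pow_add (by simp)
    have k3 : (1 + Polynomial.X ^ 4 : Polynomial (ZMod p)).natDegree = 4 := by
      have := Polynomial.natDegree_X_pow_add_C (n := 4) (r := (1 : ZMod p))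
      rw [map_one] at this
      rw [add_comm]
      exact this
    have k4 : ((b i).comp (Polynomial.X ^ (4 * r))) ≠ 0 := by
      intro h0
      rw [Polynomial.comp_eq_zero_iff] at h0
      rcases h0 with h0 | h0
      · exact hb0 h0
      · have := congrArg Polynomial.natDegree h0.2
        rw [Polynomial.natDegree_X_pow, Polynomial.natDegree_C] at this
        omega
    simp only [hg]
    rw [Polynomial.natDegree_mul k1 (mul_ne_zero k4 (mul_ne_zero (pow_ne_zero _ Polynomial.X_ne_zero)
      (k2.pow i).ne_zero)), Polynomial.natDegree_C, Polynomial.natDegree_mul k4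
      (mul_ne_zero (pow_ne_zero _ Polynomial.X_ne_zero) (k2.pow i).ne_zero),
      Polynomial.natDegree_comp, Polynomial.natDegree_X_pow,
      Polynomial.natDegree_mul (pow_ne_zero _ Polynomial.X_ne_zero) (k2.pow i).ne_zero,
      Polynomial.natDegree_X_pow, k2.natDegree_pow, k3]
    have : 2 * i ≤ 4 * r := by omega
    have e : (b i).natDegree * (4 * r) = 4 * r * (b i).natDegree := mul_comm _ _
    omega
  have h8 : Set.Pairwise {i | i ∈ Finset.range (2 * r) ∧ g i ≠ 0}
      (Function.onFun Ne (Polynomial.degree ∘ g)) := by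
    rintro i ⟨hi, hgi⟩ j ⟨hj, hgj⟩ hij hd
    have hi' := Finset.mem_range.mp hi
    have hj' := Finset.mem_range.mp hj
    apply hij
    have d1 : (g i).natDegree = (g j).natDegree := Polynomial.natDegree_eq_of_degree_eq hd
    rw [(h7 i hi' hgi).1, (h7 j hj' hgj).1] at d1
    have d2 : 2 * i % (4 * r) = 2 * j % (4 * r) := by
      have d3 : (4 * r * ((b i).natDegree + 1) + 2 * i) % (4 * r) =
          (4 * r * ((b j).natDegree + 1) + 2 * j) % (4 * r) := by
        have d4 : 4 * r * ((b i).natDegree + 1) + 2 * i =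
            4 * r * ((b j).natDegree + 1) + 2 * j := by
          rw [mul_add, mul_add, mul_one]
          exact d1
        rw [d4]
      rwa [Nat.mul_add_mod, Nat.mul_add_mod] at d3
    rw [Nat.mod_eq_of_lt (by omega), Nat.mod_eq_of_lt (by omega)] at d2
    omega
  have h9 := Polynomial.degree_sum_eq_of_disjoint g (Finset.range (2 * r)) h8
  rw [h4, Polynomial.degree_zero] at h9
  have h10 : ∀ i, i < 2 * r → g i = 0 := by
    intro i hi
    have : (g i).degree ≤ ⊥ := by
      rw [h9]
      exact Finset.le_sup (f := fun i => (g i).degree) (Finset.mem_range.mpr hi)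
    exact Polynomial.degree_eq_bot.mp (le_bot_iff.mp this)
  apply Polynomial.ext
  intro i
  rw [Polynomial.coeff_zero]
  by_cases hi : i < 2 * r
  · have hb0 : b i = 0 := by
      by_contra hb0
      have k4 : ((b i).comp (Polynomial.X ^ (4 * r))) ≠ 0 := by
        intro h0
        rw [Polynomial.comp_eq_zero_iff] at h0
        rcases h0 with h0 | h0
        · exact hb0 h0
        · have := congrArg Polynomial.natDegree h0.2
          rw [Polynomial.natDegree_X_pow, Polynomial.natDegree_C] at this
          omega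
      have k2 : (1 + Polynomial.X ^ 4 : Polynomial (ZMod p)).Monic := by
        rw [add_comm]
        exact Polynomial.monic_X_pow_add (by simp)
      have k1 : (Polynomial.C ((-1 : ZMod p) ^ i)) ≠ 0 := by
        rw [Ne, Polynomial.C_eq_zero]
        exact pow_ne_zero _ (neg_ne_zero.mpr one_ne_zero)
      exact mul_ne_zero k1 (mul_ne_zero k4 (mul_ne_zero (pow_ne_zero _ Polynomial.X_ne_zero)
        (k2.pow i).ne_zero)) (h10 i hi)
    have h11 := hb i hi
    rw [hb0, map_zero] at h11
    have h12 : (T (M : ℤ) : (ZMod p)[T;T⁻¹]) ≠ 0 := (isUnit_T _).ne_zero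
    exact (mul_eq_zero.mp h11.symm).resolve_right h12
  · exact Polynomial.coeff_eq_zero_of_natDegree_lt (by omega)

end Pool.Agent.Per
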