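import Pool.Agent.Per.Bridge
import Pool.Agent.Per.Indep

/-!
# Powers of an annular word modulo a prime
-/

namespace Pool.Agent.Per

open LaurentPolynomial Pool.Agent.Helper1.PK

variable {N M n : ℕ}

/-! ### The evaluation -/

section Ev

variable {p : ℕ} [Fact p.Prime] {k : ℕ}

/-- The annular bracket modulo `p` as a sum. -/
theorem map_annular [NeZero N] (w : ZMod N → Letter n) : (annular w).map (red p) =
    ∑ c : ZMod N → Join, (open Classical in if Valid w c then
      Polynomial.C (T (expo w c) * dl p ^ ines w c) * Polynomial.X ^ ess w c else 0) := by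
  classical
  rw [annular_eq, Polynomial.map_sum]
  refine Finset.sum_congr rfl fun c _ => ?_
  split_ifs
  · rw [Polynomial.map_mul, Polynomial.map_C, Polynomial.map_pow, Polynomial.map_X, map_mul,
      red_T, map_pow, map_sub, map_neg, red_T, red_T]
    rfl
  · rw [Polynomial.map_zero]

theorem map_core [NeZero N] (w : ZMod N → Letter n) (o : Pt N n → ℤˣ) : (core w o).map (red p) =
    Polynomial.C (((((-1 : ℤˣ) ^ writhe w o : ℤˣ) : ℤ) : (ZMod p)[T;T⁻¹]) * T (3 * writhe w o)) *
      Polynomial.X := by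
  unfold core
  rw [Polynomial.map_mul, Polynomial.map_C, Polynomial.map_X, map_mul, red_T, red_C]

theorem subst_dl_pow : subst p ((p ^ k : ℕ) : ℤ) (dl p) = dl p ^ (p ^ k) := by
  rw [subst_dl, dl_pow_char, mul_sub, mul_neg, mul_one, ← T_add]
  congr 2
  ring

theorem eval_annular [NeZero N] [NeZero M] (h : N ∣ M) (hM : M = p ^ k * N)
    (w : ZMod N → Letter n) :
    ((annular w).map (red p)).eval₂ (subst p ((p ^ k : ℕ) : ℤ)) (dl p) =
      dl p * red p (bracket (pullW h w)) := by
  classical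
  rw [bracket_mod h hM, map_annular, Polynomial.eval₂_finsetSum]
  refine Finset.sum_congr rfl fun c _ => ?_
  split_ifs
  · rw [Polynomial.eval₂_mul, Polynomial.eval₂_C, Polynomial.eval₂_pow, Polynomial.eval₂_X,
      map_mul, subst_T, map_pow, subst_dl_pow]
  · rw [Polynomial.eval₂_zero]

/-- The evaluation of the difference of the annular bracket and the core. -/
theorem eval_diff [NeZero N] [NeZero M] (h : N ∣ M) (hM : M = p ^ k * N)
    (w : ZMod N → Letter n) (o' : Pt N n → ℤˣ) :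
    ((annular w - core w o').map (red p)).eval₂ (subst p ((p ^ k : ℕ) : ℤ)) (dl p) =
      dl p * T (3 * ((p ^ k : ℕ) * writhe w o')) *
        ((((((-1 : ℤˣ) ^ writhe w o' : ℤˣ) : ℤ) : (ZMod p)[T;T⁻¹])) *
          (red p (normalized (pullW h w) (pullO h o')) - 1)) := by
  have hw : writhe (pullW h w) (pullO h o') = (p ^ k : ℕ) * writhe w o' := writhe_pull h hM w o'
  set κ' : ℤˣ := (-1) ^ writhe (pullW h w) (pullO h o') with hκ
  have hκ2 : (((κ' : ℤ) : (ZMod p)[T;T⁻¹])) * ((κ' : ℤ) : (ZMod p)[T;T⁻¹]) = 1 := by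
    rw [← Int.cast_mul, ← Units.val_mul, Int.units_mul_self]
    simp
  have h1 : red p (bracket (pullW h w)) = ((κ' : ℤ) : (ZMod p)[T;T⁻¹]) *
      T (3 * writhe (pullW h w) (pullO h o')) *
        red p (normalized (pullW h w) (pullO h o')) := by
    unfold normalized
    rw [map_mul, map_mul, red_C, red_T, ← hκ]
    have e1 : (T (3 * writhe (pullW h w) (pullO h o')) *
        T (-3 * writhe (pullW h w) (pullO h o')) : (ZMod p)[T;T⁻¹]) = 1 := by
      rw [← T_add]
      simp
    calc red p (bracket (pullW h w))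
        = (((κ' : ℤ) : (ZMod p)[T;T⁻¹]) * ((κ' : ℤ) : (ZMod p)[T;T⁻¹])) *
          (T (3 * writhe (pullW h w) (pullO h o')) *
            T (-3 * writhe (pullW h w) (pullO h o'))) *
            red p (bracket (pullW h w)) := by rw [hκ2, e1]; ring
      _ = _ := by ring
  have hsign : ((κ' : ℤ) : (ZMod p)[T;T⁻¹]) =
      ((((-1 : ℤˣ) ^ writhe w o' : ℤˣ) : ℤ) : (ZMod p)[T;T⁻¹]) := by
    have := sign_cast (p := p) (writhe w o') (r := p ^ k) (s := 1) ⟨k, rfl⟩ ⟨0, by simp⟩
    rw [hκ, hw, this]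
    simp
  have e1 : ((annular w - core w o').map (red p)) =
      (annular w).map (red p) - (core w o').map (red p) := by
    rw [Polynomial.map_sub]
  rw [e1, Polynomial.eval₂_sub, eval_annular h hM w, map_core, Polynomial.eval₂_mul,
    Polynomial.eval₂_C, Polynomial.eval₂_X, map_mul, map_intCast, subst_T, h1, hsign, hw]
  have e2 : ((p ^ k : ℕ) : ℤ) * (3 * writhe w o') = 3 * ((p ^ k : ℕ) * writhe w o') := by ring
  rw [e2]
  ring

theorem eval_zero_iff [NeZero N] [NeZero M] (h : N ∣ M) (hM : M = p ^ k * N)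
    (w : ZMod N → Letter n) (o' : Pt N n → ℤˣ) :
    ((annular w - core w o').map (red p)).eval₂ (subst p ((p ^ k : ℕ) : ℤ)) (dl p) = 0 ↔
      red p (normalized (pullW h w) (pullO h o')) = 1 := by
  rw [eval_diff h hM w o', mul_eq_zero, mul_eq_zero, mul_eq_zero, sub_eq_zero]
  constructor
  · rintro ((h1 | h1) | (h1 | h1))
    · exact absurd h1 (dl_ne_zero p)
    · exact absurd h1 (isUnit_T _).ne_zero
    · exfalso
      have hκ2 : ((((((-1 : ℤˣ) ^ writhe w o' : ℤˣ) : ℤ) : (ZMod p)[T;T⁻¹]))) *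
          (((((-1 : ℤˣ) ^ writhe w o' : ℤˣ) : ℤ) : (ZMod p)[T;T⁻¹])) = 1 := by
        rw [← Int.cast_mul, ← Units.val_mul, Int.units_mul_self]
        simp
      rw [h1, mul_zero] at hκ2
      exact zero_ne_one hκ2
    · exact h1
  · intro h1
    exact Or.inr (Or.inr h1)

end Ev

/-! ### The structure modulo `4` -/

section Structure

variable {p : ℕ} [Fact p.Prime]

/-- The difference in the variable `A ^ 4`. -/
noncomputable def GG [NeZero N] (p : ℕ) [Fact p.Prime] (w : ZMod N → Letter n) (κ : ℤˣ) (g : ℤ) :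
    Polynomial (ZMod p)[T;T⁻¹] :=
  (∑ c : ZMod N → Join, (open Classical in if Valid w c then
    Polynomial.C (T (uu w (ines w c) (expo w c)) * (-1 - T (-1)) ^ ines w c) *
      Polynomial.X ^ ess w c else 0)) -
    Polynomial.C (((κ : ℤ) : (ZMod p)[T;T⁻¹]) * T g) * Polynomial.X

theorem diff_eq [NeZero N] (w : ZMod N → Letter n) (o' : Pt N n → ℤˣ) {g : ℤ}
    (hg : 3 * writhe w o' - base w = 4 * g) :
    (annular w - core w o').map (red p) =
      Polynomial.C (T (base w)) * (GG p w ((-1) ^ writhe w o') g).map (subst p 4) := by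
  classical
  have h1 : (annular w).map (red p) = Polynomial.C (T (base w)) *
      (∑ c : ZMod N → Join, (if Valid w c then
        Polynomial.C (T (uu w (ines w c) (expo w c)) * (-1 - T (-1)) ^ ines w c) *
          Polynomial.X ^ ess w c else (0 : Polynomial (ZMod p)[T;T⁻¹]))).map (subst p 4) := by
    rw [map_annular, Polynomial.map_sum, Finset.mul_sum]
    refine Finset.sum_congr rfl fun c _ => ?_
    by_cases hv : Valid w c
    · have e1 : (dl p : (ZMod p)[T;T⁻¹]) = T 2 * (-1 - T (4 * -1)) := by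
        unfold dl
        have e0 : (T 2 * T (4 * -1) : (ZMod p)[T;T⁻¹]) = T (-2) := by
          rw [← T_add]
          norm_num
        rw [mul_sub, mul_neg, mul_one, e0]
      have e2 : subst p 4 (T (uu w (ines w c) (expo w c)) * (-1 - T (-1)) ^ ines w c) =
          T (4 * uu w (ines w c) (expo w c)) * (-1 - T (4 * -1)) ^ ines w c := by
        rw [map_mul, map_pow, map_sub, map_neg, map_one, subst_T, subst_T]
      have e3 : (T (expo w c) * dl p ^ ines w c : (ZMod p)[T;T⁻¹]) = T (base w) *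
          (T (4 * uu w (ines w c) (expo w c)) * (-1 - T (4 * -1)) ^ ines w c) := by
        have e4 : expo w c + (ines w c : ℤ) * 2 =
            base w + 4 * uu w (ines w c) (expo w c) := by
          have := four_uu hv
          linear_combination this
        rw [e1, mul_pow, T_pow, ← mul_assoc, ← T_add, e4, T_add, mul_assoc]
      rw [if_pos hv, if_pos hv, Polynomial.map_mul, Polynomial.map_C, Polynomial.map_pow,
        Polynomial.map_X, ← mul_assoc, ← Polynomial.C_mul, e2, e3]
    · rw [if_neg hv, if_neg hv, Polynomial.map_zero, mul_zero]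
  have h2 : (core w o').map (red p) = Polynomial.C (T (base w)) *
      (Polynomial.C (((((-1 : ℤˣ) ^ writhe w o' : ℤˣ) : ℤ) : (ZMod p)[T;T⁻¹]) * T g) *
        Polynomial.X).map (subst p 4) := by
    have e1 : (T (3 * writhe w o') : (ZMod p)[T;T⁻¹]) = T (base w) * T (4 * g) := by
      rw [← T_add, ← hg]
      ring_nf
    have e2 : subst p 4 (((((-1 : ℤˣ) ^ writhe w o' : ℤˣ) : ℤ) : (ZMod p)[T;T⁻¹]) * T g) =
        (((((-1 : ℤˣ) ^ writhe w o' : ℤˣ) : ℤ) : (ZMod p)[T;T⁻¹]) * T (4 * g)) := by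
      rw [map_mul, map_intCast, subst_T]
    rw [map_core, Polynomial.map_mul, Polynomial.map_C, Polynomial.map_X, ← mul_assoc,
      ← Polynomial.C_mul, e2, e1, mul_left_comm]
  unfold GG
  rw [Polynomial.map_sub, h1, h2, Polynomial.map_sub, mul_sub]

/-- The monic polynomial in `x`. -/
noncomputable def PhiV (p r : ℕ) : Polynomial (ZMod p)[T;T⁻¹] :=
  Polynomial.Chebyshev.C (ZMod p)[T;T⁻¹] (2 * r : ℕ) - Polynomial.C (T 1 + T (-1))

theorem PhiV_monic {r : ℕ} (hr : 0 < r) : (PhiV p r).Monic ∧ (PhiV p r).natDegree = 2 * r := by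
  have h1 := (cheb_monic (ZMod p)[T;T⁻¹] (2 * r - 1)).1
  rw [show 2 * r - 1 + 1 = 2 * r by omega] at h1
  have h2 : (Polynomial.C (T 1 + T (-1)) : Polynomial (ZMod p)[T;T⁻¹]).natDegree <
      (Polynomial.Chebyshev.C (ZMod p)[T;T⁻¹] (2 * r : ℕ)).natDegree := by
    rw [h1.2, Polynomial.natDegree_C]
    omega
  constructor
  · unfold PhiV
    apply h1.1.sub_of_left
    exact Polynomial.degree_lt_degree h2
  · unfold PhiV
    rw [Polynomial.natDegree_sub_eq_left_of_natDegree_lt h2, h1.2]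

theorem cheb_dl (s : ℤ) (m : ℕ) : (Polynomial.Chebyshev.C (ZMod p)[T;T⁻¹] (2 * m : ℕ)).eval
    (-T s - T (-s)) = T (2 * m * s) + T (-(2 * m * s)) := by
  have h1 := (cheb_eval (ZMod p)[T;T⁻¹] (-(tU (ZMod p) s)) (2 * m)).1
  have h2 : (((-(tU (ZMod p) s) : ((ZMod p)[T;T⁻¹])ˣ) : (ZMod p)[T;T⁻¹]) +
      (((-(tU (ZMod p) s))⁻¹ : ((ZMod p)[T;T⁻¹])ˣ) : (ZMod p)[T;T⁻¹])) = -T s - T (-s) := by
    rw [Units.val_neg, tU_val, inv_neg, Units.val_neg, tU_inv, tU_val]
    ring
  rw [h2] at h1
  rw [h1, inv_neg, (even_two_mul m).neg_pow, (even_two_mul m).neg_pow, tU_inv, Units.val_pow_eq_pow_val,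
    Units.val_pow_eq_pow_val, tU_val, tU_val, T_pow, T_pow]
  congr 2
  push_cast
  ring

theorem PhiV_eval (r : ℕ) : (PhiV p r).eval₂ (subst p (4 * r : ℕ)) (dl p) = 0 := by
  unfold PhiV
  rw [Polynomial.eval₂_sub, Polynomial.eval₂_C, map_add, subst_T, subst_T, Polynomial.eval₂_eq_eval_map,
    Polynomial.Chebyshev.map_C]
  have h1 := cheb_dl (p := p) 2 r
  rw [show (dl p : (ZMod p)[T;T⁻¹]) = -T 2 - T (-2) from rfl, h1, sub_eq_zero]
  congr 2
  · push_cast
    ring
  · push_cast
    ring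

/-- If the evaluation vanishes then `PhiV` divides. -/
theorem PhiV_dvd {r : ℕ} (hr : 0 < r) (G : Polynomial (ZMod p)[T;T⁻¹])
    (h : G.eval₂ (subst p (4 * r : ℕ)) (dl p) = 0) : PhiV p r ∣ G := by
  obtain ⟨hm, hd⟩ := PhiV_monic (p := p) hr
  have h1 := Polynomial.modByMonic_add_div G (PhiV p r)
  have h2 : (G %ₘ PhiV p r).eval₂ (subst p (4 * r : ℕ)) (dl p) = 0 := by
    have h3 := congrArg (fun P => Polynomial.eval₂ (subst p (4 * r : ℕ)) (dl p) P) h1
    simp only [Polynomial.eval₂_add, Polynomial.eval₂_mul, PhiV_eval, zero_mul, add_zero] at h3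
    rw [h3, h]
  have h4 : (G %ₘ PhiV p r).natDegree < 2 * r := by
    rw [← hd]
    apply Polynomial.natDegree_modByMonic_lt G hm
    intro h5
    rw [h5, Polynomial.natDegree_one] at hd
    omega
  have h6 := indep p hr _ h4 h2
  exact (Polynomial.modByMonic_eq_zero_iff_dvd hm).mp h6

end Structure

end Pool.Agent.Per
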