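import Pool.Agent.Per.Modp

/-!
# The theorem modulo a prime
-/

namespace Pool.Agent.Per

open LaurentPolynomial Pool.Agent.Helper1.PK

variable {N M n : ℕ}

section Final

variable {p : ℕ} [Fact p.Prime] {k : ℕ}

/-- The polynomial `C_2r(x) - A⁴ - A⁻⁴`. -/
noncomputable def Phi (r : ℕ) : Polynomial ℤ[T;T⁻¹] :=
  Polynomial.Chebyshev.C ℤ[T;T⁻¹] (2 * r : ℕ) - Polynomial.C (T 4 + T (-4))

theorem map_Phi (p : ℕ) [Fact p.Prime] (r : ℕ) :
    (Phi r).map (red p) = (PhiV p r).map (subst p 4) := by
  unfold Phi PhiV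
  have h1 : red p (T 4 + T (-4)) = T 4 + T (-4) := by rw [map_add, red_T, red_T]
  have h2 : subst p 4 (T 1 + T (-1)) = T 4 + T (-4) := by
    rw [map_add, subst_T, subst_T]
    rfl
  rw [Polynomial.map_sub, Polynomial.map_sub, Polynomial.Chebyshev.map_C,
    Polynomial.Chebyshev.map_C, Polynomial.map_C, Polynomial.map_C, h1, h2]

theorem subst_comp (p : ℕ) [Fact p.Prime] (r : ℕ) :
    (subst p (r : ℤ)).comp (subst p 4) = subst p ((4 * r : ℕ) : ℤ) := by
  apply RingHom.ext
  intro f
  rw [RingHom.comp_apply, subst_subst]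
  congr 2
  push_cast
  ring

theorem red_Phi_eval (r : ℕ) : ((Phi r).map (red p)).eval₂ (subst p (r : ℤ)) (dl p) = 0 := by
  rw [map_Phi, Polynomial.eval₂_map, subst_comp]
  exact PhiV_eval r

theorem map_ker {F : Polynomial ℤ[T;T⁻¹]} (h : F.map (red p) = 0) :
    (p : Polynomial ℤ[T;T⁻¹]) ∣ F := by
  have h1 : (p : Polynomial ℤ[T;T⁻¹]) = Polynomial.C (p : ℤ[T;T⁻¹]) := by simp
  rw [h1, Polynomial.C_dvd_iff_dvd_coeff]
  intro i
  apply red_ker p
  rw [← Polynomial.coeff_map, h, Polynomial.coeff_zero]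

theorem map_p_zero : ((p : Polynomial ℤ[T;T⁻¹])).map (red p) = 0 := by
  have h1 : (p : Polynomial ℤ[T;T⁻¹]) = Polynomial.C (p : ℤ[T;T⁻¹]) := by simp
  rw [h1, Polynomial.map_C, red_p, Polynomial.C_0]

/-- One direction: divisibility from the triviality of the big knot. -/
theorem Phi_dvd [NeZero N] [NeZero M] (h : N ∣ M) (hM : M = p ^ k * N) (hk : 1 ≤ k)
    (w : ZMod N → Letter n) (o' : Pt N n → ℤˣ) (hK : IsKnot (pullW h w))
    (ho' : IsOrientation w o') (hf : red p (normalized (pullW h w) (pullO h o')) = 1) :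
    (Phi (p ^ k)).map (red p) ∣ (annular w - core w o').map (red p) := by
  have hn := even_strands h hM hk w (pullO h o') hf
  have hK' := knot_descend h hK
  obtain ⟨g, hg⟩ := writhe_mod hK' ho' hn
  have hpk : 0 < p ^ k := pow_pos (Fact.out (p := p.Prime)).pos k
  have h1 := (eval_zero_iff (k := k) h hM w o').mpr hf
  rw [diff_eq w o' hg, Polynomial.eval₂_mul, Polynomial.eval₂_C, Polynomial.eval₂_map,
    subst_T] at h1
  rw [subst_comp] at h1
  have h3 := (mul_eq_zero.mp h1).resolve_left (isUnit_T _).ne_zero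
  obtain ⟨Q, hQ⟩ := PhiV_dvd hpk _ h3
  rw [diff_eq w o' hg, hQ, Polynomial.map_mul, map_Phi]
  exact ⟨Polynomial.C (T (base w)) * Q.map (subst p 4), by ring⟩

theorem ess_le [NeZero N] {w : ZMod N → Letter n} {c : ZMod N → Join} :
    ess w c ≤ n + 1 := by
  classical
  have h1 : ∀ q : {q : Quot (Joined w c) // wind q ≠ 0}, ∃ j : Fin (n + 1), cls w c (0, j) = q.1 := by
    rintro ⟨q, hq⟩
    by_contra hne
    push Not at hne
    apply hq
    unfold wind
    apply Finset.sum_eq_zero
    intro j _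
    unfold tm
    rw [if_neg (hne j)]
  choose f hf using h1
  have h2 : Function.Injective f := by
    intro a b hab
    apply Subtype.ext
    rw [← hf a, ← hf b, hab]
  have h3 := Fintype.card_le_of_injective f h2
  rw [Fintype.card_fin] at h3
  unfold ess
  rwa [Fintype.card_subtype] at h3

theorem natDegree_diff [NeZero N] (w : ZMod N → Letter n) (o' : Pt N n → ℤˣ) :
    (annular w - core w o').natDegree ≤ n + 1 := by
  classical
  apply (Polynomial.natDegree_sub_le _ _).trans
  apply max_le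
  · rw [annular_eq]
    apply Polynomial.natDegree_sum_le_of_forall_le
    intro c _
    split_ifs
    · exact (Polynomial.natDegree_C_mul_X_pow_le _ _).trans ess_le
    · simp
  · unfold core
    have h1 := Polynomial.natDegree_C_mul_X_pow_le
      (C (((-1 : ℤˣ) ^ writhe w o' : ℤˣ) : ℤ) * T (3 * writhe w o') : ℤ[T;T⁻¹]) 1
    rw [pow_one] at h1
    exact h1.trans (by omega)

/-- The theorem modulo a prime, in terms of pulled back words. -/
theorem modp_pull [NeZero N] [NeZero M] (h : N ∣ M) (hM : M = p ^ k * N) (hk : 1 ≤ k)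
    (w : ZMod N → Letter n) (o : Pt M n → ℤˣ) (o' : Pt N n → ℤˣ) (hK : IsKnot (pullW h w))
    (ho : IsOrientation (pullW h w) o) (ho' : IsOrientation w o') :
    ((p : ℤ[T;T⁻¹]) ∣ normalized (pullW h w) o - 1 ↔
      ∃ X Y : Polynomial ℤ[T;T⁻¹], annular w - core w o' =
        Phi (p ^ k) * X + (p : Polynomial ℤ[T;T⁻¹]) * Y) ∧
    (n + 1 < 2 * p ^ k → ((p : ℤ[T;T⁻¹]) ∣ normalized (pullW h w) o - 1 ↔
      (p : Polynomial ℤ[T;T⁻¹]) ∣ annular w - core w o')) := by
  have hpk : 0 < p ^ k := pow_pos (Fact.out (p := p.Prime)).pos k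
  have hpull : IsOrientation (pullW h w) (pullO h o') := compat_pull h ho'
  have hnorm : normalized (pullW h w) o = normalized (pullW h w) (pullO h o') := by
    rcases orientation_unique hK ho hpull with h1 | h1
    · rw [h1]
    · rw [h1, orientation_neg]
  have hone : (p : ℤ[T;T⁻¹]) ∣ normalized (pullW h w) o - 1 ↔
      red p (normalized (pullW h w) (pullO h o')) = 1 := by
    rw [hnorm]
    constructor
    · rintro ⟨Z, hZ⟩
      have := congrArg (red p) hZ
      rw [map_sub, map_one, map_mul, red_p, zero_mul] at this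
      exact sub_eq_zero.mp this
    · intro h1
      apply red_ker p
      rw [map_sub, map_one, h1, sub_self]
  have key : red p (normalized (pullW h w) (pullO h o')) = 1 ↔
      ∃ X Y : Polynomial ℤ[T;T⁻¹], annular w - core w o' =
        Phi (p ^ k) * X + (p : Polynomial ℤ[T;T⁻¹]) * Y := by
    constructor
    · intro hf
      obtain ⟨Q, hQ⟩ := Phi_dvd h hM hk w o' hK ho' hf
      obtain ⟨X, hX⟩ := Polynomial.map_surjective (red p) (red_surj p) Q
      have h1 : (annular w - core w o' - Phi (p ^ k) * X).map (red p) = 0 := by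
        rw [Polynomial.map_sub, Polynomial.map_mul, hX, hQ, sub_self]
      obtain ⟨Y, hY⟩ := map_ker h1
      exact ⟨X, Y, by rw [← hY]; ring⟩
    · rintro ⟨X, Y, hXY⟩
      rw [← eval_zero_iff (k := k) h hM w o', hXY, Polynomial.map_add, Polynomial.map_mul,
        Polynomial.map_mul, map_p_zero, zero_mul, add_zero, Polynomial.eval₂_mul]
      have := red_Phi_eval (p := p) (p ^ k)
      rw [this, zero_mul]
  refine ⟨hone.trans key, fun hN => hone.trans ?_⟩
  constructor
  · intro hf
    have h1 := Phi_dvd h hM hk w o' hK ho' hf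
    have h2 := PhiV_monic (p := p) hpk
    have h3 : ((Phi (p ^ k)).map (red p)).Monic ∧
        ((Phi (p ^ k)).map (red p)).natDegree = 2 * p ^ k := by
      rw [map_Phi]
      exact ⟨h2.1.map _, by rw [h2.1.natDegree_map, h2.2]⟩
    apply map_ker
    by_contra hne
    have h4 := Polynomial.natDegree_le_of_dvd h1 hne
    have h5 : ((annular w - core w o').map (red p)).natDegree ≤ n + 1 :=
      Polynomial.natDegree_map_le.trans (natDegree_diff w o')
    omega
  · intro hd
    rw [key]
    obtain ⟨Y, hY⟩ := hd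
    exact ⟨0, Y, by rw [hY]; ring⟩

end Final

end Pool.Agent.Per
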