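import Pool.Agent.Per.Modp2

/-!
# The modulus in a simpler form
-/

namespace Pool.Agent.Per

open LaurentPolynomial Pool.Agent.Helper1.PK

section Simple

theorem cheb_charP (R : Type*) [CommRing R] (p : ℕ) [Fact p.Prime] [CharP R p] (k : ℕ) :
    Polynomial.Chebyshev.C R ((p ^ k : ℕ) : ℤ) = Polynomial.X ^ (p ^ k) := by
  induction k with
  | zero => simp
  | succ k ih =>
    have h1 : Polynomial.Chebyshev.C R (p : ℤ) = Polynomial.X ^ p := by
      rw [← Polynomial.dickson_one_one_eq_chebyshev_C, Polynomial.dickson_one_one_charP]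
    have h2 : ((p ^ (k + 1) : ℕ) : ℤ) = ((p ^ k : ℕ) : ℤ) * (p : ℤ) := by
      push_cast
      ring
    rw [h2, Polynomial.Chebyshev.C_mul, ih, h1, Polynomial.X_pow_comp, ← pow_mul]
    congr 1
    ring

theorem cheb_two_charP (R : Type*) [CommRing R] (p : ℕ) [Fact p.Prime] [CharP R p] (k : ℕ) :
    Polynomial.Chebyshev.C R ((2 * p ^ k : ℕ) : ℤ) = Polynomial.X ^ (2 * p ^ k) - 2 := by
  have h2 : ((2 * p ^ k : ℕ) : ℤ) = 2 * ((p ^ k : ℕ) : ℤ) := by
    push_cast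
    ring
  rw [h2, Polynomial.Chebyshev.C_mul, cheb_charP, Polynomial.Chebyshev.C_two,
    Polynomial.sub_comp, Polynomial.X_pow_comp, ← pow_mul, Polynomial.ofNat_comp]
  congr 2
  ring

variable {p : ℕ} [Fact p.Prime]

/-- The two moduli agree modulo `p`. -/
theorem Phi_simple (p : ℕ) [Fact p.Prime] (k : ℕ) : (p : Polynomial ℤ[T;T⁻¹]) ∣
    Phi (p ^ k) - (Polynomial.X ^ (2 * p ^ k) - Polynomial.C ((T 2 + T (-2)) ^ 2)) := by
  apply map_ker
  unfold Phi
  rw [Polynomial.map_sub, Polynomial.map_sub, Polynomial.map_sub, Polynomial.Chebyshev.map_C,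
    cheb_two_charP, Polynomial.map_pow, Polynomial.map_X, Polynomial.map_C, Polynomial.map_C]
  have h1 : red p ((T 2 + T (-2)) ^ 2) = red p (T 4 + T (-4)) + 2 := by
    rw [map_pow, map_add, map_add, red_T, red_T, red_T, red_T]
    have e1 : (T 2 * T 2 : (ZMod p)[T;T⁻¹]) = T 4 := by
      rw [← T_add]
      rfl
    have e2 : (T 2 * T (-2) : (ZMod p)[T;T⁻¹]) = 1 := by
      rw [← T_add]
      exact T_zero
    have e3 : (T (-2) * T (-2) : (ZMod p)[T;T⁻¹]) = T (-4) := by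
      rw [← T_add]
      rfl
    linear_combination e1 + 2 * e2 + e3
  have h2 : (Polynomial.C (2 : (ZMod p)[T;T⁻¹])) = 2 := Polynomial.C_ofNat 2
  have h3 : Polynomial.C (red p (T 4 + T (-4)) + 2) = Polynomial.C (red p (T 4 + T (-4))) + 2 := by
    rw [Polynomial.C_add, h2]
  rw [h1, h3]
  ring

/-- Membership in the ideal of the two moduli. -/
theorem ideal_simple (p : ℕ) [Fact p.Prime] (k : ℕ) (D : Polynomial ℤ[T;T⁻¹]) :
    (∃ X Y : Polynomial ℤ[T;T⁻¹], D = Phi (p ^ k) * X + (p : Polynomial ℤ[T;T⁻¹]) * Y) ↔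
      ∃ X Y : Polynomial ℤ[T;T⁻¹], D =
        (Polynomial.X ^ (2 * p ^ k) - Polynomial.C ((T 2 + T (-2)) ^ 2)) * X +
          (p : Polynomial ℤ[T;T⁻¹]) * Y := by
  obtain ⟨Z, hZ⟩ := Phi_simple p k
  constructor
  · rintro ⟨X, Y, h⟩
    exact ⟨X, Y + Z * X, by rw [h]; linear_combination X * hZ⟩
  · rintro ⟨X, Y, h⟩
    exact ⟨X, Y - Z * X, by rw [h]; linear_combination (-X) * hZ⟩

end Simple

end Pool.Agent.Per
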