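import Pool.Agent.Per.Count

/-!
# Periodic knots with trivial normalized bracket

Retired hand-in (replaced by FourBraids); its claim file read:

Proves: For every cyclic word W on N=n+1 strands there is a set E of at most ((2^N+1)(N+1))^2 integers such that for every m not in E for which the closure K_m of W^m in the annulus is a knot: f(K_m)=1 if and only if <K_m> = (-A^3)^writhe x, the bracket in the solid torus of the core circle with the writhe of K_m.
Definitions: Letter: braid generator (pos), its inverse (neg) or cap-cup (turn) on strands a,a+1; power m w: the word w repeated m times (diagram K_m); Pt, point, partner, Joined, curves: arcs of the slabs and number of closed curves they make; IsKnot: one component; weight, bracket: Kauffman state sum; flow, IsOrientation: consistent up/down signs; writhe; normalized: f=(-A^3)^(-writhe) bracket; essential: number of state curves meeting level 0 in an odd number of points, i.e. going round the annulus; annular: <K>, the state sum in Z[A^±1][x] with x for each essential curve, -A^2-A^-2 for each other curve; core: (-A^3)^writhe x.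
Relation: Partial answer to Q1. Every m-periodic knot is such a K_m. For all but boundedly many m (bound in terms of N only) a trivial f-polynomial forces K_m to have the class of the core in the Kauffman bracket skein module of the solid torus, a much stronger condition than f=1; if no K_m has this class, f(K_m)<>1 for all but at most ((2^N+1)(N+1))^2 values of m. We know of no source; related: congruences mod p for the Jones polynomial of periodic links (Murasugi, Traczyk, Przytycki, Yokota).


Let `K_m` be the closure of the `m`-th power of an annular word `w` on `N = n + 1` strands.  For
all `m` outside a set of at most `((2 ^ N + 1) * (N + 1)) ^ 2` exponents: if `K_m` is a knot then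
`f(K_m) = 1` if and only if the annular bracket of `K_m` (its Kauffman bracket in the solid torus)
is that of the core of the annulus.
-/

open Pool.Agent.Helper1.PK Pool.Agent.Per LaurentPolynomial

namespace Pool.Agent.Results.MP_42db45_gt.PeriodicAnnular

theorem result {q n : ℕ} [NeZero q] (w : ZMod q → Letter n) :
    ∃ E : Finset ℕ, E.card ≤ ((2 ^ (n + 1) + 1) * (n + 2)) ^ 2 ∧
      ∀ (m : ℕ) [NeZero (m * q)], m ∉ E → ∀ o : Pt (m * q) n → ℤˣ,
        IsKnot (power m w) → IsOrientation (power m w) o →
        (normalized (power m w) o = 1 ↔ annular (power m w) = core (power m w) o) :=
  count_powers w

end Pool.Agent.Results.MP_42db45_gt.PeriodicAnnular
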