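import Pool.Agent.Per.Bridge

/-!
# The annular bracket as the trace of a transfer matrix
-/

namespace Pool.Agent.Per

open LaurentPolynomial Pool.Agent.Helper1.PK

variable {N n : ℕ}

section Transfer

variable {B : Type} [CommRing B]

/-- The image of the variable `A`. -/
noncomputable def unitA (φ : ℤ[T;T⁻¹] →+* B) : Bˣ := Units.map φ.toMonoidHom (tU ℤ 1)

theorem unitA_zpow (φ : ℤ[T;T⁻¹] →+* B) (k : ℤ) :
    ((unitA φ ^ k : Bˣ) : B) = φ (T k) := by
  unfold unitA
  rw [← map_zpow, Units.coe_map]
  show φ ((tU ℤ 1 ^ k : (ℤ[T;T⁻¹])ˣ) : ℤ[T;T⁻¹]) = _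
  rw [tU_zpow_val, one_mul]

theorem loopv_unitA (φ : ℤ[T;T⁻¹] →+* B) : loopv (unitA φ) = φ (-T 2 - T (-2)) := by
  unfold loopv
  rw [unitA_zpow, unitA_zpow, map_sub, map_neg]

/-- The matrix of a letter. -/
noncomputable def letterM (φ : ℤ[T;T⁻¹] →+* B) (l : Letter n) : Matrix (Spin n) (Spin n) B :=
  ∑ k : Join, φ (weight l.kind k) • stepM (unitA φ) l.place k

/-- The transfer matrix of a word. -/
noncomputable def wordM (φ : ℤ[T;T⁻¹] →+* B) (w : ZMod N → Letter n) :
    Matrix (Spin n) (Spin n) B :=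
  ((List.range N).map fun i : ℕ => letterM φ (w (i : ZMod N))).prod

theorem cyc_list {α : Type*} [Monoid α] (M : ZMod N → α) :
    ((List.range N).map fun i => M (i : ZMod N)).prod =
      ((List.range N).map fun i : ℕ => M (i : ZMod N)).prod := by
  have h : (do
      let a ← List.range N
      pure (a : ZMod N)) = (List.range N).map (fun i : ℕ => (i : ZMod N)) := by
    simp [List.map_eq_flatMap]
  rw [h, List.map_map]
  rfl

theorem transfer (h1 : Stmt_State) (h2 : Stmt_Cyc) [NeZero N] (φ : ℤ[T;T⁻¹] →+* B) (z : Bˣ)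
    (w : ZMod N → Letter n) :
    (annular w).eval₂ φ ((z : B) + ((z⁻¹ : Bˣ) : B)) =
      Matrix.trace (twist z n * wordM φ w) := by
  classical
  have e1 : (annular w).eval₂ φ ((z : B) + ((z⁻¹ : Bˣ) : B)) = ∑ c : ZMod N → Join,
      (∏ t, φ (weight (w t).kind (c t))) * ∑ o : ZMod N → Spin n, ((z ^ spin (o 0) : Bˣ) : B) *
        ∏ t, stepM (unitA φ) (w t).place (c t) (o t) (o (t + 1)) := by
    rw [annular_eq, Polynomial.eval₂_finsetSum]
    refine Finset.sum_congr rfl fun c _ => ?_
    by_cases hv : Valid w c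
    · rw [if_pos hv, h1 B (unitA φ) z N n w c hv.1, Polynomial.eval₂_mul, Polynomial.eval₂_C,
        Polynomial.eval₂_pow, Polynomial.eval₂_X, ← map_prod, prod_weight_valid hv, map_mul,
        map_pow, loopv_unitA, mul_assoc]
    · rw [if_neg hv, Polynomial.eval₂_zero, ← map_prod, prod_weight_not_valid hv, map_zero,
        zero_mul]
  have e2 := h2 B (Spin n) N (fun t => letterM φ (w t)) (fun σ => ((z ^ spin σ : Bˣ) : B))
  have e3 : Matrix.trace (twist z n * wordM φ w) = ∑ o : ZMod N → Spin n,
      ((z ^ spin (o 0) : Bˣ) : B) * ∏ t, letterM φ (w t) (o t) (o (t + 1)) := by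
    rw [e2, cyc_list]
    rfl
  rw [e1, e3]
  simp only [Finset.mul_sum]
  rw [Finset.sum_comm]
  refine Finset.sum_congr rfl fun o _ => ?_
  have e4 : ∏ t, letterM φ (w t) (o t) (o (t + 1)) = ∑ c : ZMod N → Join,
      ∏ t, (φ (weight (w t).kind (c t)) * stepM (unitA φ) (w t).place (c t) (o t) (o (t + 1))) := by
    rw [← prod_sum_swap (fun (t : ZMod N) (k : Join) =>
      φ (weight (w t).kind k) * stepM (unitA φ) (w t).place k (o t) (o (t + 1)))]
    refine Finset.prod_congr rfl fun t _ => ?_
    unfold letterM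
    rw [Matrix.sum_apply]
    rfl
  rw [e4, Finset.mul_sum]
  refine Finset.sum_congr rfl fun c _ => ?_
  rw [Finset.prod_mul_distrib]
  ring

theorem wordM_power [NeZero N] (φ : ℤ[T;T⁻¹] →+* B) (w : ZMod N → Letter n) (m : ℕ)
    [NeZero (m * N)] : wordM φ (power m w) = wordM φ w ^ m := by
  have e1 : wordM φ (power m w) =
      ((List.range (m * N)).map fun i : ℕ => letterM φ (w (i : ZMod N))).prod := by
    unfold wordM
    congr 1
    apply List.map_congr_left
    intro i hi
    have hi' : i < m * N := List.mem_range.mp hi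
    unfold power
    rw [ZMod.val_natCast_of_lt hi']
  have e2 : ∀ k : ℕ, ((List.range (k * N)).map fun i : ℕ => letterM φ (w (i : ZMod N))).prod =
      wordM φ w ^ k := by
    intro k
    induction k with
    | zero => simp
    | succ k ih =>
      rw [Nat.succ_mul, List.range_add, List.map_append, List.prod_append, ih, List.map_map,
        pow_succ]
      congr 1
      unfold wordM
      congr 1
      apply List.map_congr_left
      intro i _
      simp only [Function.comp_apply]
      congr 2
      push_cast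
      simp
  rw [e1, e2]

end Transfer

end Pool.Agent.Per
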